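import Mathlib

/-!
# SQ-L4: the core inequality

Let `β = 1 - |a|²`, `x = x' + conj a t` and `E = 2 δ / ζ`. Writing `s = |a|`, `A = ‖x'‖`, one has
the IDENTITY

  `(1+δ) β² B² + 2 Re (conj a (⟨x, β t⟩ + ⟨y, β v⟩)) - β (‖x‖² + ‖y‖²)`
  `  = β ((1+δ) B² - A² - ‖y - conj a v‖²)`          (uses `‖t‖² + ‖v‖² = (1+δ) B²`).

So the claim is `β ((1+δ) B² - A² - ‖y - conj a v‖²) ≤ E (‖x‖² + ‖y‖²)`. If `(1+δ) B² ≤ A²` it is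
clear. Otherwise, since `B ≤ A`: `(1+δ) B² - A² ≤ δ A²`. Further, for `ρ = E β / (E + β)`:
`ρ s² ‖v‖² ≤ E ‖y‖² + β ‖y - conj a v‖²` (because `conj a v = y - (y - conj a v)`, so
`s ‖v‖ ≤ ‖y‖ + ‖y - conj a v‖` and `(E β/(E+β)) (g + h)² ≤ E g² + β h²`), and, with
`|⟨x', t⟩| ≤ w A²`:
`‖x‖² + s² ‖v‖² = A² + s² ‖t‖² + 2 Re (conj a ⟨x', t⟩) + s² ((1+δ) B² - ‖t‖²)`
`  ≥ A² - 2 s w A² + s² A² = (1 + s² - 2 s w) A²`. As `ρ ≤ E`: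
`E ‖x‖² + E ‖y‖² + β ‖y - conj a v‖² ≥ ρ (‖x‖² + s² ‖v‖²) ≥ ρ (1 + s² - 2 s w) A²`, and it is
enough that `ρ (1 + s² - 2sw) ≥ β δ`, that is `E (1 + s² - 2sw) ≥ δ (E + β)`. Now
`1 + s² - 2sw ≥ 1 - w² = ζ² ≥ 2 δ`, so `1 + s² - 2sw - δ ≥ (1 + s² - 2sw) / 2`, and
`1 + s² - 2sw ≥ ζ (1 - s²)` because, by `w² = (1-ζ)(1+ζ)`,
`(1+ζ) (1 + s² - 2sw - ζ (1 - s²)) = ((1+ζ) s - w)² ≥ 0`. Hence
`E (1 + s² - 2sw - δ) ≥ (2δ/ζ) ζ β / 2 = δ β`.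
-/

set_option autoImplicit false

open scoped ComplexConjugate InnerProductSpace

namespace Pool.Agent.Helper69.SQ

theorem core_real (P T V Y c₁ c₂ s B₂ w ζ δ : ℝ) (hs0 : 0 ≤ s) (hs1 : s < 1)
    (hζ : 0 < ζ) (hwζ : w ^ 2 + ζ ^ 2 = 1) (hδ : 0 < δ) (hδζ : δ ≤ ζ ^ 2 / 2)
    (hTV : T + V = (1 + δ) * B₂) (hB : B₂ ≤ P) (hP : 0 ≤ P) (hY : 0 ≤ Y)
    (hD : 0 ≤ Y - 2 * c₂ + s ^ 2 * V) (hX : 0 ≤ P + 2 * c₁ + s ^ 2 * T)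
    (hc₁ : |c₁| ≤ s * w * P)
    (hsq : ∀ g h : ℝ, 0 ≤ g ^ 2 * Y - 2 * (g * h) * c₂ + h ^ 2 * (s ^ 2 * V)) :
    (1 - s ^ 2) * ((1 + δ) * B₂ - P - (Y - 2 * c₂ + s ^ 2 * V)) ≤
      2 * δ / ζ * (P + 2 * c₁ + s ^ 2 * T + Y) := by
  have hβ : 0 < 1 - s ^ 2 := by nlinarith
  set β := 1 - s ^ 2 with hβd
  have hE : 0 < 2 * δ / ζ := by positivity
  set E := 2 * δ / ζ with hEd
  set D := Y - 2 * c₂ + s ^ 2 * V with hDd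
  set X := P + 2 * c₁ + s ^ 2 * T with hXd
  by_cases hcase : (1 + δ) * B₂ ≤ P
  · have h1 : β * ((1 + δ) * B₂ - P - D) ≤ 0 :=
      mul_nonpos_of_nonneg_of_nonpos hβ.le (by linarith)
    have h2 : 0 ≤ E * (X + Y) := by positivity
    linarith
  · push Not at hcase
    have hEβ : 0 < E + β := by positivity
    set ρ := E * β / (E + β) with hρd
    have hρ0 : 0 ≤ ρ := by positivity
    have hρE : ρ ≤ E := by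
      rw [hρd, div_le_iff₀ hEβ]
      nlinarith
    have hρmul : ρ * (E + β) = E * β := by
      rw [hρd]; field_simp
    -- the bound for `V`
    have hV : ρ * (s ^ 2 * V) ≤ E * Y + β * D := by
      have h := hsq (E + β) β
      have h3 : E * β * (s ^ 2 * V) ≤ (E + β) * (E * Y + β * D) := by
        rw [hDd]; nlinarith [h]
      have h4 : (E + β) * (ρ * (s ^ 2 * V)) ≤ (E + β) * (E * Y + β * D) := by
        calc (E + β) * (ρ * (s ^ 2 * V)) = ρ * (E + β) * (s ^ 2 * V) := by ring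
          _ = E * β * (s ^ 2 * V) := by rw [hρmul]
          _ ≤ _ := h3
      exact le_of_mul_le_mul_left h4 hEβ
    set m := 1 + s ^ 2 - 2 * s * w with hmd
    have hw1 : w ^ 2 ≤ 1 := by nlinarith
    have hmζ : ζ ^ 2 ≤ m := by
      rw [hmd]; nlinarith [sq_nonneg (s - w)]
    have hζ1 : ζ ≤ 1 := by nlinarith
    have hmβ : ζ * β ≤ m := by
      have h5 : (1 + ζ) * (m - ζ * β) = ((1 + ζ) * s - w) ^ 2 := by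
        rw [hmd, hβd]
        have hw2 : w ^ 2 = (1 - ζ) * (1 + ζ) := by nlinarith
        calc (1 + ζ) * (1 + s ^ 2 - 2 * s * w - ζ * (1 - s ^ 2))
            = (1 + ζ) ^ 2 * s ^ 2 - 2 * (1 + ζ) * s * w + (1 - ζ) * (1 + ζ) := by ring
          _ = (1 + ζ) ^ 2 * s ^ 2 - 2 * (1 + ζ) * s * w + w ^ 2 := by rw [hw2]
          _ = _ := by ring
      have h6 : 0 ≤ (1 + ζ) * (m - ζ * β) := by rw [h5]; positivity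
      have h7 : 0 ≤ m - ζ * β := nonneg_of_mul_nonneg_right h6 (by linarith)
      linarith
    have hXV : m * P ≤ X + s ^ 2 * V := by
      have h8 : -(s * w * P) ≤ c₁ := (abs_le.1 hc₁).1
      have h9 : P ≤ T + V := by linarith
      have h10 : s ^ 2 * P ≤ s ^ 2 * (T + V) := mul_le_mul_of_nonneg_left h9 (sq_nonneg s)
      rw [hmd, hXd]
      nlinarith
    have hkey : δ * (E + β) ≤ E * m := by
      have h11 : E * δ ≤ E * m / 2 := by nlinarith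
      have h12 : δ * β ≤ E * m / 2 := by
        have h13 : E * m / 2 = δ / ζ * m := by rw [hEd]; ring
        have h14 : δ * β = δ / ζ * (ζ * β) := by field_simp
        rw [h13, h14]
        exact mul_le_mul_of_nonneg_left hmβ (by positivity)
      nlinarith
    have hρm : β * δ ≤ ρ * m := by
      have h15 : (E + β) * (β * δ) ≤ (E + β) * (ρ * m) := by
        calc (E + β) * (β * δ) = β * (δ * (E + β)) := by ring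
          _ ≤ β * (E * m) := mul_le_mul_of_nonneg_left hkey hβ.le
          _ = (ρ * (E + β)) * m := by rw [hρmul]; ring
          _ = _ := by ring
      exact le_of_mul_le_mul_left h15 hEβ
    have h16 : β * ((1 + δ) * B₂ - P) ≤ β * δ * P := by
      have : (1 + δ) * B₂ ≤ (1 + δ) * P := mul_le_mul_of_nonneg_left hB (by linarith)
      nlinarith
    have h17 : β * δ * P ≤ ρ * m * P := mul_le_mul_of_nonneg_right hρm hP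
    have h18 : ρ * (m * P) ≤ ρ * (X + s ^ 2 * V) := mul_le_mul_of_nonneg_left hXV hρ0
    have h19 : ρ * X ≤ E * X := mul_le_mul_of_nonneg_right hρE hX
    nlinarith

theorem core_ineq {E : Type} [NormedAddCommGroup E] [InnerProductSpace ℂ E] (x' t v y : E)
    (a : ℂ) (B w ζ δ : ℝ) (ha : ‖a‖ < 1) (hB : 0 ≤ B) (hw : 0 ≤ w) (hζ : 0 < ζ)
    (hwζ : w ^ 2 + ζ ^ 2 = 1) (hδ : 0 < δ) (hδζ : δ ≤ ζ ^ 2 / 2)
    (htv : ‖t‖ ^ 2 + ‖v‖ ^ 2 = (1 + δ) * B ^ 2) (hBx : B ≤ ‖x'‖)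
    (hxt : ‖⟪x', t⟫_ℂ‖ ≤ w * ‖x'‖ ^ 2) :
    (1 + δ) * ((1 - ‖a‖ ^ 2) * B) ^ 2 +
      2 * (conj a * (⟪x' + conj a • t, ((1 - ‖a‖ ^ 2 : ℝ) : ℂ) • t⟫_ℂ +
        ⟪y, ((1 - ‖a‖ ^ 2 : ℝ) : ℂ) • v⟫_ℂ)).re ≤
      (1 - ‖a‖ ^ 2 + 2 * δ / ζ) * (‖x' + conj a • t‖ ^ 2 + ‖y‖ ^ 2) := by
  have hs0 : 0 ≤ ‖a‖ := norm_nonneg a
  set s := ‖a‖ with hsd
  set c₁ := (conj a * ⟪x', t⟫_ℂ).re with hc₁d
  set c₂ := (conj a * ⟪y, v⟫_ℂ).re with hc₂d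
  have haa : conj a * a = ((s ^ 2 : ℝ) : ℂ) := by
    rw [hsd, Complex.conj_mul']
    push_cast
    ring
  have hnx : ‖x' + conj a • t‖ ^ 2 = ‖x'‖ ^ 2 + 2 * c₁ + s ^ 2 * ‖t‖ ^ 2 := by
    have h := @norm_add_sq ℂ E _ _ _ x' (conj a • t)
    rw [h, inner_smul_right, norm_smul, mul_pow, RCLike.norm_conj]
    simp [hc₁d, hsd]
  have hre : (conj a * (⟪x' + conj a • t, ((1 - s ^ 2 : ℝ) : ℂ) • t⟫_ℂ +
      ⟪y, ((1 - s ^ 2 : ℝ) : ℂ) • v⟫_ℂ)).re =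
      (1 - s ^ 2) * (c₁ + s ^ 2 * ‖t‖ ^ 2 + c₂) := by
    have h1 : conj a * (⟪x' + conj a • t, ((1 - s ^ 2 : ℝ) : ℂ) • t⟫_ℂ +
      ⟪y, ((1 - s ^ 2 : ℝ) : ℂ) • v⟫_ℂ) =
      ((1 - s ^ 2 : ℝ) : ℂ) * (conj a * ⟪x', t⟫_ℂ + ((s ^ 2 * ‖t‖ ^ 2 : ℝ) : ℂ) +
        conj a * ⟪y, v⟫_ℂ) := by
      rw [inner_add_left, inner_smul_left, inner_smul_right, inner_smul_right, inner_smul_right,
        Complex.conj_conj, inner_self_eq_norm_sq_to_K]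
      have h2 : conj a * (((1 - s ^ 2 : ℝ) : ℂ) * ⟪x', t⟫_ℂ +
          a * (((1 - s ^ 2 : ℝ) : ℂ) * ((‖t‖ : ℝ) : ℂ) ^ 2) +
          ((1 - s ^ 2 : ℝ) : ℂ) * ⟪y, v⟫_ℂ) =
          ((1 - s ^ 2 : ℝ) : ℂ) * (conj a * ⟪x', t⟫_ℂ + (conj a * a) * ((‖t‖ : ℝ) : ℂ) ^ 2 +
          conj a * ⟪y, v⟫_ℂ) := by ring
      rw [haa] at h2
      simpa [Complex.ofReal_mul, Complex.ofReal_pow] using h2
    rw [h1, Complex.re_ofReal_mul, Complex.add_re, Complex.add_re, Complex.ofReal_re]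
  have hsq : ∀ g h : ℝ, 0 ≤ g ^ 2 * ‖y‖ ^ 2 - 2 * (g * h) * c₂ + h ^ 2 * (s ^ 2 * ‖v‖ ^ 2) := by
    intro g h
    have h1 := @norm_sub_sq ℂ E _ _ _ ((g : ℂ) • y) (((h : ℂ) * conj a) • v)
    rw [inner_smul_left, inner_smul_right, norm_smul, norm_smul, norm_mul, mul_pow, mul_pow,
      mul_pow, RCLike.norm_conj, Complex.conj_ofReal] at h1
    have h2 : RCLike.re ((g : ℂ) * ((h : ℂ) * conj a * ⟪y, v⟫_ℂ)) = g * h * c₂ := by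
      have : (g : ℂ) * ((h : ℂ) * conj a * ⟪y, v⟫_ℂ) =
          ((g * h : ℝ) : ℂ) * (conj a * ⟪y, v⟫_ℂ) := by push_cast; ring
      rw [this]
      exact Complex.re_ofReal_mul _ _
    rw [h2] at h1
    have h3 : 0 ≤ ‖(g : ℂ) • y - ((h : ℂ) * conj a) • v‖ ^ 2 := sq_nonneg _
    rw [h1] at h3
    have h4 : ‖(g : ℂ)‖ ^ 2 = g ^ 2 := by simp
    have h5 : ‖(h : ℂ)‖ ^ 2 = h ^ 2 := by simp
    rw [h4, h5] at h3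
    rw [hsd]
    nlinarith
  have hD : 0 ≤ ‖y‖ ^ 2 - 2 * c₂ + s ^ 2 * ‖v‖ ^ 2 := by
    have := hsq 1 1
    linarith
  have hX : 0 ≤ ‖x'‖ ^ 2 + 2 * c₁ + s ^ 2 * ‖t‖ ^ 2 := by
    rw [← hnx]; positivity
  have hc₁ : |c₁| ≤ s * w * ‖x'‖ ^ 2 := by
    calc |c₁| ≤ ‖conj a * ⟪x', t⟫_ℂ‖ := Complex.abs_re_le_norm _
      _ = s * ‖⟪x', t⟫_ℂ‖ := by rw [norm_mul, RCLike.norm_conj]
      _ ≤ s * (w * ‖x'‖ ^ 2) := mul_le_mul_of_nonneg_left hxt hs0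
      _ = _ := by ring
  have hB2 : B ^ 2 ≤ ‖x'‖ ^ 2 := by gcongr
  have main := core_real (‖x'‖ ^ 2) (‖t‖ ^ 2) (‖v‖ ^ 2) (‖y‖ ^ 2) c₁ c₂ s (B ^ 2) w ζ δ hs0 ha hζ
    hwζ hδ hδζ htv hB2 (sq_nonneg _) (sq_nonneg _) hD hX hc₁ hsq
  rw [hre, hnx]
  have hid : (1 + δ) * ((1 - s ^ 2) * B) ^ 2 = (1 - s ^ 2) * ((1 - s ^ 2) * (‖t‖ ^ 2 + ‖v‖ ^ 2)) := by
    rw [htv]; ring
  rw [hid]
  have hid2 : (1 - s ^ 2) * ((1 + δ) * B ^ 2 - ‖x'‖ ^ 2 - (‖y‖ ^ 2 - 2 * c₂ + s ^ 2 * ‖v‖ ^ 2)) =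
      (1 - s ^ 2) * (‖t‖ ^ 2 + ‖v‖ ^ 2 - ‖x'‖ ^ 2 - (‖y‖ ^ 2 - 2 * c₂ + s ^ 2 * ‖v‖ ^ 2)) := by
    rw [htv]
  rw [hid2] at main
  nlinarith [main]

end Pool.Agent.Helper69.SQ
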