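import Pool.Agent.Helper69.SQ.Pair
import Pool.Agent.Helper69.SQ.CoreIneq

/-!
# SQ-L5: polynomial boundedness of `T = (J τ + J' ν) J†`

`J, J' : K → H` are isometries with orthogonal ranges, `‖τ x‖² + ‖ν x‖² = (1+δ) ‖x‖²`, and `τ` is as
in `exists_pair` (with `w² + ζ² = 1`, `0 < δ ≤ ζ²/2`). Then `T` is polynomially
`√(1 + 2δ/ζ)`-bounded.

Proof. (1) `f(T)` for `f = a + z f₁` with `|f| ≤ 1` on the disc and `|a| < 1`: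
`J† T = τ J†` (since `J† J = 1`, `J† J' = 0`), so `J† F(T) = F(τ) J†` for every polynomial `F`. With
`x = J† v`, `y = J'† v`, `q = f₁(τ) x`:
`f(T) v = a v + T (f₁(T) v) = a v + J (τ q) + J' (ν q)`, hence
`‖f(T) v‖² = |a|² ‖v‖² + (1+δ) ‖q‖² + 2 Re (conj a (⟨x, τ q⟩ + ⟨y, ν q⟩))`.
By `exists_pair`, `x = x' + conj a τ p`, `q = β p`, so `core_ineq` with `t = τ p`, `v = ν p`,
`B = ‖p‖` gives that the last two terms are at most `(β + 2δ/ζ) (‖x‖² + ‖y‖²)`, and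
`‖x‖² + ‖y‖² ≤ ‖v‖²` (Bessel: `0 ≤ ‖v - J x - J' y‖² = ‖v‖² - ‖x‖² - ‖y‖²`). Total:
`‖f(T) v‖² ≤ (1 + 2δ/ζ) ‖v‖²`.
(2) If `|q| ≤ s` on the disc, apply (1) to `q / s'` for every `s' > s` (`s ≥ 0` because of `z = 0`;
`f₁ = divX f`, `f = C a + X * f₁` with `a = f.eval 0 = f.coeff 0`, `|a| ≤ s/s' < 1`) and let
`s' → s`.
-/

set_option autoImplicit false

open scoped ComplexConjugate InnerProductSpace
open Polynomial ContinuousLinearMap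

namespace Pool.Agent.Helper69.SQ

theorem build_core {k n : ℕ}
    (τ A B ν : EuclideanSpace ℂ (Fin k) →L[ℂ] EuclideanSpace ℂ (Fin k)) (w ζ δ : ℝ) (hw : 0 ≤ w)
    (hζ : 0 < ζ) (hwζ : w ^ 2 + ζ ^ 2 = 1) (hδ : 0 < δ) (hδζ : δ ≤ ζ ^ 2 / 2)
    (hτ : ‖τ‖ ≤ 1) (hfac : ∀ v, τ v = (w : ℂ) • A (B v)) (hσ : ‖(w : ℂ) • (B ∘L A)‖ ≤ 1)
    (hAB : ∀ v, ‖adjoint A v‖ ^ 2 + ‖B v‖ ^ 2 ≤ 2 * ‖v‖ ^ 2)
    (hν : ∀ v, ‖τ v‖ ^ 2 + ‖ν v‖ ^ 2 = (1 + δ) * ‖v‖ ^ 2)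
    (J J' : EuclideanSpace ℂ (Fin k) →ₗᵢ[ℂ] EuclideanSpace ℂ (Fin n))
    (hJ : ∀ x y, ⟪J x, J' y⟫_ℂ = 0)
    (T : EuclideanSpace ℂ (Fin n) →L[ℂ] EuclideanSpace ℂ (Fin n))
    (hT : ∀ v, T v = J (τ (adjoint J.toContinuousLinearMap v)) +
      J' (ν (adjoint J.toContinuousLinearMap v))) (f f₁ : ℂ[X]) (a : ℂ)
    (hf : f = C a + X * f₁) (hfb : ∀ z : ℂ, ‖z‖ ≤ 1 → ‖f.eval z‖ ≤ 1) (ha : ‖a‖ < 1)
    (v : EuclideanSpace ℂ (Fin n)) : ‖aeval T f v‖ ^ 2 ≤ (1 + 2 * δ / ζ) * ‖v‖ ^ 2 := by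
  set Ja := adjoint J.toContinuousLinearMap with hJa
  set Jb := adjoint J'.toContinuousLinearMap with hJb
  have hJJ : ∀ x, Ja (J x) = x := by
    intro x
    refine ext_inner_left ℂ fun y => ?_
    rw [hJa, ContinuousLinearMap.adjoint_inner_right]
    exact J.inner_map_map y x
  have hJJ' : ∀ x, Ja (J' x) = 0 := by
    intro x
    refine ext_inner_left ℂ fun y => ?_
    rw [hJa, ContinuousLinearMap.adjoint_inner_right, inner_zero_right]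
    exact hJ y x
  have hin : ∀ v, Ja (T v) = τ (Ja v) := by
    intro v
    rw [hT, map_add, hJJ, hJJ', add_zero]
  have hFT : ∀ (F : ℂ[X]) (v), Ja (aeval T F v) = aeval τ F (Ja v) :=
    fun F v => aeval_intertw T τ Ja hin F v
  set x := Ja v with hx
  set y := Jb v with hy
  set q := aeval τ f₁ x with hq
  have hfv : aeval T f v = a • v + (J (τ q) + J' (ν q)) := by
    have h1 : aeval T f v = a • v + T (aeval T f₁ v) := by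
      rw [hf, map_add, aeval_C, map_mul, aeval_X, Algebra.algebraMap_eq_smul_one]
      rfl
    rw [h1, hT, hFT]
  have hin1 : ⟪v, J (τ q)⟫_ℂ = ⟪x, τ q⟫_ℂ := by
    rw [hx, hJa, ContinuousLinearMap.adjoint_inner_left]
    rfl
  have hin2 : ⟪v, J' (ν q)⟫_ℂ = ⟪y, ν q⟫_ℂ := by
    rw [hy, hJb, ContinuousLinearMap.adjoint_inner_left]
    rfl
  have hn1 : ‖J (τ q) + J' (ν q)‖ ^ 2 = (1 + δ) * ‖q‖ ^ 2 := by
    rw [← hν q, @norm_add_sq ℂ, hJ, J.norm_map, J'.norm_map]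
    simp
  have hn2 : ‖aeval T f v‖ ^ 2 = ‖a‖ ^ 2 * ‖v‖ ^ 2 +
      2 * (conj a * (⟪x, τ q⟫_ℂ + ⟪y, ν q⟫_ℂ)).re + (1 + δ) * ‖q‖ ^ 2 := by
    rw [hfv, @norm_add_sq ℂ, hn1, inner_smul_left, inner_add_right, hin1, hin2, norm_smul, mul_pow]
    rfl
  have hbes : ‖x‖ ^ 2 + ‖y‖ ^ 2 ≤ ‖v‖ ^ 2 := by
    have h0 : 0 ≤ ‖v - (J x + J' y)‖ ^ 2 := sq_nonneg _
    have h1 : ‖J x + J' y‖ ^ 2 = ‖x‖ ^ 2 + ‖y‖ ^ 2 := by
      rw [@norm_add_sq ℂ, hJ, J.norm_map, J'.norm_map]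
      simp
    have h2 : ⟪v, J x + J' y⟫_ℂ = ((‖x‖ ^ 2 + ‖y‖ ^ 2 : ℝ) : ℂ) := by
      have e1 : ⟪v, J x⟫_ℂ = ⟪x, x⟫_ℂ := by
        rw [hx, hJa, ContinuousLinearMap.adjoint_inner_left]
        rfl
      have e2 : ⟪v, J' y⟫_ℂ = ⟪y, y⟫_ℂ := by
        rw [hy, hJb, ContinuousLinearMap.adjoint_inner_left]
        rfl
      rw [inner_add_right, e1, e2, inner_self_eq_norm_sq_to_K, inner_self_eq_norm_sq_to_K]
      push_cast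
      rfl
    rw [@norm_sub_sq ℂ, h1, h2] at h0
    have h3 : RCLike.re ((‖x‖ ^ 2 + ‖y‖ ^ 2 : ℝ) : ℂ) = ‖x‖ ^ 2 + ‖y‖ ^ 2 := Complex.ofReal_re _
    rw [h3] at h0
    linarith
  obtain ⟨x', p, hxp, hqp, hpx, hwp⟩ := exists_pair τ A B w hw hτ hfac hσ hAB f f₁ a hf hfb ha x
  have hb : 0 < 1 - ‖a‖ ^ 2 := by nlinarith [norm_nonneg a]
  have hq2 : q = ((1 - ‖a‖ ^ 2 : ℝ) : ℂ) • p := hqp
  have hcore := core_ineq x' (τ p) (ν p) y a ‖p‖ w ζ δ ha (norm_nonneg _) hw hζ hwζ hδ hδζ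
    (hν p) hpx hwp
  rw [← hxp, ← map_smul, ← map_smul, ← hq2] at hcore
  have hqn : ‖q‖ = (1 - ‖a‖ ^ 2) * ‖p‖ := by
    rw [hq2, norm_smul, Complex.norm_real, Real.norm_of_nonneg hb.le]
  rw [← hqn] at hcore
  rw [hn2]
  have hE : 0 ≤ 2 * δ / ζ := by positivity
  have h5 : (1 - ‖a‖ ^ 2 + 2 * δ / ζ) * (‖x‖ ^ 2 + ‖y‖ ^ 2) ≤
      (1 - ‖a‖ ^ 2 + 2 * δ / ζ) * ‖v‖ ^ 2 :=
    mul_le_mul_of_nonneg_left hbes (by linarith)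
  nlinarith [hcore, h5]

theorem build_PBdd {k n : ℕ}
    (τ A B ν : EuclideanSpace ℂ (Fin k) →L[ℂ] EuclideanSpace ℂ (Fin k)) (w ζ δ : ℝ) (hw : 0 ≤ w)
    (hζ : 0 < ζ) (hwζ : w ^ 2 + ζ ^ 2 = 1) (hδ : 0 < δ) (hδζ : δ ≤ ζ ^ 2 / 2)
    (hτ : ‖τ‖ ≤ 1) (hfac : ∀ v, τ v = (w : ℂ) • A (B v)) (hσ : ‖(w : ℂ) • (B ∘L A)‖ ≤ 1)
    (hAB : ∀ v, ‖adjoint A v‖ ^ 2 + ‖B v‖ ^ 2 ≤ 2 * ‖v‖ ^ 2)
    (hν : ∀ v, ‖τ v‖ ^ 2 + ‖ν v‖ ^ 2 = (1 + δ) * ‖v‖ ^ 2)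
    (J J' : EuclideanSpace ℂ (Fin k) →ₗᵢ[ℂ] EuclideanSpace ℂ (Fin n))
    (hJ : ∀ x y, ⟪J x, J' y⟫_ℂ = 0)
    (T : EuclideanSpace ℂ (Fin n) →L[ℂ] EuclideanSpace ℂ (Fin n))
    (hT : ∀ v, T v = J (τ (adjoint J.toContinuousLinearMap v)) +
      J' (ν (adjoint J.toContinuousLinearMap v))) :
    SIM.PBdd (√(1 + 2 * δ / ζ)) T := by
  have hE : 0 ≤ 2 * δ / ζ := by positivity
  intro q s hq
  have hs0 : 0 ≤ s := (norm_nonneg _).trans (hq 0 (by simp))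
  refine ContinuousLinearMap.opNorm_le_bound _ (mul_nonneg (Real.sqrt_nonneg _) hs0) fun v => ?_
  have hstep : ∀ s' : ℝ, s < s' → ‖aeval T q v‖ ≤ √(1 + 2 * δ / ζ) * s' * ‖v‖ := by
    intro s' hs'
    have hs'0 : 0 < s' := hs0.trans_lt hs'
    have hs'C : (s' : ℂ) ≠ 0 := by exact_mod_cast hs'0.ne'
    set f : ℂ[X] := C ((s' : ℂ)⁻¹) * q with hf
    have hfz : ∀ z : ℂ, ‖z‖ ≤ 1 → ‖f.eval z‖ ≤ s / s' := by
      intro z hz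
      rw [hf, eval_mul, eval_C, norm_mul, norm_inv, Complex.norm_real, Real.norm_of_nonneg hs'0.le,
        inv_mul_eq_div]
      exact div_le_div_of_nonneg_right (hq z hz) hs'0.le
    have hlt : s / s' < 1 := (div_lt_one hs'0).2 hs'
    have ha : ‖f.coeff 0‖ < 1 := by
      rw [coeff_zero_eq_eval_zero]
      exact (hfz 0 (by simp)).trans_lt hlt
    have hdec : f = C (f.coeff 0) + X * f.divX := by
      rw [add_comm]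
      exact (X_mul_divX_add f).symm
    have h1 := build_core τ A B ν w ζ δ hw hζ hwζ hδ hδζ hτ hfac hσ hAB hν J J' hJ T hT f f.divX
      (f.coeff 0) hdec (fun z hz => (hfz z hz).trans hlt.le) ha v
    have h2 : ‖aeval T f v‖ ≤ √(1 + 2 * δ / ζ) * ‖v‖ := by
      refine abs_le_of_sq_le_sq' ?_ (by positivity) |>.2
      rw [mul_pow, Real.sq_sqrt (by linarith)]
      exact h1
    have h3 : aeval T f v = (s' : ℂ)⁻¹ • aeval T q v := by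
      rw [hf, map_mul, aeval_C, ← Algebra.smul_def]
      rfl
    have h4 : aeval T q v = (s' : ℂ) • aeval T f v := by
      rw [h3, smul_smul, mul_inv_cancel₀ hs'C, one_smul]
    rw [h4, norm_smul, Complex.norm_real, Real.norm_of_nonneg hs'0.le]
    calc s' * ‖aeval T f v‖ ≤ s' * (√(1 + 2 * δ / ζ) * ‖v‖) :=
          mul_le_mul_of_nonneg_left h2 hs'0.le
      _ = √(1 + 2 * δ / ζ) * s' * ‖v‖ := by ring
  have hcont : Filter.Tendsto (fun s' : ℝ => √(1 + 2 * δ / ζ) * s' * ‖v‖)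
      (nhdsWithin s (Set.Ioi s)) (nhds (√(1 + 2 * δ / ζ) * s * ‖v‖)) := by
    apply Filter.Tendsto.mono_left _ nhdsWithin_le_nhds
    exact Continuous.tendsto (by fun_prop) s
  exact ge_of_tendsto hcont (Filter.eventually_of_mem self_mem_nhdsWithin hstep)

end Pool.Agent.Helper69.SQ
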