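import Pool.Agent.Helper69.SQ.HSx

/-!
# SQ-U5: the operator `Δ x = ∑ d_k ⟨y_k, x⟩ y_k`

* `delta_hs`: for an isometry `W` (which is surjective, dimension finite) and `t = ∑ |d_k| ‖y_k‖²`:
  `‖Δ x‖ ≤ ∑ |d_k| ‖y_k‖ |⟨y_k, x⟩|`, so by Cauchy-Schwarz
  `‖Δ x‖² ≤ t ∑ |d_k| |⟨y_k, x⟩|²`. Put `x = W e_j` and sum over `j`:
  `∑_j |⟨y_k, W e_j⟩|² ≤ ‖y_k‖²` (the `W e_j` are orthonormal: Bessel).
* `trace_form`: `∑_j ‖U e_j‖² - ∑_j ‖R (U' e_j)‖²`... precisely: if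
  `‖S v‖² = ‖U v‖²` for all `v`, then
  `∑_j (‖S e_j‖² - ‖R (S e_j)‖²) = ∑_j (‖S e_j‖² - ‖S (R† e_j)‖²) = ∑ d_k ‖y_k‖²` when `S` is
  self-adjoint and `‖U v‖² - ‖U (R† v)‖² = ∑ d_k |⟨y_k, v⟩|²`. The first step is `hs_adj` for the
  operator `R S`, whose adjoint is `S R†`; the second is
  `∑_j |⟨y_k, e_j⟩|² = ‖y_k‖²`.
* `delta_op`: two self-adjoint operators with the same quadratic form are equal
  (`inner_map_self_eq_zero`): if `‖S v‖² - ‖S (R† v)‖² = ∑ d_k |⟨y_k, v⟩|²` for all `v` and `S` is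
  self-adjoint, then `S (S v) - R (S (S (R† v))) = ∑ d_k ⟨y_k, v⟩ y_k`.
-/

set_option autoImplicit false

open scoped ComplexConjugate InnerProductSpace
open ContinuousLinearMap

namespace Pool.Agent.Helper69.SQ

variable {E : Type} [NormedAddCommGroup E] [InnerProductSpace ℂ E] [FiniteDimensional ℂ E]

theorem delta_hs {n m : ℕ} (e : OrthonormalBasis (Fin n) ℂ E) (W : E →ₗᵢ[ℂ] E) (d : Fin m → ℝ)
    (y : Fin m → E) :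
    ∑ j, ‖∑ k, ((d k : ℝ) : ℂ) • ⟪y k, W (e j)⟫_ℂ • y k‖ ^ 2 ≤
      (∑ k, |d k| * ‖y k‖ ^ 2) ^ 2 := by
  have hortho : Orthonormal ℂ (fun j => W (e j)) := e.orthonormal.comp_linearIsometry W
  have hbessel : ∀ k, ∑ j, ‖⟪y k, W (e j)⟫_ℂ‖ ^ 2 ≤ ‖y k‖ ^ 2 := by
    intro k
    have h := hortho.sum_inner_products_le (s := Finset.univ) (y k)
    refine le_trans (le_of_eq ?_) h
    exact Finset.sum_congr rfl fun j _ => by rw [norm_inner_symm]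
  have hpt : ∀ x : E, ‖∑ k, ((d k : ℝ) : ℂ) • ⟪y k, x⟫_ℂ • y k‖ ^ 2 ≤
      (∑ k, |d k| * ‖y k‖ ^ 2) * ∑ k, |d k| * ‖⟪y k, x⟫_ℂ‖ ^ 2 := by
    intro x
    have h1 : ‖∑ k, ((d k : ℝ) : ℂ) • ⟪y k, x⟫_ℂ • y k‖ ≤
        ∑ k, (Real.sqrt |d k| * ‖y k‖) * (Real.sqrt |d k| * ‖⟪y k, x⟫_ℂ‖) := by
      refine (norm_sum_le _ _).trans (le_of_eq (Finset.sum_congr rfl fun k _ => ?_))
      rw [norm_smul, norm_smul, Complex.norm_real, Real.norm_eq_abs]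
      have h2 : Real.sqrt |d k| * Real.sqrt |d k| = |d k| := Real.mul_self_sqrt (abs_nonneg _)
      calc |d k| * (‖⟪y k, x⟫_ℂ‖ * ‖y k‖) =
          (Real.sqrt |d k| * Real.sqrt |d k|) * (‖⟪y k, x⟫_ℂ‖ * ‖y k‖) := by rw [h2]
        _ = _ := by ring
    have h3 := Finset.sum_mul_sq_le_sq_mul_sq Finset.univ (fun k => Real.sqrt |d k| * ‖y k‖)
      (fun k => Real.sqrt |d k| * ‖⟪y k, x⟫_ℂ‖)
    have h4 : ‖∑ k, ((d k : ℝ) : ℂ) • ⟪y k, x⟫_ℂ • y k‖ ^ 2 ≤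
        (∑ k, (Real.sqrt |d k| * ‖y k‖) * (Real.sqrt |d k| * ‖⟪y k, x⟫_ℂ‖)) ^ 2 :=
      pow_le_pow_left₀ (norm_nonneg _) h1 2
    refine (h4.trans h3).trans (le_of_eq ?_)
    congr 1
    · exact Finset.sum_congr rfl fun k _ => by rw [mul_pow, Real.sq_sqrt (abs_nonneg _)]
    · exact Finset.sum_congr rfl fun k _ => by rw [mul_pow, Real.sq_sqrt (abs_nonneg _)]
  have ht : 0 ≤ ∑ k, |d k| * ‖y k‖ ^ 2 := Finset.sum_nonneg fun k _ => by positivity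
  calc ∑ j, ‖∑ k, ((d k : ℝ) : ℂ) • ⟪y k, W (e j)⟫_ℂ • y k‖ ^ 2 ≤
      ∑ j, (∑ k, |d k| * ‖y k‖ ^ 2) * ∑ k, |d k| * ‖⟪y k, W (e j)⟫_ℂ‖ ^ 2 :=
        Finset.sum_le_sum fun j _ => hpt _
    _ = (∑ k, |d k| * ‖y k‖ ^ 2) * ∑ k, |d k| * ∑ j, ‖⟪y k, W (e j)⟫_ℂ‖ ^ 2 := by
        rw [← Finset.mul_sum, Finset.sum_comm]
        congr 1
        exact Finset.sum_congr rfl fun k _ => by rw [Finset.mul_sum]
    _ ≤ (∑ k, |d k| * ‖y k‖ ^ 2) * ∑ k, |d k| * ‖y k‖ ^ 2 := by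
        refine mul_le_mul_of_nonneg_left (Finset.sum_le_sum fun k _ => ?_) ht
        exact mul_le_mul_of_nonneg_left (hbessel k) (abs_nonneg _)
    _ = (∑ k, |d k| * ‖y k‖ ^ 2) ^ 2 := by ring

theorem trace_form {n m : ℕ} (e : OrthonormalBasis (Fin n) ℂ E) (R S : E →L[ℂ] E)
    (hS : IsSelfAdjoint S) (d : Fin m → ℝ) (y : Fin m → E)
    (h : ∀ v, ‖S v‖ ^ 2 - ‖S (adjoint R v)‖ ^ 2 = ∑ k, d k * ‖⟪y k, v⟫_ℂ‖ ^ 2) :
    ∑ j, (‖S (e j)‖ ^ 2 - ‖R (S (e j))‖ ^ 2) = ∑ k, d k * ‖y k‖ ^ 2 := by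
  have h1 : ∑ j, ‖R (S (e j))‖ ^ 2 = ∑ j, ‖S (adjoint R (e j))‖ ^ 2 := by
    have h2 := hs_adj e e (R ∘L S)
    have h3 : ∀ v, adjoint (R ∘L S) v = S (adjoint R v) := by
      intro v
      rw [ContinuousLinearMap.adjoint_comp, hS.adjoint_eq]
      rfl
    simp only [h3] at h2
    exact h2
  rw [Finset.sum_sub_distrib, h1, ← Finset.sum_sub_distrib]
  simp only [h]
  rw [Finset.sum_comm]
  refine Finset.sum_congr rfl fun k _ => ?_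
  rw [← Finset.mul_sum, e.sum_sq_norm_inner_left]

theorem delta_op {m : ℕ} (R S : E →L[ℂ] E) (hS : IsSelfAdjoint S) (d : Fin m → ℝ)
    (y : Fin m → E)
    (h : ∀ v, ‖S v‖ ^ 2 - ‖S (adjoint R v)‖ ^ 2 = ∑ k, d k * ‖⟪y k, v⟫_ℂ‖ ^ 2) (v : E) :
    S (S v) - R (S (S (adjoint R v))) = ∑ k, ((d k : ℝ) : ℂ) • ⟪y k, v⟫_ℂ • y k := by
  have hsa : ∀ a b : E, ⟪S a, b⟫_ℂ = ⟪a, S b⟫_ℂ := by
    intro a b
    conv_rhs => rw [← hS.adjoint_eq]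
    rw [ContinuousLinearMap.adjoint_inner_right]
  set L : E →ₗ[ℂ] E := ((S ∘L S - R ∘L S ∘L S ∘L adjoint R -
    ∑ k, ((d k : ℝ) : ℂ) • (innerSL ℂ (y k)).smulRight (y k) : E →L[ℂ] E) : E →ₗ[ℂ] E) with hL
  have hLv : ∀ v, L v = S (S v) - R (S (S (adjoint R v))) -
      ∑ k, ((d k : ℝ) : ℂ) • ⟪y k, v⟫_ℂ • y k := by
    intro v
    rw [hL]
    simp
  have hz : L = 0 := by
    rw [← inner_map_self_eq_zero]
    intro v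
    have e1 : ⟪S (S v), v⟫_ℂ = ((‖S v‖ : ℝ) : ℂ) ^ 2 := by
      rw [hsa, inner_self_eq_norm_sq_to_K]
      rfl
    have e2 : ⟪R (S (S (adjoint R v))), v⟫_ℂ = ((‖S (adjoint R v)‖ : ℝ) : ℂ) ^ 2 := by
      rw [← ContinuousLinearMap.adjoint_inner_right, hsa, inner_self_eq_norm_sq_to_K]
      rfl
    rw [hLv, inner_sub_left, inner_sub_left, e1, e2, sum_inner]
    have h1 : ∑ k, ⟪((d k : ℝ) : ℂ) • ⟪y k, v⟫_ℂ • y k, v⟫_ℂ =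
        ((∑ k, d k * ‖⟪y k, v⟫_ℂ‖ ^ 2 : ℝ) : ℂ) := by
      push_cast
      refine Finset.sum_congr rfl fun k _ => ?_
      rw [inner_smul_left, inner_smul_left, Complex.conj_ofReal, Complex.conj_mul']
    rw [h1, ← h v]
    simp
  have := hLv v
  rw [hz, LinearMap.zero_apply] at this
  exact (sub_eq_zero.1 this.symm)

end Pool.Agent.Helper69.SQ
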