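import Pool.Agent.Helper69.SIM.Vn

/-!
# SQ-L1: polynomials on the disc

`disc_of_circle`: maximum modulus principle (`Complex.norm_le_of_forall_mem_frontier_norm_le` on
the unit ball, for the differentiable function `fun z => p.eval z`).

`approx_inv`: a polynomial `Q` without zeros in the closed unit disc has approximate polynomial
inverses. Proof: the property `A(Q)` (for every `ε > 0` there is `G` with `|G Q - 1| ≤ ε` on the
closed disc) holds for nonzero constants, holds for `X - ρ` with `|ρ| > 1`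
(take `G = -ρ⁻¹ ∑_(k<N) (X/ρ)^k`; then `G (X - ρ) = 1 - (X/ρ)^N`), and is stable under products:
`G₁G₂Q₁Q₂ - 1 = (G₁Q₁ - 1)(G₂Q₂) + (G₂Q₂ - 1)`, of modulus `≤ ε₁ (1 + ε₂) + ε₂`. Every complex
polynomial is its leading coefficient times the product of `X - ρ` over its roots
(`IsAlgClosed.splits`), and all roots have `|ρ| > 1`. (Or: power series of `1 / Q` on a larger
disc.)
-/

set_option autoImplicit false

open scoped ComplexConjugate InnerProductSpace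
open Polynomial

namespace Pool.Agent.Helper69.SQ

theorem disc_of_circle (p : ℂ[X]) (s : ℝ) (h : ∀ z : ℂ, ‖z‖ = 1 → ‖p.eval z‖ ≤ s) (z : ℂ)
    (hz : ‖z‖ ≤ 1) : ‖p.eval z‖ ≤ s := by
  have hd : DiffContOnCl ℂ (fun w : ℂ => p.eval w) (Metric.ball (0 : ℂ) 1) :=
    (Polynomial.differentiable p).diffContOnCl
  refine Complex.norm_le_of_forall_mem_frontier_norm_le (Metric.isBounded_ball) hd ?_ ?_
  · intro w hw
    rw [frontier_ball (0 : ℂ) one_ne_zero] at hw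
    exact h w (by simpa using hw)
  · rw [closure_ball (0 : ℂ) one_ne_zero]
    simpa using hz

/-- approximate polynomial inverses exist -/
private def AI (Q : ℂ[X]) : Prop :=
  ∀ ε : ℝ, 0 < ε → ∃ G : ℂ[X], ∀ z : ℂ, ‖z‖ ≤ 1 → ‖(G * Q).eval z - 1‖ ≤ ε

private theorem AI_const {c : ℂ} (hc : c ≠ 0) : AI (C c) := by
  intro ε hε
  refine ⟨C c⁻¹, fun z _ => ?_⟩
  rw [← C_mul, inv_mul_cancel₀ hc]
  simpa using hε.le

private theorem AI_lin {ρ : ℂ} (hρ : 1 < ‖ρ‖) : AI (X - C ρ) := by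
  intro ε hε
  have h0 : ρ ≠ 0 := by
    rintro rfl
    simp at hρ
    linarith
  have h1 : ‖ρ‖⁻¹ < 1 := inv_lt_one_of_one_lt₀ hρ
  have h1' : 0 ≤ ‖ρ‖⁻¹ := inv_nonneg.2 (norm_nonneg _)
  obtain ⟨N, hN⟩ := exists_pow_lt_of_lt_one hε h1
  refine ⟨-C ρ⁻¹ * ∑ k ∈ Finset.range N, (C ρ⁻¹ * X) ^ k, fun z hz => ?_⟩
  have key : (-C ρ⁻¹ * ∑ k ∈ Finset.range N, (C ρ⁻¹ * X) ^ k) * (X - C ρ)
      = 1 - (C ρ⁻¹ * X) ^ N := by
    have e1 : (-C ρ⁻¹ : ℂ[X]) * (X - C ρ) = 1 - C ρ⁻¹ * X := by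
      have : (C ρ⁻¹ : ℂ[X]) * C ρ = 1 := by rw [← C_mul, inv_mul_cancel₀ h0, C_1]
      linear_combination this
    have e2 := mul_neg_geom_sum (C ρ⁻¹ * X : ℂ[X]) N
    calc (-C ρ⁻¹ * ∑ k ∈ Finset.range N, (C ρ⁻¹ * X) ^ k) * (X - C ρ)
        = ((-C ρ⁻¹ : ℂ[X]) * (X - C ρ)) * ∑ k ∈ Finset.range N, (C ρ⁻¹ * X) ^ k := by ring
      _ = _ := by rw [e1, e2]
  rw [key]
  have : (1 - (C ρ⁻¹ * X : ℂ[X]) ^ N).eval z - 1 = -(ρ⁻¹ * z) ^ N := by
    simp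
  rw [this, norm_neg, norm_pow, norm_mul, norm_inv]
  refine le_trans ?_ hN.le
  refine pow_le_pow_left₀ (by positivity) ?_ N
  calc ‖ρ‖⁻¹ * ‖z‖ ≤ ‖ρ‖⁻¹ * 1 := mul_le_mul_of_nonneg_left hz h1'
    _ = ‖ρ‖⁻¹ := mul_one _

private theorem AI_mul {P Q : ℂ[X]} (hP : AI P) (hQ : AI Q) : AI (P * Q) := by
  intro ε hε
  obtain ⟨G, hG⟩ := hP (ε / 3) (by positivity)
  obtain ⟨H, hH⟩ := hQ (min (ε / 3) 1) (by positivity)
  refine ⟨G * H, fun z hz => ?_⟩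
  have g := hG z hz
  have h := hH z hz
  have ha : ‖(H * Q).eval z - 1‖ ≤ ε / 3 := h.trans (min_le_left _ _)
  have hb : ‖(H * Q).eval z‖ ≤ 2 := by
    have h2 : ‖(H * Q).eval z - 1‖ ≤ 1 := h.trans (min_le_right _ _)
    calc ‖(H * Q).eval z‖ = ‖((H * Q).eval z - 1) + 1‖ := by ring_nf
      _ ≤ ‖(H * Q).eval z - 1‖ + ‖(1 : ℂ)‖ := norm_add_le _ _
      _ ≤ 2 := by rw [norm_one]; linarith
  have e : (G * H * (P * Q)).eval z - 1
      = ((G * P).eval z - 1) * (H * Q).eval z + ((H * Q).eval z - 1) := by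
    simp only [eval_mul]
    ring
  rw [e]
  calc ‖((G * P).eval z - 1) * (H * Q).eval z + ((H * Q).eval z - 1)‖
      ≤ ‖((G * P).eval z - 1) * (H * Q).eval z‖ + ‖(H * Q).eval z - 1‖ := norm_add_le _ _
    _ = ‖(G * P).eval z - 1‖ * ‖(H * Q).eval z‖ + ‖(H * Q).eval z - 1‖ := by rw [norm_mul]
    _ ≤ (ε / 3) * 2 + ε / 3 := by
        gcongr
    _ = ε := by ring

private theorem AI_prod (s : Multiset ℂ) (h : ∀ ρ ∈ s, 1 < ‖ρ‖) :
    AI ((s.map fun a => X - C a).prod) := by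
  induction s using Multiset.induction_on with
  | empty =>
    have := AI_const (c := 1) one_ne_zero
    simpa using this
  | cons a s ih =>
    rw [Multiset.map_cons, Multiset.prod_cons]
    exact AI_mul (AI_lin (h a (Multiset.mem_cons_self _ _)))
      (ih fun ρ hρ => h ρ (Multiset.mem_cons_of_mem hρ))

theorem approx_inv (Q : ℂ[X]) (hQ : ∀ z : ℂ, ‖z‖ ≤ 1 → Q.eval z ≠ 0) (ε : ℝ) (hε : 0 < ε) :
    ∃ G : ℂ[X], ∀ z : ℂ, ‖z‖ ≤ 1 → ‖(G * Q).eval z - 1‖ ≤ ε := by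
  have hQ0 : Q ≠ 0 := by
    rintro rfl
    exact hQ 0 (by simp) (by simp)
  have hfac : Q = C Q.leadingCoeff * (Q.roots.map fun a => X - C a).prod :=
    (IsAlgClosed.splits Q).eq_prod_roots
  have hroots : ∀ ρ ∈ Q.roots, 1 < ‖ρ‖ := by
    intro ρ hρ
    by_contra hcon
    exact hQ ρ (not_lt.1 hcon) ((mem_roots hQ0).1 hρ)
  have : AI Q := by
    rw [hfac]
    exact AI_mul (AI_const (leadingCoeff_ne_zero.2 hQ0)) (AI_prod _ hroots)
  exact this ε hε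

end Pool.Agent.Helper69.SQ
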