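import Mathlib

/-!
# SQ-U2: integration of the pointwise inequality

Everything is a finite sum of `u^m e^(-c u)`, and `∫_0^∞ u^m e^(-c u) du = m! / c^(m+1)` for `c > 0`
(for instance `Real.integral_rpow_mul_exp_neg_mul_Ioi`; integrability:
`integrableOn_rpow_mul_exp_neg_mul_rpow` or `Real.GammaIntegral_convergent`; one can also use
explicit antiderivatives and `integral_Ioi_of_hasDerivAt_of_tendsto`). For `a, b ≥ 0` (all these
functions vanish identically when `a = 0`):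

* `∫ bf a u ^ 2 du = 4 a⁴ ∫ u² e^(-2au) du = 4 a⁴ * 2 / (2a)³ = a`,
* `∫ u * bf a u ^ 2 du = 4 a⁴ * 6 / (2a)⁴ = 3/2` (or `0` if `a = 0`), so `≤ 3/2`,
* `∫ ph a u ^ 2 / u du = 4 a³ ∫ u e^(-2au) du = 4 a³ / (2a)² = a`,
* `∫ (bf a u - bf b u)² / u du = a² + b² - 8 a² b² / (a+b)²` (or `0` if `a = b = 0`), which is
  `≤ (3/2) (a - b)²`, as `(a² + b²) (a+b)² - 8 a² b² = (a-b)² (a² + 4 a b + b²)` and
  `a² + 4ab + b² ≤ (3/2) (a+b)²`.

Integrate the hypothesis `h` over `(0, ∞)` (`setIntegral_mono_on`): with `2/(θ u) * ph² c` etc.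
-/

set_option autoImplicit false

namespace Pool.Agent.Helper69.SQ

/-- the function `2 s² u e^(-su)` -/
noncomputable def bf (s u : ℝ) : ℝ := 2 * s ^ 2 * u * Real.exp (-(s * u))

/-- the function `2 s^(3/2) u e^(-su)` -/
noncomputable def ph (s u : ℝ) : ℝ := 2 * (s * √s) * u * Real.exp (-(s * u))

theorem bf_eq {s : ℝ} (hs : 0 ≤ s) (u : ℝ) : bf s u = ph s u * √s := by
  unfold bf ph
  have h := Real.mul_self_sqrt hs
  calc 2 * s ^ 2 * u * Real.exp (-(s * u))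
      = 2 * (s * (√s * √s)) * u * Real.exp (-(s * u)) := by rw [h]; ring
    _ = _ := by ring

open MeasureTheory Set

private theorem gint_integrable (m : ℕ) {c : ℝ} (hc : 0 < c) :
    IntegrableOn (fun u : ℝ => u ^ m * Real.exp (-(c * u))) (Ioi 0) := by
  have h := integrableOn_rpow_mul_exp_neg_mul_rpow (p := 1) (s := (m : ℝ)) (b := c)
    (by have : (0 : ℝ) ≤ m := Nat.cast_nonneg m
        linarith) one_pos hc
  refine h.congr_fun (fun u _ => ?_) measurableSet_Ioi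
  simp only [Real.rpow_natCast, Real.rpow_one, neg_mul]

private theorem gint_integral (m : ℕ) {c : ℝ} (hc : 0 < c) :
    ∫ u in Ioi (0 : ℝ), u ^ m * Real.exp (-(c * u)) = (m.factorial : ℝ) / c ^ (m + 1) := by
  have h := Real.integral_rpow_mul_exp_neg_mul_Ioi (a := (m : ℝ) + 1) (r := c)
    (by have : (0 : ℝ) ≤ m := Nat.cast_nonneg m
        linarith) hc
  rw [Real.Gamma_nat_eq_factorial] at h
  have e1 : (1 / c) ^ ((m : ℝ) + 1) = 1 / c ^ (m + 1) := by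
    have : (m : ℝ) + 1 = ((m + 1 : ℕ) : ℝ) := by push_cast; ring
    rw [this, Real.rpow_natCast, one_div_pow]
  rw [e1] at h
  rw [div_eq_mul_one_div, mul_comm, ← h]
  refine setIntegral_congr_fun measurableSet_Ioi fun u _ => ?_
  simp only [add_sub_cancel_right, Real.rpow_natCast]

private theorem exp_sq (x : ℝ) : Real.exp (-x) ^ 2 = Real.exp (-(2 * x)) := by
  rw [← Real.exp_nat_mul]
  congr 1
  push_cast
  ring

private theorem bf_zero (u : ℝ) : bf 0 u = 0 := by simp [bf]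

private theorem ph_zero (u : ℝ) : ph 0 u = 0 := by simp [ph]

private theorem bf_sq (a u : ℝ) : bf a u ^ 2 = 4 * a ^ 4 * (u ^ 2 * Real.exp (-(2 * a * u))) := by
  unfold bf
  have h : -(2 * a * u) = -(2 * (a * u)) := by ring
  rw [h, ← exp_sq]
  ring

private theorem ph_sq {a : ℝ} (ha : 0 ≤ a) (u : ℝ) :
    ph a u ^ 2 = 4 * a ^ 3 * (u ^ 2 * Real.exp (-(2 * a * u))) := by
  unfold ph
  have h : -(2 * a * u) = -(2 * (a * u)) := by ring
  rw [h, ← exp_sq]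
  have h2 := Real.mul_self_sqrt ha
  calc (2 * (a * √a) * u * Real.exp (-(a * u))) ^ 2
      = 4 * a ^ 2 * (√a * √a) * (u ^ 2 * Real.exp (-(a * u)) ^ 2) := by ring
    _ = _ := by rw [h2]; ring

private theorem intA {a : ℝ} (ha : 0 ≤ a) : IntegrableOn (fun u : ℝ => bf a u ^ 2) (Ioi 0) ∧
    ∫ u in Ioi (0 : ℝ), bf a u ^ 2 = a := by
  rcases ha.eq_or_lt with h | h
  · subst h
    simp [bf_zero]
  · have e : (fun u : ℝ => bf a u ^ 2) = fun u => 4 * a ^ 4 * (u ^ 2 * Real.exp (-(2 * a * u))) :=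
      funext (bf_sq a)
    have h2 : 0 < 2 * a := by linarith
    rw [e]
    refine ⟨(gint_integrable 2 h2).const_mul _, ?_⟩
    rw [integral_const_mul, gint_integral 2 h2]
    have h3 : ((2 : ℕ).factorial : ℝ) = 2 := by norm_num [Nat.factorial]
    rw [h3]
    field_simp
    ring

private theorem intB {a : ℝ} (ha : 0 ≤ a) : IntegrableOn (fun u : ℝ => u * bf a u ^ 2) (Ioi 0) ∧
    ∫ u in Ioi (0 : ℝ), u * bf a u ^ 2 ≤ 3 / 2 := by
  rcases ha.eq_or_lt with h | h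
  · subst h
    simp [bf_zero]
    norm_num
  · have e : (fun u : ℝ => u * bf a u ^ 2) =
        fun u => 4 * a ^ 4 * (u ^ 3 * Real.exp (-(2 * a * u))) := by
      funext u
      rw [bf_sq a]; ring
    have h2 : 0 < 2 * a := by linarith
    rw [e]
    refine ⟨(gint_integrable 3 h2).const_mul _, ?_⟩
    rw [integral_const_mul, gint_integral 3 h2]
    have h3 : ((3 : ℕ).factorial : ℝ) = 6 := by norm_num [Nat.factorial]
    rw [h3]
    apply le_of_eq
    field_simp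
    ring

private theorem intC {a : ℝ} (ha : 0 ≤ a) : IntegrableOn (fun u : ℝ => ph a u ^ 2 / u) (Ioi 0) ∧
    ∫ u in Ioi (0 : ℝ), ph a u ^ 2 / u = a := by
  rcases ha.eq_or_lt with h | h
  · subst h
    simp [ph_zero]
  · have e : ∀ u ∈ Ioi (0 : ℝ), ph a u ^ 2 / u =
        4 * a ^ 3 * (u ^ 1 * Real.exp (-(2 * a * u))) := by
      intro u hu
      have hu' : u ≠ 0 := (mem_Ioi.mp hu).ne'
      rw [ph_sq h.le]
      field_simp
    have h2 : 0 < 2 * a := by linarith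
    have h5 : IntegrableOn (fun u : ℝ => 4 * a ^ 3 * (u ^ 1 * Real.exp (-(2 * a * u)))) (Ioi 0) :=
      (gint_integrable 1 h2).const_mul (4 * a ^ 3)
    refine ⟨h5.congr_fun (fun u hu => (e u hu).symm) measurableSet_Ioi, ?_⟩
    rw [setIntegral_congr_fun measurableSet_Ioi e, integral_const_mul, gint_integral 1 h2]
    have h3 : ((1 : ℕ).factorial : ℝ) = 1 := by norm_num [Nat.factorial]
    rw [h3]
    field_simp
    ring

private theorem intE {a : ℝ} (ha : 0 ≤ a) : IntegrableOn (fun u : ℝ => bf a u ^ 2 / u) (Ioi 0) ∧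
    ∫ u in Ioi (0 : ℝ), bf a u ^ 2 / u = a ^ 2 := by
  rcases ha.eq_or_lt with h | h
  · subst h
    simp [bf_zero]
  · have e : ∀ u ∈ Ioi (0 : ℝ), bf a u ^ 2 / u =
        4 * a ^ 4 * (u ^ 1 * Real.exp (-(2 * a * u))) := by
      intro u hu
      have hu' : u ≠ 0 := (mem_Ioi.mp hu).ne'
      rw [bf_sq]
      field_simp
    have h2 : 0 < 2 * a := by linarith
    have h5 : IntegrableOn (fun u : ℝ => 4 * a ^ 4 * (u ^ 1 * Real.exp (-(2 * a * u)))) (Ioi 0) :=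
      (gint_integrable 1 h2).const_mul (4 * a ^ 4)
    refine ⟨h5.congr_fun (fun u hu => (e u hu).symm) measurableSet_Ioi, ?_⟩
    rw [setIntegral_congr_fun measurableSet_Ioi e, integral_const_mul, gint_integral 1 h2]
    have h3 : ((1 : ℕ).factorial : ℝ) = 1 := by norm_num [Nat.factorial]
    rw [h3]
    field_simp
    ring

private theorem intD {a b : ℝ} (ha : 0 ≤ a) (hb : 0 ≤ b) :
    IntegrableOn (fun u : ℝ => (bf a u - bf b u) ^ 2 / u) (Ioi 0) ∧
    ∫ u in Ioi (0 : ℝ), (bf a u - bf b u) ^ 2 / u ≤ 3 / 2 * (a - b) ^ 2 := by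
  rcases ha.eq_or_lt with h | h
  · subst h
    have e : (fun u : ℝ => (bf 0 u - bf b u) ^ 2 / u) = fun u => bf b u ^ 2 / u := by
      funext u
      rw [bf_zero]; ring
    rw [e]
    refine ⟨(intE hb).1, ?_⟩
    rw [(intE hb).2]
    nlinarith [sq_nonneg b]
  rcases hb.eq_or_lt with h' | h'
  · subst h'
    have e : (fun u : ℝ => (bf a u - bf 0 u) ^ 2 / u) = fun u => bf a u ^ 2 / u := by
      funext u
      rw [bf_zero]; ring
    rw [e]
    refine ⟨(intE ha).1, ?_⟩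
    rw [(intE ha).2]
    nlinarith [sq_nonneg a]
  have h2 : 0 < a + b := by linarith
  have e : ∀ u ∈ Ioi (0 : ℝ), (bf a u - bf b u) ^ 2 / u =
      bf a u ^ 2 / u + bf b u ^ 2 / u - 8 * a ^ 2 * b ^ 2 * (u ^ 1 * Real.exp (-((a + b) * u))) := by
    intro u hu
    have hu' : u ≠ 0 := (mem_Ioi.mp hu).ne'
    have h3 : bf a u * bf b u = 4 * a ^ 2 * b ^ 2 * (u * (u ^ 1 * Real.exp (-((a + b) * u)))) := by
      unfold bf
      have h4 : -((a + b) * u) = -(a * u) + -(b * u) := by ring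
      rw [h4, Real.exp_add]
      ring
    have h5 : (bf a u - bf b u) ^ 2 = bf a u ^ 2 + bf b u ^ 2 - 2 * (bf a u * bf b u) := by ring
    rw [h5, h3]
    field_simp
    ring
  have i1 := (intE ha).1
  have i2 := (intE hb).1
  have i3 : IntegrableOn (fun u : ℝ => 8 * a ^ 2 * b ^ 2 *
      (u ^ 1 * Real.exp (-((a + b) * u)))) (Ioi 0) :=
    (gint_integrable 1 h2).const_mul (8 * a ^ 2 * b ^ 2)
  have i12 : IntegrableOn (fun u : ℝ => bf a u ^ 2 / u + bf b u ^ 2 / u) (Ioi 0) := i1.add i2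
  have i123 : IntegrableOn (fun u : ℝ => bf a u ^ 2 / u + bf b u ^ 2 / u -
      8 * a ^ 2 * b ^ 2 * (u ^ 1 * Real.exp (-((a + b) * u)))) (Ioi 0) := i12.sub i3
  refine ⟨i123.congr_fun (fun u hu => (e u hu).symm) measurableSet_Ioi, ?_⟩
  rw [setIntegral_congr_fun measurableSet_Ioi e]
  have i4 : ∫ u in Ioi (0 : ℝ), (bf a u ^ 2 / u + bf b u ^ 2 / u -
      8 * a ^ 2 * b ^ 2 * (u ^ 1 * Real.exp (-((a + b) * u)))) =
      a ^ 2 + b ^ 2 - 8 * a ^ 2 * b ^ 2 * (1 / (a + b) ^ 2) := by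
    rw [integral_sub i12 i3, integral_add i1 i2, (intE ha).2, (intE hb).2,
      integral_const_mul, gint_integral 1 h2]
    norm_num [Nat.factorial]
  rw [i4]
  have h6 : 8 * a ^ 2 * b ^ 2 * (1 / (a + b) ^ 2) * (a + b) ^ 2 = 8 * a ^ 2 * b ^ 2 := by
    field_simp
  have h7 : 0 < (a + b) ^ 2 := by positivity
  rw [← mul_le_mul_iff_left₀ h7]
  have h8 : (a ^ 2 + b ^ 2 - 8 * a ^ 2 * b ^ 2 * (1 / (a + b) ^ 2)) * (a + b) ^ 2 =
      (a ^ 2 + b ^ 2) * (a + b) ^ 2 - 8 * a ^ 2 * b ^ 2 := by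
    rw [sub_mul, h6]
  rw [h8]
  nlinarith [sq_nonneg ((a - b) ^ 2)]

theorem integrate {n : ℕ} (l α c : Fin n → ℝ) (M : Fin n → Fin n → ℝ) (hl : ∀ j, 0 ≤ l j)
    (hc : ∀ j, 0 ≤ c j) (hM : ∀ i j, 0 ≤ M i j) (γ θ : ℝ) (hγ : 0 ≤ γ) (hθ : 0 < θ)
    (h : ∀ u : ℝ, 0 < u → ∑ j, bf (l j) u ^ 2 * α j ≤
      γ / 2 * (θ * u * ∑ j, bf (l j) u ^ 2 + 2 / (θ * u) * (∑ j, ph (l j) u ^ 2 * c j +
        ∑ j, ∑ i, M j i * (bf (l j) u - bf (l i) u) ^ 2))) :
    ∑ j, l j * α j ≤ γ / 2 * (θ * (3 / 2 * n) +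
      2 / θ * (∑ j, l j * c j + 3 / 2 * ∑ j, ∑ i, M j i * (l j - l i) ^ 2)) := by
  -- the integrated right side
  let R : ℝ → ℝ := fun u => γ / 2 * (θ * ∑ j, u * bf (l j) u ^ 2 + 2 / θ *
    (∑ j, ph (l j) u ^ 2 / u * c j + ∑ j, ∑ i, M j i * ((bf (l j) u - bf (l i) u) ^ 2 / u)))
  have hR : ∀ u ∈ Ioi (0 : ℝ), ∑ j, bf (l j) u ^ 2 * α j ≤ R u := by
    intro u hu
    have hu' : 0 < u := hu
    refine (h u hu').trans (le_of_eq ?_)
    change _ = γ / 2 * (θ * ∑ j, u * bf (l j) u ^ 2 + 2 / θ *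
      (∑ j, ph (l j) u ^ 2 / u * c j + ∑ j, ∑ i, M j i * ((bf (l j) u - bf (l i) u) ^ 2 / u)))
    have e1 : ∑ j, u * bf (l j) u ^ 2 = u * ∑ j, bf (l j) u ^ 2 := by rw [Finset.mul_sum]
    have e2 : ∑ j, ph (l j) u ^ 2 / u * c j = (∑ j, ph (l j) u ^ 2 * c j) / u := by
      rw [Finset.sum_div]
      exact Finset.sum_congr rfl fun j _ => by ring
    have e3 : ∑ j, ∑ i, M j i * ((bf (l j) u - bf (l i) u) ^ 2 / u) =
        (∑ j, ∑ i, M j i * (bf (l j) u - bf (l i) u) ^ 2) / u := by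
      rw [Finset.sum_div]
      refine Finset.sum_congr rfl fun j _ => ?_
      rw [Finset.sum_div]
      exact Finset.sum_congr rfl fun i _ => by ring
    rw [e1, e2, e3]
    have hu0 : u ≠ 0 := hu'.ne'
    have hθ0 : θ ≠ 0 := hθ.ne'
    field_simp
  have j1 : ∀ j, IntegrableOn (fun u : ℝ => bf (l j) u ^ 2 * α j) (Ioi 0) := fun j =>
    (intA (hl j)).1.mul_const _
  have j2 : ∀ j, IntegrableOn (fun u : ℝ => u * bf (l j) u ^ 2) (Ioi 0) := fun j =>
    (intB (hl j)).1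
  have j3 : ∀ j, IntegrableOn (fun u : ℝ => ph (l j) u ^ 2 / u * c j) (Ioi 0) := fun j =>
    (intC (hl j)).1.mul_const _
  have j4 : ∀ j i, IntegrableOn (fun u : ℝ => M j i * ((bf (l j) u - bf (l i) u) ^ 2 / u))
      (Ioi 0) := fun j i => (intD (hl j) (hl i)).1.const_mul _
  have k1 : IntegrableOn (fun u : ℝ => ∑ j, bf (l j) u ^ 2 * α j) (Ioi 0) :=
    integrable_finsetSum _ fun j _ => j1 j
  have k2 : IntegrableOn (fun u : ℝ => ∑ j, u * bf (l j) u ^ 2) (Ioi 0) :=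
    integrable_finsetSum _ fun j _ => j2 j
  have k3 : IntegrableOn (fun u : ℝ => ∑ j, ph (l j) u ^ 2 / u * c j) (Ioi 0) :=
    integrable_finsetSum _ fun j _ => j3 j
  have k4' : ∀ j, IntegrableOn (fun u : ℝ => ∑ i, M j i * ((bf (l j) u - bf (l i) u) ^ 2 / u))
      (Ioi 0) := fun j => integrable_finsetSum _ fun i _ => j4 j i
  have k4 : IntegrableOn (fun u : ℝ => ∑ j, ∑ i, M j i * ((bf (l j) u - bf (l i) u) ^ 2 / u))
      (Ioi 0) := integrable_finsetSum _ fun j _ => k4' j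
  have k34 : IntegrableOn (fun u : ℝ => ∑ j, ph (l j) u ^ 2 / u * c j +
      ∑ j, ∑ i, M j i * ((bf (l j) u - bf (l i) u) ^ 2 / u)) (Ioi 0) := k3.add k4
  have k5 : IntegrableOn (fun u : ℝ => θ * ∑ j, u * bf (l j) u ^ 2) (Ioi 0) := k2.const_mul θ
  have k6 : IntegrableOn (fun u : ℝ => 2 / θ * (∑ j, ph (l j) u ^ 2 / u * c j +
      ∑ j, ∑ i, M j i * ((bf (l j) u - bf (l i) u) ^ 2 / u))) (Ioi 0) := k34.const_mul (2 / θ)
  have kR : IntegrableOn R (Ioi 0) := (k5.add k6).const_mul (γ / 2)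
  have hint := setIntegral_mono_on k1 kR measurableSet_Ioi hR
  have hL : ∫ u in Ioi (0 : ℝ), ∑ j, bf (l j) u ^ 2 * α j = ∑ j, l j * α j := by
    rw [integral_finsetSum _ fun j _ => j1 j]
    refine Finset.sum_congr rfl fun j _ => ?_
    rw [integral_mul_const, (intA (hl j)).2]
  have hRi : ∫ u in Ioi (0 : ℝ), R u = γ / 2 * (θ * ∑ j, (∫ u in Ioi (0 : ℝ), u * bf (l j) u ^ 2) +
      2 / θ * (∑ j, l j * c j +
        ∑ j, ∑ i, M j i * ∫ u in Ioi (0 : ℝ), (bf (l j) u - bf (l i) u) ^ 2 / u)) := by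
    change ∫ u in Ioi (0 : ℝ), γ / 2 * (θ * ∑ j, u * bf (l j) u ^ 2 + 2 / θ *
      (∑ j, ph (l j) u ^ 2 / u * c j +
        ∑ j, ∑ i, M j i * ((bf (l j) u - bf (l i) u) ^ 2 / u))) = _
    rw [integral_const_mul, integral_add k5 k6,
      integral_const_mul, integral_const_mul, integral_add k3 k4,
      integral_finsetSum _ fun j _ => j2 j, integral_finsetSum _ fun j _ => j3 j,
      integral_finsetSum _ fun j _ => k4' j]
    congr 3
    · congr 1
      · refine Finset.sum_congr rfl fun j _ => ?_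
        rw [integral_mul_const, (intC (hl j)).2]
      · refine Finset.sum_congr rfl fun j _ => ?_
        rw [integral_finsetSum _ fun i _ => j4 j i]
        refine Finset.sum_congr rfl fun i _ => ?_
        rw [integral_const_mul]
  rw [hL, hRi] at hint
  refine hint.trans ?_
  have m1 : ∑ j, (∫ u in Ioi (0 : ℝ), u * bf (l j) u ^ 2) ≤ 3 / 2 * n := by
    calc ∑ j, (∫ u in Ioi (0 : ℝ), u * bf (l j) u ^ 2) ≤ ∑ _j : Fin n, (3 / 2 : ℝ) :=
          Finset.sum_le_sum fun j _ => (intB (hl j)).2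
      _ = 3 / 2 * n := by
          rw [Finset.sum_const, Finset.card_univ, Fintype.card_fin, nsmul_eq_mul]; ring
  have m2 : ∑ j, ∑ i, M j i * (∫ u in Ioi (0 : ℝ), (bf (l j) u - bf (l i) u) ^ 2 / u) ≤
      3 / 2 * ∑ j, ∑ i, M j i * (l j - l i) ^ 2 := by
    rw [Finset.mul_sum]
    refine Finset.sum_le_sum fun j _ => ?_
    rw [Finset.mul_sum]
    refine Finset.sum_le_sum fun i _ => ?_
    have := mul_le_mul_of_nonneg_left (intD (hl j) (hl i)).2 (hM j i)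
    linarith
  have hθ2 : 0 ≤ 2 / θ := by positivity
  have hγ2 : 0 ≤ γ / 2 := by positivity
  refine mul_le_mul_of_nonneg_left ?_ hγ2
  refine add_le_add (mul_le_mul_of_nonneg_left m1 hθ.le) (mul_le_mul_of_nonneg_left ?_ hθ2)
  linarith

end Pool.Agent.Helper69.SQ
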