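import Mathlib

/-!
# SQ-U1: the growth lemma

Let `z = T w`, `d = z - ω w`. If `‖z‖ ≤ ‖w‖` or `w = 0` or `d = 0` there is nothing to prove
(`d = 0` gives `‖z‖ = ‖w‖`; `w = 0` gives `z = 0`).
For `0 ≤ r ≤ 1` and `a = r conj ω` (so `conj a = r ω`), with
`Re ⟨r ω w, z⟩ = Re ⟨w, r conj ω z⟩`:
`(1 - r²) (‖z‖² - ‖w‖²) = ‖z - r ω w‖² - ‖w - r conj ω z‖² ≤ (C² - 1) ‖w - r conj ω z‖²`, and
`w - r conj ω z = (1 - r) w - r conj ω d` (`z = ω w + d`, `|ω| = 1`) has norm at most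
`(1 - r) ‖w‖ + ‖d‖`.
* If `‖d‖ ≤ ‖w‖`: take `1 - r = h = ‖d‖ / ‖w‖`; `1 - r² = h (2 - h) ≥ h`, so
  `‖z‖² - ‖w‖² ≤ (C² - 1) (2 ‖d‖)² / h = 4 (C² - 1) ‖d‖ ‖w‖`.
* If `‖w‖ ≤ ‖d‖`: take `r = 0`: `‖z‖² - ‖w‖² ≤ (C² - 1) ‖w‖² ≤ (C² - 1) ‖w‖ ‖d‖`.
-/

set_option autoImplicit false

open scoped ComplexConjugate InnerProductSpace

namespace Pool.Agent.Helper69.SQ

private lemma key_id {E : Type} [NormedAddCommGroup E] [InnerProductSpace ℂ E] (z w : E) (a : ℂ) :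
    ‖z - conj a • w‖ ^ 2 - ‖w - a • z‖ ^ 2 = (1 - ‖a‖ ^ 2) * (‖z‖ ^ 2 - ‖w‖ ^ 2) := by
  have h : RCLike.re (conj a * inner ℂ z w) = RCLike.re (a * inner ℂ w z) := by
    rw [← inner_conj_symm z w, ← map_mul, RCLike.conj_re]
  rw [@norm_sub_sq ℂ, @norm_sub_sq ℂ, norm_smul, norm_smul, inner_smul_right, inner_smul_right,
    RCLike.norm_conj, h]
  ring

private lemma aux_bd {E : Type} [NormedAddCommGroup E] [InnerProductSpace ℂ E] (z w : E) (ω : ℂ)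
    (hω : ‖ω‖ = 1) (r : ℝ) (hr0 : 0 ≤ r) (hr1 : r ≤ 1) :
    ‖w - ((r : ℂ) * conj ω) • z‖ ≤ (1 - r) * ‖w‖ + ‖z - ω • w‖ := by
  have hc : conj ω * ω = 1 := by
    rw [Complex.conj_mul', hω]; simp
  have e : w - ((r : ℂ) * conj ω) • z = ((1 - r : ℝ) : ℂ) • w - ((r : ℂ) * conj ω) • (z - ω • w) := by
    rw [smul_sub, smul_smul, mul_assoc, hc, mul_one]
    push_cast
    rw [sub_smul, one_smul]
    abel
  rw [e]
  refine (norm_sub_le _ _).trans ?_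
  rw [norm_smul, norm_smul, norm_mul, RCLike.norm_conj, hω, mul_one, Complex.norm_real,
    Complex.norm_real, Real.norm_of_nonneg (by linarith : 0 ≤ 1 - r), Real.norm_of_nonneg hr0]
  have : r * ‖z - ω • w‖ ≤ 1 * ‖z - ω • w‖ := mul_le_mul_of_nonneg_right hr1 (norm_nonneg _)
  linarith

theorem growth {E : Type} [NormedAddCommGroup E] [InnerProductSpace ℂ E] {C : ℝ} (hC : 1 ≤ C)
    (T : E →L[ℂ] E)
    (hK : ∀ a : ℂ, ‖a‖ ≤ 1 → ∀ w : E, ‖T w - conj a • w‖ ≤ C * ‖w - a • T w‖) (ω : ℂ)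
    (hω : ‖ω‖ = 1) (w : E) :
    ‖T w‖ ^ 2 - ‖w‖ ^ 2 ≤ 4 * (C ^ 2 - 1) * ‖w‖ * ‖T w - ω • w‖ := by
  have hC2 : 0 ≤ C ^ 2 - 1 := by nlinarith
  have hmain : ∀ r : ℝ, 0 ≤ r → r ≤ 1 →
      (1 - r ^ 2) * (‖T w‖ ^ 2 - ‖w‖ ^ 2) ≤ (C ^ 2 - 1) * ((1 - r) * ‖w‖ + ‖T w - ω • w‖) ^ 2 := by
    intro r hr0 hr1
    have hn : ‖(r : ℂ) * conj ω‖ = r := by
      rw [norm_mul, RCLike.norm_conj, hω, mul_one, Complex.norm_real, Real.norm_of_nonneg hr0]
    have h1 := hK ((r : ℂ) * conj ω) (by rw [hn]; exact hr1) w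
    have h2 := key_id (T w) w ((r : ℂ) * conj ω)
    have h3 := aux_bd (T w) w ω hω r hr0 hr1
    rw [hn] at h2
    set A := ‖T w - conj ((r : ℂ) * conj ω) • w‖
    set B := ‖w - ((r : ℂ) * conj ω) • T w‖
    have hB : 0 ≤ B := norm_nonneg _
    have hA : 0 ≤ A := norm_nonneg _
    have h4 : A ^ 2 ≤ (C * B) ^ 2 := pow_le_pow_left₀ hA h1 2
    have h5 : B ^ 2 ≤ ((1 - r) * ‖w‖ + ‖T w - ω • w‖) ^ 2 := pow_le_pow_left₀ hB h3 2
    have h6 := mul_le_mul_of_nonneg_left h5 hC2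
    nlinarith
  set D := ‖T w - ω • w‖ with hD
  set W := ‖w‖ with hW
  set Z := ‖T w‖ with hZ
  have hD0 : 0 ≤ D := norm_nonneg _
  have hW0 : 0 ≤ W := norm_nonneg _
  rcases le_total W D with h | h
  · have h1 := hmain 1 (by norm_num) le_rfl
    have h0 := hmain 0 le_rfl (by norm_num)
    have hK0 := hK 0 (by simp) w
    simp only [map_zero, zero_smul, sub_zero] at hK0
    have h4 : Z ^ 2 ≤ (C * W) ^ 2 := pow_le_pow_left₀ (norm_nonneg _) hK0 2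
    have h5 : (C ^ 2 - 1) * (W * W) ≤ (C ^ 2 - 1) * (W * D) :=
      mul_le_mul_of_nonneg_left (mul_le_mul_of_nonneg_left h hW0) hC2
    have h6 : 0 ≤ (C ^ 2 - 1) * (W * D) := mul_nonneg hC2 (mul_nonneg hW0 hD0)
    nlinarith
  · rcases hD0.eq_or_lt with hd | hd
    · have : T w - ω • w = 0 := by
        rw [← norm_eq_zero]; exact hd.symm
      have hz : Z = W := by
        rw [hZ, sub_eq_zero.mp this, norm_smul, hω, one_mul]
      rw [hz, ← hd]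
      simp
    · have hWpos : 0 < W := lt_of_lt_of_le hd h
      have hh1 : D / W ≤ 1 := (div_le_one hWpos).mpr h
      have hh0 : 0 < D / W := div_pos hd hWpos
      have h1 := hmain (1 - D / W) (by linarith) (by linarith)
      have h2 : (1 - (1 - D / W)) * W = D := by
        field_simp
        ring
      rw [h2] at h1
      by_cases hs : Z ^ 2 - W ^ 2 ≤ 0
      · refine hs.trans ?_
        have h6 : 0 ≤ (C ^ 2 - 1) * (W * D) := mul_nonneg hC2 (mul_nonneg hW0 hD0)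
        nlinarith
      · push Not at hs
        have h3 : D / W * (Z ^ 2 - W ^ 2) ≤ (C ^ 2 - 1) * (D + D) ^ 2 := by
          refine le_trans ?_ h1
          apply mul_le_mul_of_nonneg_right _ hs.le
          nlinarith
        have h4 : W / D * (D / W * (Z ^ 2 - W ^ 2)) ≤ W / D * ((C ^ 2 - 1) * (D + D) ^ 2) :=
          mul_le_mul_of_nonneg_left h3 (div_nonneg hW0 hD0)
        have h5 : W / D * (D / W * (Z ^ 2 - W ^ 2)) = Z ^ 2 - W ^ 2 := by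
          field_simp
        have h6 : W / D * ((C ^ 2 - 1) * (D + D) ^ 2) = 4 * (C ^ 2 - 1) * W * D := by
          field_simp
          ring
        rw [h5, h6] at h4
        exact h4

end Pool.Agent.Helper69.SQ
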