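import Mathlib

/-!
# SQ-U3: Hilbert-Schmidt sums

* `hs_adj`: `∑ᵢ ‖A eᵢ‖² = ∑ᵢ ∑ⱼ |⟨vⱼ, A eᵢ⟩|² = ∑ⱼ ∑ᵢ |⟨A† vⱼ, eᵢ⟩|² = ∑ⱼ ‖A† vⱼ‖²`
  (`OrthonormalBasis.sum_sq_norm_inner_right` / `_left`).
* `hs_basis`: `hs_adj` twice.
* `norm_sq_le_hs`: `A x = ∑ ⟨eᵢ, x⟩ A eᵢ`, Cauchy-Schwarz.
* `hs_comp`: `∑ ‖V† (V eᵢ)‖² ≤ (∑ ‖V eᵢ‖²)²`: by `norm_sq_le_hs` for `V†` and `hs_adj`,
  `‖V† x‖² ≤ (∑ ‖V eⱼ‖²) ‖x‖²`.
* `exists_spec`: spectral theorem for `U† U` (see `SIM.exists_diag`; the eigenvalues are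
  `‖U eⱼ‖² ≥ 0`).
* `exists_psqrt`: if `A† A = ∑ lⱼ |eⱼ⟩⟨eⱼ|` then `Q = ∑ √lⱼ |eⱼ⟩⟨eⱼ|` (see `SIM.dg`).
-/

set_option autoImplicit false

open scoped ComplexConjugate InnerProductSpace
open ContinuousLinearMap

namespace Pool.Agent.Helper69.SQ

variable {E : Type} [NormedAddCommGroup E] [InnerProductSpace ℂ E] [FiniteDimensional ℂ E]
variable {ι κ : Type} [Fintype ι] [Fintype κ]

theorem hs_adj (e : OrthonormalBasis ι ℂ E) (v : OrthonormalBasis κ ℂ E) (A : E →L[ℂ] E) :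
    ∑ i, ‖A (e i)‖ ^ 2 = ∑ j, ‖adjoint A (v j)‖ ^ 2 := by
  calc ∑ i, ‖A (e i)‖ ^ 2 = ∑ i, ∑ j, ‖⟪v j, A (e i)⟫_ℂ‖ ^ 2 := by
        refine Finset.sum_congr rfl fun i _ => ?_
        rw [OrthonormalBasis.sum_sq_norm_inner_right]
    _ = ∑ j, ∑ i, ‖⟪adjoint A (v j), e i⟫_ℂ‖ ^ 2 := by
        rw [Finset.sum_comm]
        refine Finset.sum_congr rfl fun j _ => Finset.sum_congr rfl fun i _ => ?_
        rw [adjoint_inner_left]
    _ = ∑ j, ‖adjoint A (v j)‖ ^ 2 := by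
        refine Finset.sum_congr rfl fun j _ => ?_
        rw [OrthonormalBasis.sum_sq_norm_inner_left]

theorem hs_basis (e : OrthonormalBasis ι ℂ E) (v : OrthonormalBasis κ ℂ E) (A : E →L[ℂ] E) :
    ∑ i, ‖A (e i)‖ ^ 2 = ∑ j, ‖A (v j)‖ ^ 2 := by
  rw [hs_adj e v A, ← hs_adj v v A]

theorem norm_sq_le_hs (e : OrthonormalBasis ι ℂ E) (A : E →L[ℂ] E) (x : E) :
    ‖A x‖ ^ 2 ≤ (∑ i, ‖A (e i)‖ ^ 2) * ‖x‖ ^ 2 := by
  have h1 : A x = ∑ i, ⟪e i, x⟫_ℂ • A (e i) := by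
    conv_lhs => rw [← OrthonormalBasis.sum_repr' e x]
    rw [map_sum]
    refine Finset.sum_congr rfl fun i _ => ?_
    rw [map_smul]
  have h2 : ‖A x‖ ≤ ∑ i, ‖⟪e i, x⟫_ℂ‖ * ‖A (e i)‖ := by
    rw [h1]
    refine (norm_sum_le _ _).trans (le_of_eq ?_)
    refine Finset.sum_congr rfl fun i _ => ?_
    rw [norm_smul]
  have h3 : ‖A x‖ ^ 2 ≤ (∑ i, ‖⟪e i, x⟫_ℂ‖ * ‖A (e i)‖) ^ 2 :=
    pow_le_pow_left₀ (norm_nonneg _) h2 2
  refine h3.trans ?_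
  refine (Finset.sum_mul_sq_le_sq_mul_sq _ _ _).trans (le_of_eq ?_)
  rw [OrthonormalBasis.sum_sq_norm_inner_right, mul_comm]

theorem hs_comp (e : OrthonormalBasis ι ℂ E) (V : E →L[ℂ] E) :
    ∑ i, ‖adjoint V (V (e i))‖ ^ 2 ≤ (∑ i, ‖V (e i)‖ ^ 2) ^ 2 := by
  have h : ∀ x : E, ‖adjoint V x‖ ^ 2 ≤ (∑ i, ‖V (e i)‖ ^ 2) * ‖x‖ ^ 2 := by
    intro x
    have h1 := norm_sq_le_hs e (adjoint V) x
    rwa [← hs_adj e e V] at h1
  calc ∑ i, ‖adjoint V (V (e i))‖ ^ 2 ≤ ∑ i, (∑ i, ‖V (e i)‖ ^ 2) * ‖V (e i)‖ ^ 2 :=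
        Finset.sum_le_sum fun i _ => h _
    _ = (∑ i, ‖V (e i)‖ ^ 2) ^ 2 := by
        rw [← Finset.mul_sum, sq]

theorem exists_spec {n : ℕ} (hn : Module.finrank ℂ E = n) (U : E →L[ℂ] E) :
    ∃ (e : OrthonormalBasis (Fin n) ℂ E) (l : Fin n → ℝ), (∀ j, 0 ≤ l j) ∧
      (∀ v, ‖U v‖ ^ 2 = ∑ j, l j * ‖⟪e j, v⟫_ℂ‖ ^ 2) ∧
      ∀ v, adjoint U (U v) = ∑ j, ((l j : ℝ) : ℂ) • ⟪e j, v⟫_ℂ • e j := by
  have hT : LinearMap.IsSymmetric (((adjoint U).comp U : E →L[ℂ] E) : E →ₗ[ℂ] E) := by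
    intro x y
    simp only [ContinuousLinearMap.coe_coe, ContinuousLinearMap.comp_apply]
    rw [adjoint_inner_left, adjoint_inner_right]
  set e := hT.eigenvectorBasis hn with he
  set l := hT.eigenvalues hn with hl
  have hap : ∀ j, adjoint U (U (e j)) = ((l j : ℝ) : ℂ) • e j := by
    intro j
    exact hT.apply_eigenvectorBasis hn j
  have h3 : ∀ v, adjoint U (U v) = ∑ j, ((l j : ℝ) : ℂ) • ⟪e j, v⟫_ℂ • e j := by
    intro v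
    have h1 : adjoint U (U v) = ∑ i, ⟪e i, v⟫_ℂ • adjoint U (U (e i)) := by
      conv_lhs => rw [← OrthonormalBasis.sum_repr' e v]
      rw [map_sum, map_sum]
      refine Finset.sum_congr rfl fun i _ => ?_
      rw [map_smul, map_smul]
    rw [h1]
    refine Finset.sum_congr rfl fun j _ => ?_
    rw [hap j, smul_comm]
  have hnn : ∀ j, l j = ‖U (e j)‖ ^ 2 := by
    intro j
    have h1 : ⟪e j, adjoint U (U (e j))⟫_ℂ = ((l j : ℝ) : ℂ) := by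
      rw [hap j, inner_smul_right, inner_self_eq_norm_sq_to_K, e.orthonormal.1 j]
      simp
    rw [adjoint_inner_right, inner_self_eq_norm_sq_to_K] at h1
    have h2 := congrArg Complex.re h1
    have h4 : (((‖U (e j)‖ ^ 2 : ℝ) : ℂ)).re = ((l j : ℝ) : ℂ).re := by
      rw [← h2]
      push_cast
      rfl
    rw [Complex.ofReal_re, Complex.ofReal_re] at h4
    exact h4.symm
  refine ⟨e, l, fun j => ?_, ?_, h3⟩
  · rw [hnn j]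
    positivity
  · intro v
    have h1 : ⟪v, adjoint U (U v)⟫_ℂ = ((∑ j, l j * ‖⟪e j, v⟫_ℂ‖ ^ 2 : ℝ) : ℂ) := by
      rw [h3 v, inner_sum]
      push_cast
      refine Finset.sum_congr rfl fun j _ => ?_
      rw [inner_smul_right, inner_smul_right, ← inner_conj_symm v (e j), Complex.mul_conj,
        Complex.normSq_eq_norm_sq]
      push_cast
      rfl
    rw [adjoint_inner_right, inner_self_eq_norm_sq_to_K] at h1
    have h4 : (((‖U v‖ ^ 2 : ℝ) : ℂ)) = ((∑ j, l j * ‖⟪e j, v⟫_ℂ‖ ^ 2 : ℝ) : ℂ) := by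
      rw [← h1]
      push_cast
      rfl
    exact_mod_cast h4

theorem exists_psqrt (A : E →L[ℂ] E) :
    ∃ Q : E →L[ℂ] E, IsSelfAdjoint Q ∧ (∀ v, 0 ≤ (⟪v, Q v⟫_ℂ).re) ∧
      ∀ v, Q (Q v) = adjoint A (A v) := by
  obtain ⟨e, l, hl, -, hsp⟩ := exists_spec (rfl : Module.finrank ℂ E = Module.finrank ℂ E) A
  let Q : E →L[ℂ] E := ∑ j, ((√(l j) : ℝ) : ℂ) • (innerSL ℂ (e j)).smulRight (e j)
  have hQ : ∀ v, Q v = ∑ j, ((√(l j) : ℝ) : ℂ) • ⟪e j, v⟫_ℂ • e j := by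
    intro v
    simp only [Q, sum_apply, smul_apply,
      ContinuousLinearMap.smulRight_apply, innerSL_apply_apply]
  have hin : ∀ v w, ⟪v, Q w⟫_ℂ = ∑ j, ((√(l j) : ℝ) : ℂ) * (⟪e j, w⟫_ℂ * ⟪v, e j⟫_ℂ) := by
    intro v w
    rw [hQ w, inner_sum]
    refine Finset.sum_congr rfl fun j _ => ?_
    rw [inner_smul_right, inner_smul_right]
  refine ⟨Q, ?_, ?_, ?_⟩
  · rw [ContinuousLinearMap.isSelfAdjoint_iff_isSymmetric]
    intro v w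
    change ⟪Q v, w⟫_ℂ = ⟪v, Q w⟫_ℂ
    rw [← inner_conj_symm (Q v) w, hin, hin, map_sum]
    refine Finset.sum_congr rfl fun j _ => ?_
    rw [map_mul, map_mul, inner_conj_symm, inner_conj_symm, Complex.conj_ofReal]
    ring
  · intro v
    rw [hin, Complex.re_sum]
    refine Finset.sum_nonneg fun j _ => ?_
    rw [← inner_conj_symm v (e j), Complex.mul_conj, Complex.re_ofReal_mul, Complex.ofReal_re]
    exact mul_nonneg (Real.sqrt_nonneg _) (Complex.normSq_nonneg _)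
  · intro v
    have hc : ∀ j, ⟪e j, Q v⟫_ℂ = ((√(l j) : ℝ) : ℂ) * ⟪e j, v⟫_ℂ := by
      intro j
      rw [hin, Finset.sum_eq_single j]
      · rw [inner_self_eq_norm_sq_to_K, e.orthonormal.1 j]
        simp
      · intro k _ hk
        rw [e.orthonormal.2 (Ne.symm hk)]
        simp
      · intro h
        exact absurd (Finset.mem_univ j) h
    rw [hQ (Q v), hsp v]
    refine Finset.sum_congr rfl fun j _ => ?_
    rw [hc j, smul_smul, smul_smul, ← mul_assoc, ← Complex.ofReal_mul, Real.mul_self_sqrt (hl j)]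

end Pool.Agent.Helper69.SQ
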