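import Mathlib

/-!
# SQ-U4: a linear isometry of a finite dimensional complex Hilbert space has an orthonormal basis
of eigenvectors

Proof by induction on the dimension: `W` has an eigenvector `v₀` of norm one, `W v₀ = ω₀ v₀`,
`|ω₀| = 1`. The orthogonal complement of `v₀` is invariant: if `⟨v₀, x⟩ = 0` then
`0 = ⟨W v₀, W x⟩ = conj ω₀ ⟨v₀, W x⟩`. Restrict `W` to it.
-/

set_option autoImplicit false

open scoped ComplexConjugate InnerProductSpace

namespace Pool.Agent.Helper69.SQ

private theorem eigen_one {E : Type} [NormedAddCommGroup E] [InnerProductSpace ℂ E]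
    [FiniteDimensional ℂ E] [Nontrivial E] (W : E →ₗᵢ[ℂ] E) :
    ∃ (e : E) (μ : ℂ), ‖e‖ = 1 ∧ ‖μ‖ = 1 ∧ W e = μ • e := by
  obtain ⟨μ, hμ⟩ := Module.End.exists_eigenvalue (K := ℂ) (W.toLinearMap : Module.End ℂ E)
  obtain ⟨v, hv⟩ := hμ.exists_hasEigenvector
  have h1 : W v = μ • v := hv.apply_eq_smul
  have h2 : v ≠ 0 := hv.2
  have h3 : ‖v‖ ≠ 0 := norm_ne_zero_iff.mpr h2
  refine ⟨((‖v‖ : ℂ)⁻¹) • v, μ, ?_, ?_, ?_⟩
  · rw [norm_smul, norm_inv, Complex.norm_real, norm_norm, inv_mul_cancel₀ h3]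
  · have h4 : ‖W v‖ = ‖v‖ := W.norm_map v
    rw [h1, norm_smul] at h4
    have h5 : ‖μ‖ * ‖v‖ = 1 * ‖v‖ := by rw [h4, one_mul]
    exact mul_right_cancel₀ h3 h5
  · rw [map_smul, h1, smul_comm]

theorem exists_unitary_basis {E : Type} [NormedAddCommGroup E] [InnerProductSpace ℂ E]
    [FiniteDimensional ℂ E] {n : ℕ} (hn : Module.finrank ℂ E = n) (W : E →ₗᵢ[ℂ] E) :
    ∃ (v : OrthonormalBasis (Fin n) ℂ E) (ω : Fin n → ℂ), (∀ i, ‖ω i‖ = 1) ∧
      ∀ i, W (v i) = ω i • v i := by
  induction n generalizing E with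
  | zero =>
    exact ⟨(stdOrthonormalBasis ℂ E).reindex (finCongr hn), fun _ => 1, fun i => i.elim0,
      fun i => i.elim0⟩
  | succ n ih =>
    have : Nontrivial E := Module.nontrivial_of_finrank_pos (R := ℂ) (by rw [hn]; omega)
    have : Fact (Module.finrank ℂ E = n + 1) := ⟨hn⟩
    obtain ⟨e, μ, he, hμ, hW⟩ := eigen_one W
    have he0 : e ≠ 0 := by
      intro h
      rw [h, norm_zero] at he
      exact zero_ne_one he
    have hμ0 : μ ≠ 0 := by
      intro h
      rw [h, norm_zero] at hμ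
      exact zero_ne_one hμ
    have hK : Module.finrank ℂ ((ℂ ∙ e)ᗮ : Submodule ℂ E) = n :=
      Submodule.finrank_orthogonal_span_singleton he0
    have hinv : ∀ x ∈ ((ℂ ∙ e)ᗮ : Submodule ℂ E), W.toLinearMap x ∈ ((ℂ ∙ e)ᗮ : Submodule ℂ E) := by
      intro x hx
      rw [Submodule.mem_orthogonal_singleton_iff_inner_right] at hx ⊢
      have h1 : ⟪W e, W x⟫_ℂ = ⟪e, x⟫_ℂ := W.inner_map_map e x
      rw [hW, hx, inner_smul_left] at h1
      rcases mul_eq_zero.mp h1 with h2 | h2
      · exact absurd ((map_eq_zero _).mp h2) hμ0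
      · exact h2
    let W' : ((ℂ ∙ e)ᗮ : Submodule ℂ E) →ₗᵢ[ℂ] ((ℂ ∙ e)ᗮ : Submodule ℂ E) :=
      ⟨W.toLinearMap.restrict hinv, fun x => by
        show ‖(W.toLinearMap x : E)‖ = ‖(x : E)‖
        exact W.norm_map x⟩
    obtain ⟨v', ω', hω', hv'⟩ := ih hK W'
    have hu : Orthonormal ℂ (Fin.cons e (fun i => ((v' i : ((ℂ ∙ e)ᗮ : Submodule ℂ E)) : E)) :
        Fin (n + 1) → E) := by
      have horth : ∀ i, ⟪e, ((v' i : ((ℂ ∙ e)ᗮ : Submodule ℂ E)) : E)⟫_ℂ = 0 := fun i =>
        Submodule.mem_orthogonal_singleton_iff_inner_right.mp (v' i).2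
      constructor
      · intro i
        refine Fin.cases ?_ (fun j => ?_) i
        · exact he
        · rw [Fin.cons_succ]
          exact v'.orthonormal.1 j
      · intro i j
        refine Fin.cases ?_ (fun i => ?_) i
        · refine Fin.cases ?_ (fun j => ?_) j
          · intro h; exact absurd rfl h
          · intro _
            rw [Fin.cons_zero, Fin.cons_succ]
            exact horth j
        · refine Fin.cases ?_ (fun j => ?_) j
          · intro _
            rw [Fin.cons_zero, Fin.cons_succ, inner_eq_zero_symm]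
            exact horth i
          · intro h
            rw [Fin.cons_succ, Fin.cons_succ]
            have h1 : i ≠ j := fun h2 => h (by rw [h2])
            exact v'.orthonormal.2 h1
    have hu' := hu.comp (fun i : ↥(Set.univ : Set (Fin (n + 1))) => (i : Fin (n + 1)))
      Subtype.val_injective
    obtain ⟨b, hb⟩ := Orthonormal.exists_orthonormalBasis_extension_of_card_eq (𝕜 := ℂ) (E := E)
      (ι := Fin (n + 1)) (by rw [hn, Fintype.card_fin]) (s := Set.univ) hu'
    refine ⟨b, Fin.cons μ ω', fun i => ?_, fun i => ?_⟩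
    · refine Fin.cases ?_ (fun j => ?_) i
      · exact hμ
      · rw [Fin.cons_succ]; exact hω' j
    · rw [hb i (Set.mem_univ i)]
      refine Fin.cases ?_ (fun j => ?_) i
      · rw [Fin.cons_zero, Fin.cons_zero]; exact hW
      · rw [Fin.cons_succ, Fin.cons_succ]
        have h1 := congrArg (Subtype.val) (hv' j)
        exact h1

end Pool.Agent.Helper69.SQ
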