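import Pool.Agent.Helper69.SQ.HSx
import Pool.Agent.Helper69.SQ.UDiag
import Pool.Agent.Helper69.SIM.Diag

/-!
# SQ-U7: the pointwise inequality

Let `𝔅 = ∑ b_j |e_j⟩⟨e_j|` (`SIM.dg e`), so `𝔅 e_j = b_j e_j`, and let `v, ω` be from
`exists_unitary_basis W`. By `hs_basis` applied to `A 𝔅` and `B 𝔅`:
`∑ b_j² (‖A e_j‖² - ‖B e_j‖²) = ∑_i (‖A 𝔅 v_i‖² - ‖B 𝔅 v_i‖²)`
`≤ γ ∑_i ‖𝔅 v_i‖ ‖R 𝔅 v_i - ω_i 𝔅 v_i‖ ≤ (γ/2) ∑_i (θ ‖𝔅 v_i‖² + ‖R 𝔅 v_i - ω_i 𝔅 v_i‖²/θ)`.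
Here `∑_i ‖𝔅 v_i‖² = ∑ b_j²`, and `R 𝔅 v_i - ω_i 𝔅 v_i = (R 𝔅 - 𝔅 W) v_i`, so by `hs_basis`
`∑_i ‖R 𝔅 v_i - ω_i 𝔅 v_i‖² = ∑_j ‖(R 𝔅 - 𝔅 W) e_j‖²`. Finally
`R 𝔅 e_j = b_j R e_j = φ_j √l_j R e_j = φ_j W (Q e_j)`, so
`(R 𝔅 - 𝔅 W) e_j = φ_j W (Q e_j - √l_j e_j) + (b_j W e_j - 𝔅 W e_j)`, and
`‖b_j W e_j - 𝔅 W e_j‖² = ∑_i |⟨e_i, W e_j⟩|² (b_j - b_i)²`; use `‖p + q‖² ≤ 2 ‖p‖² + 2 ‖q‖²`.
-/

set_option autoImplicit false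

open scoped ComplexConjugate InnerProductSpace
open ContinuousLinearMap

namespace Pool.Agent.Helper69.SQ

variable {E : Type} [NormedAddCommGroup E] [InnerProductSpace ℂ E] [FiniteDimensional ℂ E]

private theorem dg_basis_pw {n : ℕ} (e : OrthonormalBasis (Fin n) ℂ E) (b : Fin n → ℝ)
    (j : Fin n) : SIM.dg e (fun k => ((b k : ℝ) : ℂ)) (e j) = ((b j : ℝ) : ℂ) • e j := by
  classical
  refine SIM.ext_basis e fun k => ?_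
  rw [SIM.inner_dg, inner_smul_right]
  by_cases hkj : k = j
  · subst hkj; rfl
  · rw [e.inner_eq_zero hkj]; simp

private theorem sq_add_le_pw (p q : E) : ‖p + q‖ ^ 2 ≤ 2 * ‖p‖ ^ 2 + 2 * ‖q‖ ^ 2 := by
  have h1 : ‖p + q‖ ≤ ‖p‖ + ‖q‖ := norm_add_le p q
  have h2 : ‖p + q‖ ^ 2 ≤ (‖p‖ + ‖q‖) ^ 2 := pow_le_pow_left₀ (norm_nonneg _) h1 2
  nlinarith [sq_nonneg (‖p‖ - ‖q‖)]

theorem pointwise {n : ℕ} (hn : Module.finrank ℂ E = n) (e : OrthonormalBasis (Fin n) ℂ E)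
    (l : Fin n → ℝ) (W : E →ₗᵢ[ℂ] E) (Q R A B : E →L[ℂ] E)
    (hWQ : ∀ j, W (Q (e j)) = ((√(l j) : ℝ) : ℂ) • R (e j)) (γ : ℝ) (hγ : 0 ≤ γ)
    (hAB : ∀ ω : ℂ, ‖ω‖ = 1 → ∀ w, ‖A w‖ ^ 2 - ‖B w‖ ^ 2 ≤ γ * ‖w‖ * ‖R w - ω • w‖)
    (b φ : Fin n → ℝ) (hb : ∀ j, b j = φ j * √(l j)) (θ : ℝ) (hθ : 0 < θ) :
    ∑ j, b j ^ 2 * (‖A (e j)‖ ^ 2 - ‖B (e j)‖ ^ 2) ≤
      γ / 2 * (θ * ∑ j, b j ^ 2 + 2 / θ * (∑ j, φ j ^ 2 *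
        ‖Q (e j) - ((√(l j) : ℝ) : ℂ) • e j‖ ^ 2 +
        ∑ j, ∑ i, ‖⟪e i, W (e j)⟫_ℂ‖ ^ 2 * (b j - b i) ^ 2)) := by
  classical
  obtain ⟨v, ω, hω, hWv⟩ := exists_unitary_basis hn W
  set D : E →L[ℂ] E := SIM.dg e (fun k => ((b k : ℝ) : ℂ)) with hD
  have hDe : ∀ j, D (e j) = ((b j : ℝ) : ℂ) • e j := dg_basis_pw e b
  have hnb : ∀ j, ‖((b j : ℝ) : ℂ)‖ ^ 2 = b j ^ 2 := fun j => by
    rw [Complex.norm_real, Real.norm_eq_abs, sq_abs]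
  -- transport of the two sums
  have key : ∀ C : E →L[ℂ] E, ∑ j, b j ^ 2 * ‖C (e j)‖ ^ 2 = ∑ i, ‖C (D (v i))‖ ^ 2 := by
    intro C
    have h1 := hs_basis e v (C.comp D)
    simp only [ContinuousLinearMap.comp_apply] at h1
    rw [← h1]
    refine Finset.sum_congr rfl fun j _ => ?_
    rw [hDe, map_smul, norm_smul, mul_pow, hnb]
  have hs1 : ∑ j, b j ^ 2 * (‖A (e j)‖ ^ 2 - ‖B (e j)‖ ^ 2) =
      ∑ i, (‖A (D (v i))‖ ^ 2 - ‖B (D (v i))‖ ^ 2) := by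
    simp only [mul_sub, Finset.sum_sub_distrib]
    rw [key A, key B]
  have hs2 : ∑ i, ‖D (v i)‖ ^ 2 = ∑ j, b j ^ 2 := by
    rw [← hs_basis e v D]
    refine Finset.sum_congr rfl fun j _ => ?_
    rw [hDe, norm_smul, mul_pow, hnb, e.norm_eq_one]
    ring
  -- the commutator
  set W' : E →L[ℂ] E := W.toContinuousLinearMap with hW'
  have hs3 : ∑ i, ‖R (D (v i)) - ω i • D (v i)‖ ^ 2 =
      ∑ j, ‖R (D (e j)) - D (W (e j))‖ ^ 2 := by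
    have h1 := hs_basis e v (R.comp D - D.comp W')
    simp only [ContinuousLinearMap.sub_apply, ContinuousLinearMap.comp_apply] at h1
    have hW'a : ∀ x, W' x = W x := fun _ => rfl
    simp only [hW'a] at h1
    rw [h1]
    refine Finset.sum_congr rfl fun i _ => ?_
    rw [hWv, map_smul]
  have hs4 : ∀ j, ‖R (D (e j)) - D (W (e j))‖ ^ 2 ≤
      2 * (φ j ^ 2 * ‖Q (e j) - ((√(l j) : ℝ) : ℂ) • e j‖ ^ 2) +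
      2 * ∑ i, ‖⟪e i, W (e j)⟫_ℂ‖ ^ 2 * (b j - b i) ^ 2 := by
    intro j
    have h1 : R (D (e j)) - D (W (e j)) =
        ((φ j : ℝ) : ℂ) • W (Q (e j) - ((√(l j) : ℝ) : ℂ) • e j) +
        (((b j : ℝ) : ℂ) • W (e j) - D (W (e j))) := by
      rw [hDe, map_smul, map_sub, hWQ, map_smul, smul_sub, smul_smul, smul_smul, hb j]
      push_cast
      abel
    have h2 : ‖((b j : ℝ) : ℂ) • W (e j) - D (W (e j))‖ ^ 2 =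
        ∑ i, ‖⟪e i, W (e j)⟫_ℂ‖ ^ 2 * (b j - b i) ^ 2 := by
      rw [← e.sum_sq_norm_inner_right]
      refine Finset.sum_congr rfl fun i _ => ?_
      rw [inner_sub_right, inner_smul_right, hD, SIM.inner_dg, ← sub_mul, norm_mul, mul_pow,
        ← Complex.ofReal_sub, Complex.norm_real, Real.norm_eq_abs, sq_abs]
      ring
    have h3 : ‖((φ j : ℝ) : ℂ) • W (Q (e j) - ((√(l j) : ℝ) : ℂ) • e j)‖ ^ 2 =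
        φ j ^ 2 * ‖Q (e j) - ((√(l j) : ℝ) : ℂ) • e j‖ ^ 2 := by
      rw [norm_smul, mul_pow, Complex.norm_real, Real.norm_eq_abs, sq_abs, W.norm_map]
    rw [h1, ← h2, ← h3]
    exact sq_add_le_pw _ _
  have hs5 : ∀ i, ‖A (D (v i))‖ ^ 2 - ‖B (D (v i))‖ ^ 2 ≤
      γ / 2 * (θ * ‖D (v i)‖ ^ 2 + ‖R (D (v i)) - ω i • D (v i)‖ ^ 2 / θ) := by
    intro i
    refine (hAB (ω i) (hω i) (D (v i))).trans ?_
    set p := ‖D (v i)‖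
    set q := ‖R (D (v i)) - ω i • D (v i)‖
    have h1 : 2 * (p * q) ≤ θ * p ^ 2 + q ^ 2 / θ := by
      have h2 : θ * p ^ 2 + q ^ 2 / θ - 2 * (p * q) = (θ * p - q) ^ 2 / θ := by
        field_simp
        ring
      have h3 : 0 ≤ (θ * p - q) ^ 2 / θ := by positivity
      linarith
    calc γ * p * q = γ / 2 * (2 * (p * q)) := by ring
      _ ≤ γ / 2 * (θ * p ^ 2 + q ^ 2 / θ) := by gcongr
  rw [hs1]
  refine (Finset.sum_le_sum fun i _ => hs5 i).trans ?_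
  rw [← Finset.mul_sum, Finset.sum_add_distrib, ← Finset.mul_sum, hs2, ← Finset.sum_div, hs3]
  have h6 : ∑ j, ‖R (D (e j)) - D (W (e j))‖ ^ 2 ≤ 2 * (∑ j, φ j ^ 2 *
        ‖Q (e j) - ((√(l j) : ℝ) : ℂ) • e j‖ ^ 2 +
        ∑ j, ∑ i, ‖⟪e i, W (e j)⟫_ℂ‖ ^ 2 * (b j - b i) ^ 2) := by
    refine (Finset.sum_le_sum fun j _ => hs4 j).trans ?_
    rw [Finset.sum_add_distrib, ← Finset.mul_sum, ← Finset.mul_sum, mul_add]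
  have h7 : (∑ j, ‖R (D (e j)) - D (W (e j))‖ ^ 2) / θ ≤ 2 / θ * (∑ j, φ j ^ 2 *
        ‖Q (e j) - ((√(l j) : ℝ) : ℂ) • e j‖ ^ 2 +
        ∑ j, ∑ i, ‖⟪e i, W (e j)⟫_ℂ‖ ^ 2 * (b j - b i) ^ 2) := by
    rw [div_le_iff₀ hθ]
    refine h6.trans (le_of_eq ?_)
    field_simp
  gcongr

end Pool.Agent.Helper69.SQ
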