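import Pool.Agent.Helper69.SQ.Polar
import Pool.Agent.Helper69.SQ.Pointwise
import Pool.Agent.Helper69.SQ.Gam

/-!
# SQ-U8: the key inequality

Take `e, l, W, Q` from `polar`. For an orthonormal basis `η`:
`∑_k ‖U (A† η_k)‖² = ∑_k ∑_j l_j |⟨e_j, A† η_k⟩|² = ∑_j l_j ∑_k |⟨A e_j, η_k⟩|² = ∑_j l_j ‖A e_j‖²`,
same for `B`; so the left side is `∑_j l_j (‖A e_j‖² - ‖B e_j‖²)`. For `u > 0` and every
`θ > 0`, `pointwise` with `b_j = bf (l_j) u`, `φ_j = ph (l_j) u` (`bf_eq`) and with `θ u` in the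
place of `θ` is the hypothesis of `integrate` with `α_j = ‖A e_j‖² - ‖B e_j‖²`,
`c_j = ‖Q e_j - √l_j e_j‖²`, `M j i = |⟨e_i, W e_j⟩|²`. With `t = ∑ |d_k| ‖y_k‖²`:
left side `≤ (γ/2) ((3/2) n θ + (2/θ) (t² + (3/2) 4 t²)) = (γ/2) ((3/2) n θ + 14 t²/θ)`.
If `t > 0` choose `θ = t √(28/(3n))`: both terms are `t √(21 n)`. If `t = 0` let `θ → 0`
(the bound is `(3/4) γ n θ` for every `θ > 0`).
-/

set_option autoImplicit false

open scoped ComplexConjugate InnerProductSpace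
open ContinuousLinearMap

namespace Pool.Agent.Helper69.SQ

variable {E : Type} [NormedAddCommGroup E] [InnerProductSpace ℂ E] [FiniteDimensional ℂ E]

theorem sum_form {n : ℕ} (e η : OrthonormalBasis (Fin n) ℂ E) (l : Fin n → ℝ)
    (U A : E →L[ℂ] E) (hU : ∀ v, ‖U v‖ ^ 2 = ∑ j, l j * ‖⟪e j, v⟫_ℂ‖ ^ 2) :
    ∑ k, ‖U (adjoint A (η k))‖ ^ 2 = ∑ j, l j * ‖A (e j)‖ ^ 2 := by
  calc ∑ k, ‖U (adjoint A (η k))‖ ^ 2 = ∑ k, ∑ j, l j * ‖⟪A (e j), η k⟫_ℂ‖ ^ 2 := by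
        refine Finset.sum_congr rfl fun k _ => ?_
        rw [hU]
        refine Finset.sum_congr rfl fun j _ => ?_
        rw [adjoint_inner_right]
    _ = ∑ j, ∑ k, l j * ‖⟪A (e j), η k⟫_ℂ‖ ^ 2 := Finset.sum_comm
    _ = _ := by
        refine Finset.sum_congr rfl fun j _ => ?_
        rw [← Finset.mul_sum, η.sum_sq_norm_inner_left]

theorem key {n m : ℕ} (hn : Module.finrank ℂ E = n) (hn1 : 1 ≤ n) (R U A B : E →L[ℂ] E)
    (hR : ‖R‖ ≤ 1) (d : Fin m → ℝ) (y : Fin m → E)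
    (h : ∀ v, ‖U v‖ ^ 2 - ‖U (adjoint R v)‖ ^ 2 = ∑ k, d k * ‖⟪y k, v⟫_ℂ‖ ^ 2) (γ : ℝ)
    (hγ : 0 ≤ γ)
    (hAB : ∀ ω : ℂ, ‖ω‖ = 1 → ∀ w, ‖A w‖ ^ 2 - ‖B w‖ ^ 2 ≤ γ * ‖w‖ * ‖R w - ω • w‖)
    (η : OrthonormalBasis (Fin n) ℂ E) :
    ∑ k, (‖U (adjoint A (η k))‖ ^ 2 - ‖U (adjoint B (η k))‖ ^ 2) ≤
      γ * √(21 * n) * ∑ k, |d k| * ‖y k‖ ^ 2 := by
  obtain ⟨e, l, W, Q, hl, hU, hWQ, h1, h2⟩ := polar hn R U hR d y h
  set t : ℝ := ∑ k, |d k| * ‖y k‖ ^ 2 with ht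
  have ht0 : 0 ≤ t := Finset.sum_nonneg fun k _ => by positivity
  have hlhs : ∑ k, (‖U (adjoint A (η k))‖ ^ 2 - ‖U (adjoint B (η k))‖ ^ 2) =
      ∑ j, l j * (‖A (e j)‖ ^ 2 - ‖B (e j)‖ ^ 2) := by
    rw [Finset.sum_sub_distrib, sum_form e η l U A hU, sum_form e η l U B hU,
      ← Finset.sum_sub_distrib]
    exact Finset.sum_congr rfl fun j _ => by ring
  rw [hlhs]
  have hn0 : (0 : ℝ) < n := by exact_mod_cast hn1
  have hmain : ∀ θ : ℝ, 0 < θ → ∑ j, l j * (‖A (e j)‖ ^ 2 - ‖B (e j)‖ ^ 2) ≤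
      γ / 2 * (θ * (3 / 2 * n) + 2 / θ * (7 * t ^ 2)) := by
    intro θ hθ
    have h3 := integrate l (fun j => ‖A (e j)‖ ^ 2 - ‖B (e j)‖ ^ 2)
      (fun j => ‖Q (e j) - ((√(l j) : ℝ) : ℂ) • e j‖ ^ 2)
      (fun j i => ‖⟪e i, W (e j)⟫_ℂ‖ ^ 2) hl (fun j => by positivity) (fun i j => by positivity)
      γ θ hγ hθ (fun u hu => pointwise hn e l W Q R A B hWQ γ hγ hAB (fun j => bf (l j) u)
        (fun j => ph (l j) u) (fun j => bf_eq (hl j) u) (θ * u) (mul_pos hθ hu))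
    refine h3.trans ?_
    refine mul_le_mul_of_nonneg_left ?_ (by positivity)
    refine add_le_add le_rfl ?_
    refine mul_le_mul_of_nonneg_left ?_ (by positivity)
    linarith
  rcases ht0.eq_or_lt with ht1 | ht1
  · -- the case t = 0
    rw [← ht1, mul_zero]
    refine le_of_forall_pos_le_add fun ε hε => ?_
    set D : ℝ := γ / 2 * (3 / 2 * n) with hD
    have hD0 : 0 ≤ D := by positivity
    have h4 := hmain (ε / (D + 1)) (by positivity)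
    rw [← ht1] at h4
    have h5 : γ / 2 * (ε / (D + 1) * (3 / 2 * n) + 2 / (ε / (D + 1)) * (7 * (0 : ℝ) ^ 2)) =
        ε * (D / (D + 1)) := by
      rw [hD]; ring
    rw [h5] at h4
    have h6 : D / (D + 1) ≤ 1 := by
      rw [div_le_one (by positivity)]; linarith
    calc _ ≤ ε * (D / (D + 1)) := h4
      _ ≤ ε * 1 := mul_le_mul_of_nonneg_left h6 hε.le
      _ = 0 + ε := by ring
  · set s : ℝ := √(21 * n) with hs
    have hs0 : 0 < s := Real.sqrt_pos.2 (by positivity)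
    have hs2 : s * s = 21 * n := Real.mul_self_sqrt (by positivity)
    have h4 := hmain (t * (2 / (3 * n)) * s) (by positivity)
    refine h4.trans (le_of_eq ?_)
    have e1 : t * (2 / (3 * n)) * s * (3 / 2 * n) = t * s := by
      field_simp
    have e2 : 2 / (t * (2 / (3 * n)) * s) * (7 * t ^ 2) = t * s := by
      have : 2 / (t * (2 / (3 * n)) * s) * (7 * t ^ 2) = t * (21 * n) / s := by
        field_simp
        ring
      rw [this, ← hs2]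
      field_simp
    rw [e1, e2]
    ring

end Pool.Agent.Helper69.SQ
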