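import Pool.Agent.Helper69.SIM.Diag

/-!
# SQ-L7: weighted shifts

`e_i = EuclideanSpace.single i 1`. For real weights `c_i` and a permutation `π` let
`W_c v = ∑ c_i v_i e_(π i)`; then `‖W_c v‖² = ∑ c_i² |v_i|²`. Take `τ = W_s`, `B = W_α`,
`A = diag γ`, `ν = diag √(1 + δ - s_i²)`. Then `τ = w A B` (since `s_i = w α_i γ_(π i)`),
`w B A = W_(w α_i γ_i)` with `w α_i γ_i ≤ (α_i² + γ_i²)/2 = 1`, and
`‖A† v‖² + ‖B v‖² = ∑ (γ_i² + α_i²) |v_i|² = 2 ‖v‖²` (`A` is self-adjoint).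
-/

set_option autoImplicit false

open scoped ComplexConjugate InnerProductSpace
open ContinuousLinearMap

namespace Pool.Agent.Helper69.SQ

private noncomputable def wl {k : ℕ} (π : Equiv.Perm (Fin k)) (c : Fin k → ℝ) :
    EuclideanSpace ℂ (Fin k) →ₗ[ℂ] EuclideanSpace ℂ (Fin k) where
  toFun v := WithLp.toLp 2 (fun j => ((c (π.symm j) : ℝ) : ℂ) * v (π.symm j))
  map_add' v w := by
    ext j
    simp [mul_add]
  map_smul' a v := by
    ext j
    simp [mul_left_comm]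

private noncomputable def wc {k : ℕ} (π : Equiv.Perm (Fin k)) (c : Fin k → ℝ) :
    EuclideanSpace ℂ (Fin k) →L[ℂ] EuclideanSpace ℂ (Fin k) :=
  LinearMap.toContinuousLinearMap (wl π c)

private theorem wc_apply {k : ℕ} (π : Equiv.Perm (Fin k)) (c : Fin k → ℝ)
    (v : EuclideanSpace ℂ (Fin k)) (j : Fin k) :
    wc π c v j = ((c (π.symm j) : ℝ) : ℂ) * v (π.symm j) := rfl

private theorem wc_norm {k : ℕ} (π : Equiv.Perm (Fin k)) (c : Fin k → ℝ)
    (v : EuclideanSpace ℂ (Fin k)) :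
    ‖wc π c v‖ ^ 2 = ∑ i, c i ^ 2 * ‖v i‖ ^ 2 := by
  rw [EuclideanSpace.norm_sq_eq, ← Equiv.sum_comp π]
  refine Finset.sum_congr rfl (fun i _ => ?_)
  rw [wc_apply, Equiv.symm_apply_apply, norm_mul, mul_pow, Complex.norm_real, Real.norm_eq_abs,
    sq_abs]

private theorem wc_adj {k : ℕ} (c : Fin k → ℝ) :
    adjoint (wc (Equiv.refl (Fin k)) c) = wc (Equiv.refl (Fin k)) c := by
  symm
  rw [ContinuousLinearMap.eq_adjoint_iff]
  intro x y
  simp only [PiLp.inner_apply, wc_apply, Equiv.refl_symm, Equiv.refl_apply]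
  refine Finset.sum_congr rfl (fun i _ => ?_)
  simp only [RCLike.inner_apply, map_mul, Complex.conj_ofReal]
  ring

theorem shift_ops {k : ℕ} (π : Equiv.Perm (Fin k)) (s α γ : Fin k → ℝ) (w δ : ℝ) (hw0 : 0 ≤ w)
    (hw1 : w ≤ 1) (hδ : 0 ≤ δ) (hs0 : ∀ i, 0 ≤ s i) (hs1 : ∀ i, s i ≤ 1) (hα : ∀ i, 0 ≤ α i)
    (hγ : ∀ i, 0 ≤ γ i) (hαγ : ∀ i, α i ^ 2 + γ i ^ 2 = 2)
    (hs : ∀ i, s i = w * (α i * γ (π i))) :
    ∃ τ A B ν : EuclideanSpace ℂ (Fin k) →L[ℂ] EuclideanSpace ℂ (Fin k),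
      (∀ i, τ (EuclideanSpace.single i 1) = ((s i : ℝ) : ℂ) • EuclideanSpace.single (π i) 1) ∧
      ‖τ‖ ≤ 1 ∧ (∀ v, τ v = (w : ℂ) • A (B v)) ∧ ‖(w : ℂ) • (B ∘L A)‖ ≤ 1 ∧
      (∀ v, ‖adjoint A v‖ ^ 2 + ‖B v‖ ^ 2 ≤ 2 * ‖v‖ ^ 2) ∧
      (∀ v, ‖τ v‖ ^ 2 + ‖ν v‖ ^ 2 = (1 + δ) * ‖v‖ ^ 2) := by
  have hle : ∀ (c : Fin k → ℝ), (∀ i, 0 ≤ c i) → (∀ i, c i ≤ 1) → ‖wc π c‖ ≤ 1 := by
    intro c h0 h1
    refine ContinuousLinearMap.opNorm_le_bound _ zero_le_one (fun v => ?_)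
    rw [one_mul]
    apply le_of_sq_le_sq _ (norm_nonneg _)
    rw [wc_norm, EuclideanSpace.norm_sq_eq]
    refine Finset.sum_le_sum (fun i _ => ?_)
    have : c i ^ 2 ≤ 1 := by
      have := h0 i
      have := h1 i
      nlinarith
    nlinarith [sq_nonneg ‖v i‖]
  refine ⟨wc π s, wc (Equiv.refl _) γ, wc π α,
    wc (Equiv.refl _) (fun i => √(1 + δ - s i ^ 2)), ?_, hle s hs0 hs1, ?_, ?_, ?_, ?_⟩
  · intro i
    ext j
    rw [wc_apply]
    simp only [PiLp.smul_apply, EuclideanSpace.single_apply, smul_eq_mul]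
    by_cases h : j = π i
    · subst h
      simp
    · have h' : ¬ (π.symm j = i) := fun hh => h (by rw [← hh, Equiv.apply_symm_apply])
      simp [h, h']
  · intro v
    ext j
    simp only [PiLp.smul_apply, wc_apply, smul_eq_mul, Equiv.refl_symm, Equiv.refl_apply]
    rw [hs (π.symm j), Equiv.apply_symm_apply]
    push_cast
    ring
  · have e : (w : ℂ) • ((wc π α) ∘L (wc (Equiv.refl _) γ)) =
        wc π (fun i => w * (α i * γ i)) := by
      ext v j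
      simp only [ContinuousLinearMap.smul_apply, ContinuousLinearMap.comp_apply, PiLp.smul_apply,
        wc_apply, smul_eq_mul, Equiv.refl_symm, Equiv.refl_apply]
      push_cast
      ring
    rw [e]
    apply hle
    · intro i
      exact mul_nonneg hw0 (mul_nonneg (hα i) (hγ i))
    · intro i
      have h1 : α i * γ i ≤ 1 := by nlinarith [sq_nonneg (α i - γ i), hαγ i]
      have h2 : 0 ≤ α i * γ i := mul_nonneg (hα i) (hγ i)
      nlinarith
  · intro v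
    rw [wc_adj, wc_norm, wc_norm, EuclideanSpace.norm_sq_eq, ← Finset.sum_add_distrib,
      Finset.mul_sum]
    refine Finset.sum_le_sum (fun i _ => ?_)
    have := hαγ i
    apply le_of_eq
    rw [← add_mul, ← this]
    ring
  · intro v
    rw [wc_norm, wc_norm, EuclideanSpace.norm_sq_eq, ← Finset.sum_add_distrib, Finset.mul_sum]
    refine Finset.sum_congr rfl (fun i _ => ?_)
    have h1 : 0 ≤ 1 + δ - s i ^ 2 := by
      have := hs0 i
      have := hs1 i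
      nlinarith
    rw [Real.sq_sqrt h1]
    ring

end Pool.Agent.Helper69.SQ
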