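import Mathlib

/-!
# SQ-L8: the lower bound for the condition number

Let `M = ξ⁻¹`, `b = ‖M‖`, `N = ‖ξ‖`, so `‖M v‖ ≤ b ‖v‖` and `‖v‖ ≤ N ‖M v‖`. Put `t_i = T e_i` and
`ν_i = √(1 + δ - s_i²)`.

(1) `‖M (T v)‖ ≤ ‖M v‖` (apply `ξ⁻¹ T ξ` to `M v`), so
`∑ ‖M t_i‖² ≤ ∑ ‖M e_i‖² = ∑ ‖M e_(π i)‖²`.

(2) For each `i`, with `u = e_(π i) - t_i`, `v = e_(π i) + t_i`:
`‖M e_(π i)‖² - ‖M t_i‖² = Re ⟨M u, M v⟩`, `Re ⟨u, v⟩ = 1 - (1 + δ) = -δ`,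
`‖u‖² = 2 + δ - 2 s_i`, `‖v‖² = 2 + δ + 2 s_i`, so
`‖u‖² ‖v‖² = (2+δ)² - 4 s_i² = 4 ν_i² + δ²`, and `‖u‖ ‖v‖ ≤ 2 ν_i + δ`. For `θ > 0`:
`4 Re ⟨M u, M v⟩ = ‖M (θ u + v/θ)‖² - ‖M (θ u - v/θ)‖² ≤ b² ‖θ u + v/θ‖² - N⁻² ‖θ u - v/θ‖²`
`= (b² - N⁻²) (θ² ‖u‖² + ‖v‖²/θ²) + 2 (b² + N⁻²) Re ⟨u, v⟩`. With `θ² = ‖v‖/‖u‖`
(`u, v ≠ 0` because `‖u‖ ‖v‖ ≥ δ > 0`), and `b² ≥ N⁻²` (as `b N ≥ 1`, from `ξ ξ⁻¹ = 1` at `e_i`):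
`4 Re ⟨M u, M v⟩ ≤ 2 (b² - N⁻²) (2 ν_i + δ) - 2 (b² + N⁻²) δ = 4 ((b² - N⁻²) ν_i - N⁻² δ)`.

(3) Sum: `0 ≤ (b² - N⁻²) ∑ ν_i - k N⁻² δ`, multiply by `N²`.
(`k = 0` is trivial.)
-/

set_option autoImplicit false

open scoped ComplexConjugate InnerProductSpace

namespace Pool.Agent.Helper69.SQ

private theorem low_core {H : Type} [NormedAddCommGroup H] [InnerProductSpace ℂ H]
    (M : H →L[ℂ] H) {b N : ℝ} (hM : ∀ v, ‖M v‖ ≤ b * ‖v‖) (hN : ∀ v, ‖v‖ ≤ N * ‖M v‖) (x y : H) :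
    4 * (N ^ 2 * (⟪M x, M y⟫_ℂ).re) ≤
      ((N * b) ^ 2 - 1) * (‖x‖ ^ 2 + ‖y‖ ^ 2) + 2 * ((N * b) ^ 2 + 1) * (⟪x, y⟫_ℂ).re := by
  have h1 : ‖M (x + y)‖ ^ 2 ≤ (b * ‖x + y‖) ^ 2 := pow_le_pow_left₀ (norm_nonneg _) (hM _) 2
  have h2 : ‖x - y‖ ^ 2 ≤ (N * ‖M (x - y)‖) ^ 2 := pow_le_pow_left₀ (norm_nonneg _) (hN _) 2
  have h3 : ‖M (x + y)‖ ^ 2 = ‖M x‖ ^ 2 + 2 * (⟪M x, M y⟫_ℂ).re + ‖M y‖ ^ 2 := by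
    rw [map_add]
    exact norm_add_sq (𝕜 := ℂ) (M x) (M y)
  have h4 : ‖M (x - y)‖ ^ 2 = ‖M x‖ ^ 2 - 2 * (⟪M x, M y⟫_ℂ).re + ‖M y‖ ^ 2 := by
    rw [map_sub]
    exact norm_sub_sq (𝕜 := ℂ) (M x) (M y)
  have h5 : ‖x + y‖ ^ 2 = ‖x‖ ^ 2 + 2 * (⟪x, y⟫_ℂ).re + ‖y‖ ^ 2 := norm_add_sq (𝕜 := ℂ) x y
  have h6 : ‖x - y‖ ^ 2 = ‖x‖ ^ 2 - 2 * (⟪x, y⟫_ℂ).re + ‖y‖ ^ 2 := norm_sub_sq (𝕜 := ℂ) x y
  rw [mul_pow, h5, h3] at h1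
  rw [mul_pow, h4, h6] at h2
  have h7 := mul_le_mul_of_nonneg_left h1 (sq_nonneg N)
  nlinarith [h7, h2]

private theorem low_step {H : Type} [NormedAddCommGroup H] [InnerProductSpace ℂ H]
    (M : H →L[ℂ] H) {b N : ℝ} (hM : ∀ v, ‖M v‖ ≤ b * ‖v‖) (hN : ∀ v, ‖v‖ ≤ N * ‖M v‖)
    (hbN : 1 ≤ (N * b) ^ 2) (p t : H) (δ s : ℝ) (hδ : 0 < δ) (hs0 : 0 ≤ s) (hs1 : s ≤ 1)
    (hp : ‖p‖ = 1) (ht : ‖t‖ ^ 2 = 1 + δ) (hpt : (⟪p, t⟫_ℂ).re = s) :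
    N ^ 2 * (‖M p‖ ^ 2 - ‖M t‖ ^ 2) ≤ ((N * b) ^ 2 - 1) * √(1 + δ - s ^ 2) - δ := by
  have htp : (⟪t, p⟫_ℂ).re = s := by
    rw [← hpt]
    exact inner_re_symm (𝕜 := ℂ) t p
  set u := p - t with hu
  set v := p + t with hv
  have hu2 : ‖u‖ ^ 2 = 2 + δ - 2 * s := by
    rw [hu, norm_sub_sq (𝕜 := ℂ), hp, ht]
    show 1 ^ 2 - 2 * (⟪p, t⟫_ℂ).re + (1 + δ) = _
    rw [hpt]; ring
  have hv2 : ‖v‖ ^ 2 = 2 + δ + 2 * s := by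
    rw [hv, norm_add_sq (𝕜 := ℂ), hp, ht]
    show 1 ^ 2 + 2 * (⟪p, t⟫_ℂ).re + (1 + δ) = _
    rw [hpt]; ring
  have huv : (⟪u, v⟫_ℂ).re = -δ := by
    have h1 : (⟪p, p⟫_ℂ).re = ‖p‖ ^ 2 := inner_self_eq_norm_sq (𝕜 := ℂ) p
    have h2 : (⟪t, t⟫_ℂ).re = ‖t‖ ^ 2 := inner_self_eq_norm_sq (𝕜 := ℂ) t
    rw [hu, hv, inner_sub_left, inner_add_right, inner_add_right]
    simp only [Complex.add_re, Complex.sub_re]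
    rw [h1, h2, hpt, htp, hp, ht]
    ring
  have hMuv : (⟪M u, M v⟫_ℂ).re = ‖M p‖ ^ 2 - ‖M t‖ ^ 2 := by
    have h1 : (⟪M p, M p⟫_ℂ).re = ‖M p‖ ^ 2 := inner_self_eq_norm_sq (𝕜 := ℂ) (M p)
    have h2 : (⟪M t, M t⟫_ℂ).re = ‖M t‖ ^ 2 := inner_self_eq_norm_sq (𝕜 := ℂ) (M t)
    have h3 : (⟪M t, M p⟫_ℂ).re = (⟪M p, M t⟫_ℂ).re := inner_re_symm (𝕜 := ℂ) _ _
    rw [hu, hv, map_sub, map_add, inner_sub_left, inner_add_right, inner_add_right]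
    simp only [Complex.add_re, Complex.sub_re]
    rw [h1, h2, h3]
    ring
  have hu0 : 0 < ‖u‖ := by
    have h1 : 0 < ‖u‖ ^ 2 := by rw [hu2]; linarith
    rcases (norm_nonneg u).eq_or_lt with h2 | h2
    · rw [← h2] at h1
      norm_num at h1
    · exact h2
  have hv0 : 0 < ‖v‖ := by
    have h1 : 0 < ‖v‖ ^ 2 := by rw [hv2]; linarith
    rcases (norm_nonneg v).eq_or_lt with h2 | h2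
    · rw [← h2] at h1
      norm_num at h1
    · exact h2
  set θ := √(‖v‖ / ‖u‖) with hθ
  have hθ0 : 0 < θ := Real.sqrt_pos.2 (div_pos hv0 hu0)
  have hθ2 : θ ^ 2 = ‖v‖ / ‖u‖ := Real.sq_sqrt (div_pos hv0 hu0).le
  have key := low_core M hM hN ((θ : ℂ) • u) ((θ⁻¹ : ℂ) • v)
  have k1 : (⟪M ((θ : ℂ) • u), M ((θ⁻¹ : ℂ) • v)⟫_ℂ) = ⟪M u, M v⟫_ℂ := by
    rw [map_smul, map_smul, inner_smul_left, inner_smul_right, Complex.conj_ofReal, ← mul_assoc,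
      mul_inv_cancel₀ (by exact_mod_cast hθ0.ne'), one_mul]
  have k2 : (⟪((θ : ℂ) • u), ((θ⁻¹ : ℂ) • v)⟫_ℂ) = ⟪u, v⟫_ℂ := by
    rw [inner_smul_left, inner_smul_right, Complex.conj_ofReal, ← mul_assoc,
      mul_inv_cancel₀ (by exact_mod_cast hθ0.ne'), one_mul]
  have k3 : ‖((θ : ℂ) • u)‖ ^ 2 = ‖u‖ * ‖v‖ := by
    rw [norm_smul, mul_pow, Complex.norm_real, Real.norm_eq_abs, sq_abs, hθ2]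
    field_simp
  have k4 : ‖((θ⁻¹ : ℂ) • v)‖ ^ 2 = ‖u‖ * ‖v‖ := by
    rw [norm_smul, mul_pow, norm_inv, Complex.norm_real, Real.norm_eq_abs, inv_pow, sq_abs, hθ2]
    field_simp
  rw [k1, k2, k3, k4, huv, hMuv] at key
  have hν : 0 ≤ 1 + δ - s ^ 2 := by nlinarith
  set ν := √(1 + δ - s ^ 2) with hνd
  have hν0 : 0 ≤ ν := Real.sqrt_nonneg _
  have hν2 : ν ^ 2 = 1 + δ - s ^ 2 := Real.sq_sqrt hν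
  have h8 : ‖u‖ * ‖v‖ ≤ 2 * ν + δ := by
    refine le_of_sq_le_sq ?_ (by positivity)
    rw [mul_pow, hu2, hv2]
    nlinarith [mul_nonneg hν0 hδ.le]
  have h9 := mul_le_mul_of_nonneg_left h8 (by linarith : 0 ≤ (N * b) ^ 2 - 1)
  nlinarith [h9, key]

theorem sim_low {H : Type} [NormedAddCommGroup H] [InnerProductSpace ℂ H] {k : ℕ}
    (π : Equiv.Perm (Fin k)) (e : Fin k → H) (he : ∀ i, ‖e i‖ = 1) (T : H →L[ℂ] H) (δ : ℝ)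
    (hδ : 0 < δ) (s : Fin k → ℝ) (hs0 : ∀ i, 0 ≤ s i) (hs1 : ∀ i, s i ≤ 1)
    (hT : ∀ i, ‖T (e i)‖ ^ 2 = 1 + δ) (hTs : ∀ i, (⟪e (π i), T (e i)⟫_ℂ).re = s i)
    (ξ : H ≃L[ℂ] H) (hξ : ‖(ξ.symm : H →L[ℂ] H) ∘L T ∘L (ξ : H →L[ℂ] H)‖ ≤ 1) :
    k * δ ≤ ((‖(ξ : H →L[ℂ] H)‖ * ‖(ξ.symm : H →L[ℂ] H)‖) ^ 2 - 1) *
      ∑ i, √(1 + δ - s i ^ 2) := by
  rcases Nat.eq_zero_or_pos k with hk | hk
  · subst hk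
    simp
  set M : H →L[ℂ] H := (ξ.symm : H →L[ℂ] H) with hMd
  set b := ‖M‖ with hb
  set N := ‖(ξ : H →L[ℂ] H)‖ with hNd
  have hM : ∀ v, ‖M v‖ ≤ b * ‖v‖ := fun v => M.le_opNorm v
  have hN : ∀ v, ‖v‖ ≤ N * ‖M v‖ := by
    intro v
    have h1 := (ξ : H →L[ℂ] H).le_opNorm (M v)
    have h2 : (ξ : H →L[ℂ] H) (M v) = v := by simp [hMd]
    rwa [h2] at h1
  have hbN : 1 ≤ (N * b) ^ 2 := by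
    have h1 := hN (e ⟨0, hk⟩)
    have h2 := hM (e ⟨0, hk⟩)
    rw [he] at h1 h2
    have h3 : 0 ≤ N := norm_nonneg _
    have h4 : 1 ≤ N * b := h1.trans (by simpa using mul_le_mul_of_nonneg_left h2 h3)
    nlinarith
  have h1 : ∀ v, ‖M (T v)‖ ≤ ‖M v‖ := by
    intro v
    have h2 := (M ∘L T ∘L (ξ : H →L[ℂ] H)).le_opNorm (M v)
    have h3 : (M ∘L T ∘L (ξ : H →L[ℂ] H)) (M v) = M (T v) := by simp [hMd]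
    rw [h3] at h2
    exact h2.trans (mul_le_of_le_one_left (norm_nonneg _) hξ)
  have h2 : ∀ i, N ^ 2 * (‖M (e (π i))‖ ^ 2 - ‖M (T (e i))‖ ^ 2) ≤
      ((N * b) ^ 2 - 1) * √(1 + δ - s i ^ 2) - δ := fun i =>
    low_step M hM hN hbN (e (π i)) (T (e i)) δ (s i) hδ (hs0 i) (hs1 i) (he _) (hT i) (hTs i)
  have h3 := Finset.sum_le_sum fun i (_ : i ∈ Finset.univ) => h2 i
  rw [← Finset.mul_sum, Finset.sum_sub_distrib, Finset.sum_sub_distrib, ← Finset.mul_sum,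
    Finset.sum_const, Finset.card_univ, Fintype.card_fin, nsmul_eq_mul] at h3
  have h4 : ∑ i, ‖M (e (π i))‖ ^ 2 = ∑ i, ‖M (e i)‖ ^ 2 :=
    Equiv.sum_comp π fun i => ‖M (e i)‖ ^ 2
  have h5 : ∑ i, ‖M (T (e i))‖ ^ 2 ≤ ∑ i, ‖M (e i)‖ ^ 2 :=
    Finset.sum_le_sum fun i _ => pow_le_pow_left₀ (norm_nonneg _) (h1 _) 2
  have h6 : 0 ≤ N ^ 2 * (∑ i, ‖M (e (π i))‖ ^ 2 - ∑ i, ‖M (T (e i))‖ ^ 2) := by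
    rw [h4]
    exact mul_nonneg (sq_nonneg _) (by linarith)
  linarith

end Pool.Agent.Helper69.SQ
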