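import Mathlib

/-!
# SQ-L6: the weights

For `k ≥ 1` put `θ = 1/k`, `g_i = cos (θ (i - (k-1)/2))` for `i = 0, ..., k-1` (so
`g_i ≥ cos (1/2) > 0`), `w = cos θ > 0`, `s_i = 1` for `i < k - 1` and
`s_(k-1) = cos (θ (k+1)/2) / cos (θ (k-1)/2)`. Write `i + 1` for the cyclic successor
(`finRotate k i`) and `i - 1` for the cyclic predecessor. Let
`α_i = √(s_i g_(i+1) / (w g_i))`, `γ_i = √(s_(i-1) g_(i-1) / (w g_i))`.
Then `α_i² + γ_i² = (s_i g_(i+1) + s_(i-1) g_(i-1)) / (w g_i) = 2`: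
for `0 < i < k-1` this is `g_(i+1) + g_(i-1) = 2 cos θ g_i`; for `i = k-1` note that
`s_(k-1) g_0 = cos (θ (k+1)/2)` is the value of `cos (θ (i - (k-1)/2))` at `i = k` (because
`g_0 = g_(k-1) = cos (θ (k-1)/2)`), for `i = 0` that `s_(k-1) g_(k-1) = cos (θ (k+1)/2)` is its
value at `i = -1`; the same works for `k = 1`, where `s_0 = cos 1 = w` and `g_0 = 1`. And
`w α_i γ_(i+1) = w √(s_i g_(i+1) / (w g_i) * s_i g_i / (w g_(i+1))) = s_i`.
Finally `1 - s_(k-1)² ≤ 2 (1 - s_(k-1))` and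
`1 - s_(k-1) = 2 sin (1/2) sin (1/(2k)) / cos ((k-1)/(2k)) ≤ (1/(2k)) / cos (1/2) ≤ 1/k`,
so that the sum of the `√(1 - s_i²)`, which has only one nonzero term, is at most `√(2/k) ≤ 2/√k`.

Suggestion: it may be easiest to write `k = m + 1` and to use `Fin.lastCases` / `finRotate_succ_apply`
(`finRotate (m+1) i = i + 1`), or to define real functions of the natural number `i.val`.
-/

set_option autoImplicit false

namespace Pool.Agent.Helper69.SQ

theorem weights (k : ℕ) (hk : 1 ≤ k) : ∃ s α γ : Fin k → ℝ,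
    (∀ i, 0 ≤ s i) ∧ (∀ i, s i ≤ 1) ∧ (∀ i, 0 ≤ α i) ∧ (∀ i, 0 ≤ γ i) ∧
    (∀ i, α i ^ 2 + γ i ^ 2 = 2) ∧
    (∀ i, s i = Real.cos (1 / k) * (α i * γ (finRotate k i))) ∧
    ∑ i, √(1 - s i ^ 2) ≤ 2 / √k := by
  obtain ⟨m, rfl⟩ : ∃ m, k = m + 1 := ⟨k - 1, by omega⟩
  have hπ : (3 : ℝ) < Real.pi := Real.pi_gt_three
  set θ : ℝ := 1 / ((m + 1 : ℕ) : ℝ) with hθ
  have hm0 : (0 : ℝ) ≤ m := Nat.cast_nonneg m
  have hθk : θ * ((m : ℝ) + 1) = 1 := by
    rw [hθ]
    push_cast
    field_simp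
  have hθ0 : 0 < θ := by
    rw [hθ]
    positivity
  have hθ1 : θ ≤ 1 := by nlinarith
  have hθm : θ * m ≤ 1 := by nlinarith
  have hw : 0 < Real.cos θ := Real.cos_pos_of_mem_Ioo ⟨by linarith, by linarith⟩
  set c : ℝ → ℝ := fun x => Real.cos (θ * (x - m / 2)) with hc
  have hcpos : ∀ x : ℝ, 0 ≤ x → x ≤ m → 0 < c x := by
    intro x h0 h1
    apply Real.cos_pos_of_mem_Ioo
    constructor <;> nlinarith
  have hc0 : c 0 = Real.cos (θ * m / 2) := by
    rw [hc]
    show Real.cos (θ * (0 - m / 2)) = _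
    rw [← Real.cos_neg]
    congr 1
    ring
  have hcm : c m = Real.cos (θ * m / 2) := by
    rw [hc]
    show Real.cos (θ * (m - m / 2)) = _
    congr 1
    ring
  have hcm1 : c (m + 1) = Real.cos (θ * (m + 2) / 2) := by
    rw [hc]
    show Real.cos (θ * (m + 1 - m / 2)) = _
    congr 1
    ring
  have hcn1 : c (-1) = Real.cos (θ * (m + 2) / 2) := by
    rw [hc]
    show Real.cos (θ * (-1 - m / 2)) = _
    rw [← Real.cos_neg]
    congr 1
    ring
  set q : ℝ := Real.cos (θ * (m + 2) / 2) / Real.cos (θ * m / 2) with hq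
  have hd7 : 7 / 8 ≤ Real.cos (θ * m / 2) := by
    have h1 := Real.one_sub_sq_div_two_le_cos (x := θ * m / 2)
    have h2 : 0 ≤ θ * m / 2 := by positivity
    nlinarith
  have hn0 : 0 ≤ Real.cos (θ * (m + 2) / 2) := by
    apply Real.cos_nonneg_of_mem_Icc
    constructor <;> nlinarith
  have hdiff : Real.cos (θ * m / 2) - Real.cos (θ * (m + 2) / 2) ≤ θ / 2 := by
    rw [Real.cos_sub_cos]
    have e1 : (θ * m / 2 + θ * (m + 2) / 2) / 2 = 1 / 2 := by linarith
    have e2 : (θ * m / 2 - θ * (m + 2) / 2) / 2 = -(θ / 2) := by ring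
    rw [e1, e2, Real.sin_neg]
    have s1 : Real.sin (1 / 2) ≤ 1 / 2 := Real.sin_le (by norm_num)
    have s2 : Real.sin (θ / 2) ≤ θ / 2 := Real.sin_le (by linarith)
    have s3 : 0 ≤ Real.sin (1 / 2) := Real.sin_nonneg_of_nonneg_of_le_pi (by norm_num) (by linarith)
    have s4 : 0 ≤ Real.sin (θ / 2) :=
      Real.sin_nonneg_of_nonneg_of_le_pi (by linarith) (by linarith)
    nlinarith
  have hmono : Real.cos (θ * (m + 2) / 2) ≤ Real.cos (θ * m / 2) := by
    apply Real.cos_le_cos_of_nonneg_of_le_pi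
    · positivity
    · nlinarith
    · nlinarith
  have hd0 : 0 < Real.cos (θ * m / 2) := by linarith
  have hq0 : 0 ≤ q := div_nonneg hn0 hd0.le
  have hq1 : q ≤ 1 := (div_le_one hd0).2 hmono
  have hqd : q * Real.cos (θ * m / 2) = Real.cos (θ * (m + 2) / 2) := by
    rw [hq]
    field_simp
  have h1q : 1 - q ≤ θ := by
    have h1 : (1 - q) * Real.cos (θ * m / 2) ≤ θ / 2 := by
      rw [sub_mul, one_mul, hqd]
      exact hdiff
    nlinarith
  -- the data
  set r := finRotate (m + 1) with hr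
  set g : Fin (m + 1) → ℝ := fun i => c (i : ℕ) with hg
  set s : Fin (m + 1) → ℝ := fun i => if i = Fin.last m then q else 1 with hs
  have hgpos : ∀ i, 0 < g i := fun i =>
    hcpos _ (Nat.cast_nonneg _) (by exact_mod_cast Nat.lt_succ_iff.1 i.2)
  have hs0 : ∀ i, 0 ≤ s i := by
    intro i
    rw [hs]
    dsimp only
    split_ifs
    · exact hq0
    · exact zero_le_one
  have hs1 : ∀ i, s i ≤ 1 := by
    intro i
    rw [hs]
    dsimp only
    split_ifs
    · exact hq1
    · exact le_refl _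
  have hkey : ∀ i : Fin (m + 1), s i * g (r i) = c ((i : ℕ) + 1) := by
    intro i
    by_cases hi : i = Fin.last m
    · subst hi
      have h1 : r (Fin.last m) = 0 := finRotate_last
      rw [h1, hs, hg]
      dsimp only
      rw [if_pos rfl, Fin.val_zero, Nat.cast_zero, hc0, hqd, Fin.val_last, hcm1]
    · have h1 : r i = i + 1 := finRotate_apply i
      have h2 : ((i + 1 : Fin (m + 1)) : ℕ) = (i : ℕ) + 1 := by
        rw [Fin.val_add_one, if_neg hi]
      rw [h1, hs, hg]
      dsimp only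
      rw [if_neg hi, h2, one_mul, Nat.cast_add, Nat.cast_one]
  have hkey2 : ∀ j : Fin (m + 1), s j * g j = c (((r j : Fin (m + 1)) : ℕ) - 1) := by
    intro i
    by_cases hi : i = Fin.last m
    · subst hi
      have h1 : r (Fin.last m) = 0 := finRotate_last
      rw [h1, hs, hg]
      dsimp only
      rw [if_pos rfl, Fin.val_zero, Nat.cast_zero, Fin.val_last, hcm, hqd, zero_sub, hcn1]
    · have h1 : r i = i + 1 := finRotate_apply i
      have h2 : ((i + 1 : Fin (m + 1)) : ℕ) = (i : ℕ) + 1 := by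
        rw [Fin.val_add_one, if_neg hi]
      rw [h1, hs, hg]
      dsimp only
      rw [if_neg hi, h2, one_mul, Nat.cast_add, Nat.cast_one, add_sub_cancel_right]
  have hsum : ∀ x : ℝ, c (x + 1) + c (x - 1) = 2 * Real.cos θ * c x := by
    intro x
    rw [hc]
    show Real.cos (θ * (x + 1 - m / 2)) + Real.cos (θ * (x - 1 - m / 2)) = _
    have e1 : θ * (x + 1 - m / 2) = θ * (x - m / 2) + θ := by ring
    have e2 : θ * (x - 1 - m / 2) = θ * (x - m / 2) - θ := by ring
    rw [e1, e2, Real.cos_add, Real.cos_sub]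
    ring
  refine ⟨s, fun i => √(s i * g (r i) / (Real.cos θ * g i)),
    fun i => √(s (r.symm i) * g (r.symm i) / (Real.cos θ * g i)), hs0, hs1,
    fun i => Real.sqrt_nonneg _, fun i => Real.sqrt_nonneg _, ?_, ?_, ?_⟩
  · intro i
    have h1 : 0 ≤ s i * g (r i) / (Real.cos θ * g i) :=
      div_nonneg (mul_nonneg (hs0 _) (hgpos _).le) (mul_pos hw (hgpos _)).le
    have h2 : 0 ≤ s (r.symm i) * g (r.symm i) / (Real.cos θ * g i) :=
      div_nonneg (mul_nonneg (hs0 _) (hgpos _).le) (mul_pos hw (hgpos _)).le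
    dsimp only
    rw [Real.sq_sqrt h1, Real.sq_sqrt h2, hkey, hkey2, Equiv.apply_symm_apply, ← add_div, hsum]
    have h3 := (hgpos i).ne'
    have h4 := hw.ne'
    have h5 : g i = c ((i : ℕ) : ℝ) := rfl
    rw [← h5]
    field_simp
  · intro i
    dsimp only
    rw [Equiv.symm_apply_apply, ← Real.sqrt_mul
      (div_nonneg (mul_nonneg (hs0 _) (hgpos _).le) (mul_pos hw (hgpos _)).le)]
    have h3 := (hgpos i).ne'
    have h4 := hw.ne'
    have h6 := (hgpos (r i)).ne'
    have e : s i * g (r i) / (Real.cos θ * g i) * (s i * g i / (Real.cos θ * g (r i))) =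
        (s i / Real.cos θ) ^ 2 := by
      field_simp
    rw [e, Real.sqrt_sq (div_nonneg (hs0 _) hw.le)]
    field_simp
  · rw [Finset.sum_eq_single (Fin.last m)]
    · have h1 : s (Fin.last m) = q := by
        rw [hs]
        dsimp only
        rw [if_pos rfl]
      rw [h1, le_div_iff₀ (Real.sqrt_pos.2 (by positivity)), ← Real.sqrt_mul (by nlinarith)]
      have h2 : (2 : ℝ) = √4 := by
        rw [show (4 : ℝ) = 2 ^ 2 by norm_num, Real.sqrt_sq (by norm_num)]
      rw [h2]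
      apply Real.sqrt_le_sqrt
      push_cast
      have h3 : (1 - q ^ 2) ≤ 2 * θ := by nlinarith
      have h4 : (0 : ℝ) ≤ (m : ℝ) + 1 := by positivity
      nlinarith
    · intro i _ hi
      have h1 : s i = 1 := by
        rw [hs]
        dsimp only
        rw [if_neg hi]
      rw [h1]
      norm_num
    · intro h
      exact absurd (Finset.mem_univ _) h

end Pool.Agent.Helper69.SQ
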