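import Pool.Agent.Helper69.SQ.Build
import Pool.Agent.Helper69.SQ.Weights
import Pool.Agent.Helper69.SQ.Shift
import Pool.Agent.Helper69.SQ.SimLow

/-!
# SQ-L9: the lower bound

Let `w = cos (1/k)`, `ζ = sin (1/k)`, so `5/(6k) ≤ ζ ≤ 1/k` (`sin x ≥ x - x³/6`), and `δ = ε ζ`.
Then `0 < δ ≤ ζ²/2` because `ε ≤ 1/(3k²) ≤ 5/(12 k) ≤ ζ/2`. Take the weights of `weights k`, the
operators of `shift_ops (finRotate k)`, the isometries `J e_i = e_i`, `J' e_i = e_(k+i)` of
`EuclideanSpace ℂ (Fin k)` into `EuclideanSpace ℂ (Fin n)` (`2k ≤ n`), and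
`T v = J (τ (J† v)) + J' (ν (J† v))`. By `build_PBdd`, `T` is polynomially `√(1 + 2ε)`-bounded, and
`√(1 + 2ε) ≤ 1 + ε` (use `SIM.PBdd.mono`). For the vectors `J e_i`: `‖J e_i‖ = 1`,
`T (J e_i) = J τ e_i + J' ν e_i`, so `‖T (J e_i)‖² = 1 + δ` and
`⟨J e_(π i), T (J e_i)⟩ = ⟨e_(π i), τ e_i⟩ = s_i`. By `sim_low`:
`k δ ≤ (cond² - 1) ∑ √(1 + δ - s_i²)`, and
`∑ √(1 + δ - s_i²) ≤ k √δ + ∑ √(1 - s_i²) ≤ 1/√k + 2/√k = 3/√k` since `δ ≤ ε/k ≤ 1/k³`. So
`cond² - 1 ≥ k δ √k / 3 ≥ (5/18) ε √k`, and because `ε √k ≤ 1/3`: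
`(1 + ε √k / 12)² = 1 + ε √k / 6 + ε² k / 144 ≤ 1 + (5/18) ε √k ≤ cond²`.
-/

set_option autoImplicit false

open scoped ComplexConjugate InnerProductSpace
open ContinuousLinearMap

namespace Pool.Agent.Helper69.SQ

private theorem pmono {E : Type} [NormedAddCommGroup E] [InnerProductSpace ℂ E] {A : E →L[ℂ] E}
    {K K' : ℝ} (h : K ≤ K') (hA : SIM.PBdd K A) : SIM.PBdd K' A := by
  intro q s hq
  have hs : 0 ≤ s := (norm_nonneg _).trans (hq 0 (by simp))
  exact (hA q s hq).trans (mul_le_mul_of_nonneg_right h hs)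

/-- the coordinate isometry attached to an injection of the index sets -/
private theorem exists_iso {k n : ℕ} (ι : Fin k → Fin n) (hι : Function.Injective ι) :
    ∃ J : EuclideanSpace ℂ (Fin k) →ₗᵢ[ℂ] EuclideanSpace ℂ (Fin n),
      ∀ i, J (EuclideanSpace.single i 1) = EuclideanSpace.single (ι i) 1 := by
  set f : EuclideanSpace ℂ (Fin k) →ₗ[ℂ] EuclideanSpace ℂ (Fin n) :=
    (EuclideanSpace.basisFun (Fin k) ℂ).toBasis.constr ℂ
      (fun i => EuclideanSpace.basisFun (Fin n) ℂ (ι i)) with hf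
  have hv : Orthonormal ℂ (EuclideanSpace.basisFun (Fin k) ℂ).toBasis := by
    rw [OrthonormalBasis.coe_toBasis]
    exact (EuclideanSpace.basisFun (Fin k) ℂ).orthonormal
  have hfv : (f ∘ (EuclideanSpace.basisFun (Fin k) ℂ).toBasis) =
      (EuclideanSpace.basisFun (Fin n) ℂ) ∘ ι := by
    funext i
    simp only [hf, Function.comp_apply, Module.Basis.constr_basis]
  have ho : Orthonormal ℂ (f ∘ (EuclideanSpace.basisFun (Fin k) ℂ).toBasis) := by
    rw [hfv]
    exact (EuclideanSpace.basisFun (Fin n) ℂ).orthonormal.comp ι hι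
  refine ⟨f.isometryOfOrthonormal hv ho, fun i => ?_⟩
  have h1 := congrFun hfv i
  simp only [Function.comp_apply, OrthonormalBasis.coe_toBasis, EuclideanSpace.basisFun_apply] at h1
  exact h1

theorem low_final (k n : ℕ) (hk : 1 ≤ k) (hn : 2 * k ≤ n) (ε : ℝ) (hε : 0 < ε)
    (hε1 : ε ≤ 1 / (3 * (k : ℝ) ^ 2)) :
    ∃ T : EuclideanSpace ℂ (Fin n) →L[ℂ] EuclideanSpace ℂ (Fin n), SIM.PBdd (1 + ε) T ∧
      ∀ ξ : EuclideanSpace ℂ (Fin n) ≃L[ℂ] EuclideanSpace ℂ (Fin n),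
        ‖(ξ.symm : EuclideanSpace ℂ (Fin n) →L[ℂ] EuclideanSpace ℂ (Fin n)) ∘L T ∘L
          (ξ : EuclideanSpace ℂ (Fin n) →L[ℂ] EuclideanSpace ℂ (Fin n))‖ ≤ 1 →
        1 + ε * √k / 12 ≤ ‖(ξ : EuclideanSpace ℂ (Fin n) →L[ℂ] EuclideanSpace ℂ (Fin n))‖ *
          ‖(ξ.symm : EuclideanSpace ℂ (Fin n) →L[ℂ] EuclideanSpace ℂ (Fin n))‖ := by
  have hk0 : (0 : ℝ) < k := by exact_mod_cast hk
  have hk1 : (1 : ℝ) ≤ k := by exact_mod_cast hk
  set x : ℝ := 1 / (k : ℝ) with hx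
  have hx0 : 0 < x := by positivity
  have hx1 : x ≤ 1 := by
    rw [hx, div_le_one hk0]
    exact hk1
  have hkx : k * x = 1 := by
    rw [hx]
    field_simp
  have hε2 : ε ≤ x ^ 2 / 3 := by
    refine hε1.trans (le_of_eq ?_)
    rw [hx]
    field_simp
  have hζ0 : 0 < Real.sin x := Real.sin_pos_of_pos_of_lt_pi hx0 (by linarith [Real.pi_gt_three])
  have hw0 : 0 ≤ Real.cos x := Real.cos_nonneg_of_mem_Icc ⟨by linarith [Real.pi_gt_three],
    by linarith [Real.pi_gt_three]⟩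
  have hwζ : Real.cos x ^ 2 + Real.sin x ^ 2 = 1 := Real.cos_sq_add_sin_sq x
  have hζle : Real.sin x ≤ x := (Real.sin_lt hx0).le
  have hζge : 3 / 4 * x ≤ Real.sin x := by
    have h1 := Real.sin_gt_sub_cube hx0
    have h2 : x ^ 3 ≤ x := by
      have : x ^ 3 = x * x ^ 2 := by ring
      rw [this]
      exact mul_le_of_le_one_right hx0.le (pow_le_one₀ hx0.le hx1)
    linarith
  set δ : ℝ := ε * Real.sin x with hδdef
  have hδ0 : 0 < δ := mul_pos hε hζ0
  have hεζ : ε ≤ Real.sin x / 2 := by nlinarith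
  have hδζ : δ ≤ Real.sin x ^ 2 / 2 := by
    rw [hδdef]
    nlinarith
  obtain ⟨s, α, γ, hs0, hs1, hα, hγ, hαγ, hsw, hsum⟩ := weights k hk
  obtain ⟨τ, A, B, ν, hτe, hτ1, hfac, hσ, hAB, hν⟩ := shift_ops (finRotate k) s α γ (Real.cos x) δ
    hw0 (Real.cos_le_one x) hδ0.le hs0 hs1 hα hγ hαγ hsw
  have hinj1 : Function.Injective (fun i : Fin k => (⟨i.1, by omega⟩ : Fin n)) := by
    intro i j hij
    simpa [Fin.ext_iff] using hij
  have hinj2 : Function.Injective (fun i : Fin k => (⟨k + i.1, by omega⟩ : Fin n)) := by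
    intro i j hij
    simpa [Fin.ext_iff] using hij
  obtain ⟨J, hJe⟩ := exists_iso _ hinj1
  obtain ⟨J', hJe'⟩ := exists_iso _ hinj2
  have hrepr : ∀ v : EuclideanSpace ℂ (Fin k), v = ∑ i, v i • EuclideanSpace.single i (1 : ℂ) := by
    intro v
    conv_lhs => rw [← (EuclideanSpace.basisFun (Fin k) ℂ).sum_repr v]
    simp
  have hJJ : ∀ v w, ⟪J v, J' w⟫_ℂ = 0 := by
    intro v w
    rw [hrepr v, hrepr w, map_sum, map_sum, sum_inner]
    refine Finset.sum_eq_zero fun i _ => ?_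
    rw [inner_sum]
    refine Finset.sum_eq_zero fun j _ => ?_
    rw [map_smul, map_smul, hJe, hJe', inner_smul_left, inner_smul_right]
    have : ⟪(EuclideanSpace.single (⟨i.1, by omega⟩ : Fin n) (1 : ℂ) : EuclideanSpace ℂ (Fin n)),
        EuclideanSpace.single (⟨k + j.1, by omega⟩ : Fin n) 1⟫_ℂ = 0 := by
      rw [EuclideanSpace.inner_single_left]
      have hne : (⟨i.1, by omega⟩ : Fin n) ≠ ⟨k + j.1, by omega⟩ := by
        intro h
        have := congrArg Fin.val h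
        simp only at this
        omega
      simp [hne]
    rw [this]
    simp
  have hadj : ∀ v, adjoint J.toContinuousLinearMap (J v) = v := by
    intro v
    refine ext_inner_left ℂ fun w => ?_
    rw [adjoint_inner_right]
    exact J.inner_map_map w v
  set T : EuclideanSpace ℂ (Fin n) →L[ℂ] EuclideanSpace ℂ (Fin n) :=
    J.toContinuousLinearMap ∘L (τ ∘L adjoint J.toContinuousLinearMap) +
      J'.toContinuousLinearMap ∘L (ν ∘L adjoint J.toContinuousLinearMap) with hTdef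
  have hT : ∀ v, T v = J (τ (adjoint J.toContinuousLinearMap v)) +
      J' (ν (adjoint J.toContinuousLinearMap v)) := fun v => rfl
  have hP := build_PBdd τ A B ν (Real.cos x) (Real.sin x) δ hw0 hζ0 hwζ hδ0 hδζ hτ1 hfac hσ hAB hν
    J J' hJJ T hT
  refine ⟨T, ?_, ?_⟩
  · refine pmono ?_ hP
    have h1 : 1 + 2 * δ / Real.sin x = 1 + 2 * ε := by
      rw [hδdef]
      field_simp
    rw [h1, Real.sqrt_le_left (by linarith)]
    nlinarith [sq_nonneg ε]
  · intro ξ hξ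
    set e : Fin k → EuclideanSpace ℂ (Fin n) := fun i => J (EuclideanSpace.single i 1) with he
    have hTe : ∀ i, T (e i) = J (τ (EuclideanSpace.single i 1)) +
        J' (ν (EuclideanSpace.single i 1)) := by
      intro i
      rw [hT, he]
      simp only [hadj]
    have he1 : ∀ i, ‖e i‖ = 1 := by
      intro i
      simp [he]
    have hTn : ∀ i, ‖T (e i)‖ ^ 2 = 1 + δ := by
      intro i
      rw [hTe, @norm_add_sq ℂ, hJJ, LinearIsometry.norm_map, LinearIsometry.norm_map]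
      have h1 := hν (EuclideanSpace.single i 1)
      have h2 : ‖(EuclideanSpace.single i (1 : ℂ) : EuclideanSpace ℂ (Fin k))‖ = 1 := by simp
      rw [h2] at h1
      simp only [map_zero, mul_zero, add_zero]
      linarith
    have hTs : ∀ i, (⟪e (finRotate k i), T (e i)⟫_ℂ).re = s i := by
      intro i
      rw [hTe, inner_add_right, he]
      simp only [hJJ, LinearIsometry.inner_map_map, add_zero, hτe, inner_smul_right]
      rw [inner_self_eq_norm_sq_to_K]
      simp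
    have hlow := sim_low (finRotate k) e he1 T δ hδ0 s hs0 hs1 hTn hTs ξ hξ
    set c : ℝ := ‖(ξ : EuclideanSpace ℂ (Fin n) →L[ℂ] EuclideanSpace ℂ (Fin n))‖ *
      ‖(ξ.symm : EuclideanSpace ℂ (Fin n) →L[ℂ] EuclideanSpace ℂ (Fin n))‖ with hc
    have hc0 : 0 ≤ c := by positivity
    have hsq0 : 0 < √(k : ℝ) := Real.sqrt_pos.2 hk0
    have hsqk : √(k : ℝ) * √(k : ℝ) = k := Real.mul_self_sqrt hk0.le
    have hS0 : 0 ≤ ∑ i, √(1 + δ - s i ^ 2) := Finset.sum_nonneg fun i _ => Real.sqrt_nonneg _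
    have hS : ∑ i, √(1 + δ - s i ^ 2) ≤ 3 / √k := by
      have h1 : ∀ i, √(1 + δ - s i ^ 2) ≤ √δ + √(1 - s i ^ 2) := by
        intro i
        have h2 : (0 : ℝ) ≤ 1 - s i ^ 2 := by nlinarith [hs0 i, hs1 i]
        rw [Real.sqrt_le_left (by positivity)]
        nlinarith [Real.sq_sqrt hδ0.le, Real.sq_sqrt h2, Real.sqrt_nonneg δ,
          Real.sqrt_nonneg (1 - s i ^ 2), mul_nonneg (Real.sqrt_nonneg δ)
          (Real.sqrt_nonneg (1 - s i ^ 2))]
      have h3 : ∑ i, √(1 + δ - s i ^ 2) ≤ k * √δ + 2 / √k := by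
        calc ∑ i, √(1 + δ - s i ^ 2) ≤ ∑ i, (√δ + √(1 - s i ^ 2)) :=
              Finset.sum_le_sum fun i _ => h1 i
          _ = k * √δ + ∑ i, √(1 - s i ^ 2) := by
              rw [Finset.sum_add_distrib]
              simp
          _ ≤ _ := by linarith
      have h4 : k * √δ ≤ 1 / √k := by
        rw [le_div_iff₀ hsq0]
        have h5 : δ ≤ x ^ 3 := by
          rw [hδdef]
          nlinarith [mul_pos hx0 hx0]
        have h6 : √δ * √(k : ℝ) ≤ x := by
          rw [← Real.sqrt_mul hδ0.le, Real.sqrt_le_left hx0.le]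
          calc δ * k ≤ x ^ 3 * k := mul_le_mul_of_nonneg_right h5 hk0.le
            _ = x ^ 2 * (k * x) := by ring
            _ = x ^ 2 := by rw [hkx, mul_one]
        calc k * √δ * √(k : ℝ) = k * (√δ * √(k : ℝ)) := by ring
          _ ≤ k * x := mul_le_mul_of_nonneg_left h6 hk0.le
          _ = 1 := hkx
      calc ∑ i, √(1 + δ - s i ^ 2) ≤ 1 / √k + 2 / √k := by linarith
        _ = 3 / √k := by ring
    have hkd : 0 < k * δ := mul_pos hk0 hδ0
    have hcpos : 0 < c ^ 2 - 1 := by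
      by_contra hcon
      push Not at hcon
      have := mul_nonpos_of_nonpos_of_nonneg hcon hS0
      linarith
    have h7 : k * δ ≤ (c ^ 2 - 1) * (3 / √k) := hlow.trans (mul_le_mul_of_nonneg_left hS hcpos.le)
    have h8 : k * δ * √k ≤ 3 * (c ^ 2 - 1) := by
      calc k * δ * √k ≤ (c ^ 2 - 1) * (3 / √k) * √k := mul_le_mul_of_nonneg_right h7 hsq0.le
        _ = 3 * (c ^ 2 - 1) := by
          field_simp
    have h9 : 3 / 4 * ε ≤ k * δ := by
      calc 3 / 4 * ε = k * (ε * (3 / 4 * x)) := by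
            have : k * (ε * (3 / 4 * x)) = 3 / 4 * ε * (k * x) := by ring
            rw [this, hkx, mul_one]
        _ ≤ k * δ := by
          refine mul_le_mul_of_nonneg_left ?_ hk0.le
          exact mul_le_mul_of_nonneg_left hζge hε.le
    have h10 : ε * √k / 4 ≤ c ^ 2 - 1 := by
      have := mul_le_mul_of_nonneg_right h9 hsq0.le
      nlinarith
    have h11 : ε * √k ≤ 1 := by
      have h12 : √(k : ℝ) ≤ k := by
        rw [Real.sqrt_le_left hk0.le]
        nlinarith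
      calc ε * √k ≤ x ^ 2 / 3 * k := mul_le_mul hε2 h12 hsq0.le (by positivity)
        _ = x / 3 * (k * x) := by ring
        _ ≤ 1 := by
          rw [hkx]
          linarith
    have hy0 : 0 < ε * √k := mul_pos hε hsq0
    have h13 : (1 + ε * √k / 12) ^ 2 ≤ c ^ 2 := by nlinarith
    exact (sq_le_sq₀ (by positivity) hc0).1 h13

end Pool.Agent.Helper69.SQ
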