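import Pool.Agent.Helper69.SIM.Dual

/-!
# SQ-U10: the metric from the trace inequality

This is `SIM.exists_weighted`, `SIM.conMap_weighted`, `SIM.con_finite`, `SIM.exists_metric`
with an abstract hypothesis in the place of the dual inequality.
-/

set_option autoImplicit false

open scoped ComplexConjugate InnerProductSpace
open ContinuousLinearMap

namespace Pool.Agent.Helper69.SQ

open SIM

variable {E : Type} [NormedAddCommGroup E] [InnerProductSpace ℂ E] [FiniteDimensional ℂ E]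

/-- the abstract dual inequality -/
def Hyp {m : ℕ} (T : E →L[ℂ] E) (κ : ℝ) : Prop :=
  ∀ (U : E →L[ℂ] E) (η : OrthonormalBasis (Fin (m + 1)) ℂ E) (d : Fin (m + 1) → ℝ),
      (∀ v, ‖U v‖ ^ 2 - ‖U (adjoint T v)‖ ^ 2 = ∑ k, d k * ‖⟪η k, v⟫_ℂ‖ ^ 2) →
        ∑ k, (max (d k) 0 - d k) ≤ κ * ∑ k, max (d k) 0

/-- an admissible `G` for one nonnegative combination of the constraints -/
theorem metric_weighted {m : ℕ} (hm : Module.finrank ℂ E = m + 1) (T : E →L[ℂ] E) (κ : ℝ)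
    (hκ1 : 1 ≤ κ) (hyp : Hyp (m := m) T κ) {ι : Type} [Fintype ι] (x : ι → E) (w : ι → ℝ)
    (hw0 : ∀ j, 0 ≤ w j) : ∃ G ∈ GG E κ,
      0 ≤ ∑ j, ((⟪x j, G (x j)⟫_ℂ).re - (⟪T (x j), G (T (x j))⟫_ℂ).re) * w j := by
  -- the operator `P`
  obtain ⟨U, hU⟩ := exists_sqrt (comb x w) (comb_selfAdjoint _ _)
    (fun ξ => by
      rw [re_inner_comb]
      exact Finset.sum_nonneg fun j _ => mul_nonneg (hw0 j) (sq_nonneg _))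
  have hU' : ∀ ξ, ‖U ξ‖ ^ 2 = ∑ j, w j * ‖⟪x j, ξ⟫_ℂ‖ ^ 2 := fun ξ => by
    rw [hU, re_inner_comb]
  obtain ⟨S, hS⟩ : ∃ S : E →L[ℂ] E, S = adjoint T := ⟨adjoint T, rfl⟩
  have hTS : ∀ y z, ⟪T y, z⟫_ℂ = ⟪y, S z⟫_ℂ := fun y z => by
    rw [hS, adjoint_inner_right]
  -- the operator `D` and its eigenbasis
  have hDself : IsSelfAdjoint (adjoint U ∘L U - adjoint (U ∘L S) ∘L (U ∘L S)) := by
    refine IsSelfAdjoint.sub ?_ ?_ <;>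
    · rw [isSelfAdjoint_iff', adjoint_comp, adjoint_adjoint]
  have hDq : ∀ ξ, (⟪ξ, (adjoint U ∘L U - adjoint (U ∘L S) ∘L (U ∘L S)) ξ⟫_ℂ).re =
      ‖U ξ‖ ^ 2 - ‖U (S ξ)‖ ^ 2 := by
    intro ξ
    simp only [sub_apply, comp_apply, inner_sub_right, adjoint_inner_right, Complex.sub_re]
    rw [inner_self_eq_norm_sq_to_K, inner_self_eq_norm_sq_to_K]
    norm_cast
  obtain ⟨η, d, hηd⟩ := exists_diag hm _ hDself
  have hDsum : ∀ ξ, ‖U ξ‖ ^ 2 - ‖U (S ξ)‖ ^ 2 = ∑ k, d k * ‖⟪η k, ξ⟫_ℂ‖ ^ 2 := fun ξ => by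
    rw [← hDq, hηd]
  have hDη : ∀ k, ‖U (η k)‖ ^ 2 - ‖U (S (η k))‖ ^ 2 = d k := by
    intro k
    rw [hDsum, sum_basis]
  have key := hyp U η d (fun v => by rw [← hS]; exact hDsum v)
  -- the operator `G`
  set g : Fin (m + 1) → ℝ := fun k => if 0 < d k then κ else 1 with hg
  have hg1 : ∀ k, 1 ≤ g k ∧ g k ≤ κ := by
    intro k
    simp only [hg]
    split_ifs
    · exact ⟨hκ1, le_refl _⟩
    · exact ⟨le_refl _, hκ1⟩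
  have hpar : ∀ ξ, ∑ k, ‖⟪η k, ξ⟫_ℂ‖ ^ 2 = ‖ξ‖ ^ 2 := fun ξ => η.sum_sq_norm_inner_right ξ
  have hG : comb (fun k => η k) g ∈ GG E κ := by
    refine ⟨comb_selfAdjoint _ _, fun ξ => ?_⟩
    rw [re_inner_comb, ← hpar ξ, Finset.mul_sum]
    constructor
    · refine Finset.sum_le_sum fun k _ => ?_
      exact le_mul_of_one_le_left (sq_nonneg _) (hg1 k).1
    · refine Finset.sum_le_sum fun k _ => ?_
      exact mul_le_mul_of_nonneg_right (hg1 k).2 (sq_nonneg _)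
  refine ⟨_, hG, ?_⟩
  have e3 : ∀ j, ((⟪x j, comb (fun k => η k) g (x j)⟫_ℂ).re -
      (⟪T (x j), comb (fun k => η k) g (T (x j))⟫_ℂ).re) * w j =
        ∑ k, g k * (w j * ‖⟪x j, η k⟫_ℂ‖ ^ 2 - w j * ‖⟪x j, S (η k)⟫_ℂ‖ ^ 2) := by
    intro j
    rw [re_inner_comb, re_inner_comb, ← Finset.sum_sub_distrib, Finset.sum_mul]
    refine Finset.sum_congr rfl fun k _ => ?_
    have e4 : ‖⟪η k, x j⟫_ℂ‖ = ‖⟪x j, η k⟫_ℂ‖ := norm_inner_symm _ _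
    have e5 : ‖⟪η k, T (x j)⟫_ℂ‖ = ‖⟪x j, S (η k)⟫_ℂ‖ := by
      rw [norm_inner_symm, hTS]
    rw [e4, e5]
    ring
  rw [Finset.sum_congr rfl fun j _ => e3 j, Finset.sum_comm]
  have e6 : ∀ k, ∑ j, g k * (w j * ‖⟪x j, η k⟫_ℂ‖ ^ 2 - w j * ‖⟪x j, S (η k)⟫_ℂ‖ ^ 2) =
      κ * max (d k) 0 - (max (d k) 0 - d k) := by
    intro k
    rw [← Finset.mul_sum, Finset.sum_sub_distrib, ← hU', ← hU', hDη]
    simp only [hg]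
    split_ifs with h1
    · rw [max_eq_left h1.le]; ring
    · rw [max_eq_right (not_lt.1 h1)]; ring
  rw [Finset.sum_congr rfl fun k _ => e6 k, Finset.sum_sub_distrib, ← Finset.mul_sum]
  linarith

theorem metric_conMap_weighted {m : ℕ} (hm : Module.finrank ℂ E = m + 1) (T : E →L[ℂ] E) (κ : ℝ)
    (hκ1 : 1 ≤ κ) (hyp : Hyp (m := m) T κ) (u : Finset E) (w : u → ℝ) (hw : ∀ j, 0 ≤ w j) :
    ∃ x ∈ conMap T u '' GG E κ, 0 ≤ ∑ j, x j * w j := by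
  obtain ⟨G, hG, h0⟩ := metric_weighted hm T κ hκ1 hyp (fun j : u => (j : E)) w hw
  exact ⟨conMap T u G, ⟨G, hG, rfl⟩, h0⟩

/-- finitely many constraints can be satisfied together -/
theorem metric_con_finite {m : ℕ} (hm : Module.finrank ℂ E = m + 1) (T : E →L[ℂ] E) (κ : ℝ)
    (hκ1 : 1 ≤ κ) (hyp : Hyp (m := m) T κ) (u : Finset E) :
    (GG E κ ∩ ⋂ ξ ∈ u, con T ξ).Nonempty := by
  have hκ0 : (0 : ℝ) ≤ κ := by linarith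
  obtain ⟨y, hyim, hy⟩ := exists_nonneg (conMap T u '' GG E κ)
    (conMap_image_compact T u _ hκ0) (conMap_image_convex T u _)
    (metric_conMap_weighted hm T κ hκ1 hyp u)
  obtain ⟨G, hG, hGy⟩ := hyim
  refine ⟨G, hG, ?_⟩
  rw [Set.mem_iInter₂]
  intro ξ hξ
  have h2 := hy ⟨ξ, hξ⟩
  rw [← hGy] at h2
  have h1 : 0 ≤ (⟪ξ, G ξ⟫_ℂ).re - (⟪T ξ, G (T ξ)⟫_ℂ).re := h2
  change (⟪T ξ, G (T ξ)⟫_ℂ).re ≤ (⟪ξ, G ξ⟫_ℂ).re
  linarith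

theorem metric_of_hyp {m : ℕ} (hm : Module.finrank ℂ E = m + 1) (T : E →L[ℂ] E) (κ : ℝ)
    (hκ : 1 ≤ κ)
    (hyp : ∀ (U : E →L[ℂ] E) (η : OrthonormalBasis (Fin (m + 1)) ℂ E) (d : Fin (m + 1) → ℝ),
      (∀ v, ‖U v‖ ^ 2 - ‖U (adjoint T v)‖ ^ 2 = ∑ k, d k * ‖⟪η k, v⟫_ℂ‖ ^ 2) →
        ∑ k, (max (d k) 0 - d k) ≤ κ * ∑ k, max (d k) 0) :
    ∃ R : E →L[ℂ] E, (∀ ξ, ‖ξ‖ ≤ ‖R ξ‖) ∧ (∀ ξ, ‖R ξ‖ ≤ √κ * ‖ξ‖) ∧
      ∀ ξ, ‖R (T ξ)‖ ≤ ‖R ξ‖ := by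
  have hκ0 : (0 : ℝ) ≤ κ := by linarith
  obtain ⟨G, hG, hcon⟩ := (GG_compact hκ0).inter_iInter_nonempty (con T) (con_closed T)
    (metric_con_finite hm T κ hκ hyp)
  rw [Set.mem_iInter] at hcon
  obtain ⟨R, hR⟩ := exists_sqrt G hG.1 (fun ξ => (sq_nonneg _).trans (hG.2 ξ).1)
  refine ⟨R, fun ξ => ?_, fun ξ => ?_, fun ξ => ?_⟩
  · have h1 : ‖ξ‖ ^ 2 ≤ ‖R ξ‖ ^ 2 := by rw [hR]; exact (hG.2 ξ).1
    exact abs_le_of_sq_le_sq' h1 (norm_nonneg _) |>.2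
  · have h1 : ‖R ξ‖ ^ 2 ≤ (√κ * ‖ξ‖) ^ 2 := by
      rw [hR, mul_pow, Real.sq_sqrt hκ0]
      exact (hG.2 ξ).2
    exact abs_le_of_sq_le_sq' h1 (by positivity) |>.2
  · have h1 : ‖R (T ξ)‖ ^ 2 ≤ ‖R ξ‖ ^ 2 := by rw [hR, hR]; exact hcon ξ
    exact abs_le_of_sq_le_sq' h1 (norm_nonneg _) |>.2

end Pool.Agent.Helper69.SQ
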