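import Pool.Agent.Helper69.SQ.Ratio

/-!
# SQ-L3: the pair `(x', p)`

Here `τ = w X Y` is a contraction, `σ = w Y X` is a contraction, and
`‖X† v‖² + ‖Y v‖² ≤ 2 ‖v‖²`. Let `f = a + z f₁` be a polynomial with `|f| ≤ 1` on the closed disc
and `|a| < 1`, and `β = 1 - |a|²`. Put `q = 1 - conj a f` and

  `x' = q(τ) x / β`,  `p = f₁(τ) x / β`.

* `x' + conj a τ p = (1 - conj a f + conj a z f₁)(τ) x / β = (1 - |a|²) x / β = x`.
* `f₁(τ) x = β p`: clear.
* On the circle `|f₁| = |f - a| ≤ |1 - conj a f| = |q|` (`SIM.mob_disc` with `conj a`, or directly: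
  `|1 - conj a f|² - |f - a|² = (1 - |a|²)(1 - |f|²)`), and `q ≠ 0` on the closed disc because
  `|conj a f| ≤ |a| < 1`. So `ratio τ` gives `‖p‖ ≤ ‖x'‖`.
* `Y τ = w Y X Y = σ Y`, so `Y F(τ) = F(σ) Y` for all polynomials `F` (induction,
  `Polynomial.induction_on'`; see `SIM.aeval_conj` for the pattern). By `ratio σ`:
  `‖Y p‖ = ‖f₁(σ) (Y x)‖ / β ≤ ‖q(σ) (Y x)‖ / β = ‖Y x'‖`. Hence
  `|⟨x', τ p⟩| = w |⟨X† x', Y p⟩| ≤ w ‖X† x'‖ ‖Y x'‖ ≤ w (‖X† x'‖² + ‖Y x'‖²) / 2 ≤ w ‖x'‖²`.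
-/

set_option autoImplicit false

open scoped ComplexConjugate InnerProductSpace
open Polynomial ContinuousLinearMap

namespace Pool.Agent.Helper69.SQ

/-- polynomials of intertwined operators are intertwined -/
theorem aeval_intertw {E F : Type} [NormedAddCommGroup E] [InnerProductSpace ℂ E]
    [NormedAddCommGroup F] [InnerProductSpace ℂ F] (S : E →L[ℂ] E) (S' : F →L[ℂ] F)
    (B : E →L[ℂ] F) (h : ∀ v, B (S v) = S' (B v)) (q : ℂ[X]) (v : E) :
    B (aeval S q v) = aeval S' q (B v) := by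
  have hpow : ∀ (k : ℕ) (v : E), B ((S ^ k) v) = (S' ^ k) (B v) := by
    intro k
    induction k with
    | zero => intro v; rfl
    | succ k ih =>
      intro v
      rw [pow_succ', pow_succ']
      change B (S ((S ^ k) v)) = S' ((S' ^ k) (B v))
      rw [h, ih]
  induction q using Polynomial.induction_on' generalizing v with
  | add p q hp hq =>
    rw [map_add, map_add]
    change B (aeval S p v + aeval S q v) = aeval S' p (B v) + aeval S' q (B v)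
    rw [map_add, hp, hq]
  | monomial k c =>
    rw [aeval_monomial, aeval_monomial, ← Algebra.smul_def, ← Algebra.smul_def]
    change B (c • (S ^ k) v) = c • (S' ^ k) (B v)
    rw [map_smul, hpow]

theorem exists_pair {k : ℕ}
    (τ A B : EuclideanSpace ℂ (Fin k) →L[ℂ] EuclideanSpace ℂ (Fin k)) (w : ℝ) (hw : 0 ≤ w)
    (hτ : ‖τ‖ ≤ 1) (hfac : ∀ v, τ v = (w : ℂ) • A (B v)) (hσ : ‖(w : ℂ) • (B ∘L A)‖ ≤ 1)
    (hAB : ∀ v, ‖adjoint A v‖ ^ 2 + ‖B v‖ ^ 2 ≤ 2 * ‖v‖ ^ 2) (f f₁ : ℂ[X]) (a : ℂ)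
    (hf : f = C a + X * f₁) (hfb : ∀ z : ℂ, ‖z‖ ≤ 1 → ‖f.eval z‖ ≤ 1) (ha : ‖a‖ < 1)
    (x : EuclideanSpace ℂ (Fin k)) :
    ∃ x' p : EuclideanSpace ℂ (Fin k), x = x' + conj a • τ p ∧
      aeval τ f₁ x = ((1 - ‖a‖ ^ 2 : ℝ) : ℂ) • p ∧ ‖p‖ ≤ ‖x'‖ ∧
      ‖⟪x', τ p⟫_ℂ‖ ≤ w * ‖x'‖ ^ 2 := by
  have hβ : 0 < 1 - ‖a‖ ^ 2 := by nlinarith [norm_nonneg a]
  set b : ℂ := ((1 - ‖a‖ ^ 2 : ℝ) : ℂ) with hb
  have hb0 : b ≠ 0 := by
    rw [hb]
    exact_mod_cast hβ.ne'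
  set q : ℂ[X] := 1 - C (conj a) * f with hq
  have hcirc : ∀ z : ℂ, ‖z‖ = 1 → ‖f₁.eval z‖ ≤ ‖q.eval z‖ := by
    intro z hz
    have h1 : z * f₁.eval z = f.eval z - a := by
      rw [hf]
      simp
    have h2 : ‖f₁.eval z‖ = ‖f.eval z - a‖ := by
      rw [← h1, norm_mul, hz, one_mul]
    have h3 := SIM.mob_disc (conj a) (f.eval z) (by rw [RCLike.norm_conj]; exact ha.le)
      (hfb z hz.le)
    rw [RCLike.conj_conj] at h3
    rw [h2, hq]
    simpa using h3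
  have hq0 : ∀ z : ℂ, ‖z‖ ≤ 1 → q.eval z ≠ 0 := by
    intro z hz h0
    have h1 : conj a * f.eval z = 1 := by
      have : q.eval z = 1 - conj a * f.eval z := by
        rw [hq]; simp
      rw [this] at h0
      exact (sub_eq_zero.1 h0).symm
    have h2 : ‖conj a * f.eval z‖ ≤ ‖a‖ := by
      rw [norm_mul, RCLike.norm_conj]
      exact mul_le_of_le_one_right (norm_nonneg _) (hfb z hz)
    rw [h1, norm_one] at h2
    linarith
  refine ⟨b⁻¹ • aeval τ q x, b⁻¹ • aeval τ f₁ x, ?_, ?_, ?_, ?_⟩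
  · have h1 : q + C (conj a) * (X * f₁) = C b := by
      have h2 : b = 1 - conj a * a := by
        rw [hb, mul_comm, Complex.mul_conj, Complex.normSq_eq_norm_sq]
        push_cast
        ring
      rw [hq, hf, h2, C_sub, C_mul, C_1]
      ring
    have h2 := congrArg (fun F : ℂ[X] => aeval τ F x) h1
    simp only [map_add, map_mul, aeval_C, aeval_X] at h2
    have h3 : aeval τ q x + conj a • τ (aeval τ f₁ x) = b • x := by
      have e1 : ((aeval τ q + (algebraMap ℂ _) (conj a) * (τ * aeval τ f₁)) :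
          EuclideanSpace ℂ (Fin k) →L[ℂ] EuclideanSpace ℂ (Fin k)) x =
          aeval τ q x + conj a • τ (aeval τ f₁ x) := by
        rw [← Algebra.smul_def]
        rfl
      have e2 : ((algebraMap ℂ (EuclideanSpace ℂ (Fin k) →L[ℂ] EuclideanSpace ℂ (Fin k))) b) x =
          b • x := by
        rw [Algebra.algebraMap_eq_smul_one]
        rfl
      rw [← e1, h2, e2]
    rw [map_smul, smul_comm (conj a) b⁻¹, ← smul_add, h3, smul_smul, inv_mul_cancel₀ hb0, one_smul]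
  · rw [smul_smul, mul_inv_cancel₀ hb0, one_smul]
  · rw [norm_smul, norm_smul]
    exact mul_le_mul_of_nonneg_left (ratio τ hτ f₁ q hcirc hq0 x) (norm_nonneg _)
  · set x' := b⁻¹ • aeval τ q x with hx'
    set p := b⁻¹ • aeval τ f₁ x with hp
    have hin : ∀ v, B (τ v) = ((w : ℂ) • (B ∘L A)) (B v) := by
      intro v
      rw [hfac, map_smul]
      rfl
    have h1 : ‖B p‖ ≤ ‖B x'‖ := by
      rw [hp, hx', map_smul, map_smul, aeval_intertw τ _ B hin, aeval_intertw τ _ B hin,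
        norm_smul, norm_smul]
      exact mul_le_mul_of_nonneg_left (ratio _ hσ f₁ q hcirc hq0 (B x)) (norm_nonneg _)
    have h2 : ⟪x', τ p⟫_ℂ = (w : ℂ) * ⟪adjoint A x', B p⟫_ℂ := by
      rw [hfac, inner_smul_right, ContinuousLinearMap.adjoint_inner_left]
    rw [h2, norm_mul, Complex.norm_real, Real.norm_of_nonneg hw]
    refine mul_le_mul_of_nonneg_left ?_ hw
    calc ‖⟪adjoint A x', B p⟫_ℂ‖ ≤ ‖adjoint A x'‖ * ‖B p‖ := norm_inner_le_norm _ _
      _ ≤ ‖adjoint A x'‖ * ‖B x'‖ := mul_le_mul_of_nonneg_left h1 (norm_nonneg _)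
      _ ≤ ‖x'‖ ^ 2 := by nlinarith [hAB x', sq_nonneg (‖adjoint A x'‖ - ‖B x'‖)]

end Pool.Agent.Helper69.SQ
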