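import Pool.Agent.Helper69.SQ.Delta
import Pool.Agent.Helper69.SIM.Diag

/-!
# SQ-U6: the polar decomposition package

Let `t = ∑ |d_k| ‖y_k‖²`. Take `e, l` from `exists_spec U`, `S = ∑ √l_j |e_j⟩⟨e_j|`
(`SIM.dg e`), so `S` is self-adjoint, `S e_j = √l_j e_j`, `‖S v‖ = ‖U v‖`. Let `Q` be
`exists_psqrt (R S)`: self-adjoint, positive, `Q² = S R† R S`, so `‖Q v‖ = ‖R (S v)‖`. By
`SIM.exists_isometry Q (R S)` there is `W : E →ₗᵢ E` with `W (Q v) = R (S v)`; in particular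
`W (Q e_j) = √l_j R e_j`. Let `Θ = S² - Q²`. Its quadratic form is
`‖S v‖² - ‖R (S v)‖² ≥ 0` (`‖R‖ ≤ 1`), so `Θ = V† V` with `‖V v‖² = ‖S v‖² - ‖R (S v)‖²`
(`SIM.exists_sqrt`, and equality of self-adjoint operators with equal forms), and
`∑ ‖V e_j‖² = ∑ d_k ‖y_k‖² ≤ t` by `trace_form`. By `hs_comp`: `∑ ‖Θ e_j‖² ≤ t²`.

(1) `l_j ‖Q e_j - √l_j e_j‖² ≤ ‖Θ e_j‖²`: with `z = Q e_j - √l_j e_j` one has
`Q z + √l_j z = Q² e_j - l_j e_j = -Θ e_j`, and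
`‖Q z + √l_j z‖² = ‖Q z‖² + 2 √l_j Re ⟨z, Q z⟩ + l_j ‖z‖² ≥ l_j ‖z‖²`. Sum over `j`.

(2) `W (S² v) - S² (W v) = W (Θ v) - Δ (W v)` with `Δ x = ∑ d_k ⟨y_k, x⟩ y_k`: indeed
`W Q = R S` gives `(W Q) (W Q)† = R S² R†`, so `W Q² W† = R S² R† = S² - Δ` (`delta_op`), and
`W† W = 1` gives `W Q² = (S² - Δ) W`; add `W Θ`. [`Q` self-adjoint: `(W Q)† = Q W†`.]
Now `⟨e_i, (W S² - S² W) e_j⟩ = (l_j - l_i) ⟨e_i, W e_j⟩`, so
`∑_j ∑_i |⟨e_i, W e_j⟩|² (l_j - l_i)² = ∑_j ‖(W S² - S² W) e_j‖²`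
`≤ 2 ∑_j ‖W Θ e_j‖² + 2 ∑_j ‖Δ W e_j‖² ≤ 2 t² + 2 t²` (`delta_hs`).
-/

set_option autoImplicit false

open scoped ComplexConjugate InnerProductSpace
open ContinuousLinearMap

namespace Pool.Agent.Helper69.SQ

variable {E : Type} [NormedAddCommGroup E] [InnerProductSpace ℂ E] [FiniteDimensional ℂ E]

theorem ext_inner' {x y : E} (h : ∀ z : E, ⟪z, x⟫_ℂ = ⟪z, y⟫_ℂ) : x = y :=
  ext_inner_left ℂ h

theorem polar {n m : ℕ} (hn : Module.finrank ℂ E = n) (R U : E →L[ℂ] E) (hR : ‖R‖ ≤ 1)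
    (d : Fin m → ℝ) (y : Fin m → E)
    (h : ∀ v, ‖U v‖ ^ 2 - ‖U (adjoint R v)‖ ^ 2 = ∑ k, d k * ‖⟪y k, v⟫_ℂ‖ ^ 2) :
    ∃ (e : OrthonormalBasis (Fin n) ℂ E) (l : Fin n → ℝ) (W : E →ₗᵢ[ℂ] E) (Q : E →L[ℂ] E),
      (∀ j, 0 ≤ l j) ∧ (∀ v, ‖U v‖ ^ 2 = ∑ j, l j * ‖⟪e j, v⟫_ℂ‖ ^ 2) ∧
      (∀ j, W (Q (e j)) = ((√(l j) : ℝ) : ℂ) • R (e j)) ∧
      ∑ j, l j * ‖Q (e j) - ((√(l j) : ℝ) : ℂ) • e j‖ ^ 2 ≤ (∑ k, |d k| * ‖y k‖ ^ 2) ^ 2 ∧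
      ∑ j, ∑ i, ‖⟪e i, W (e j)⟫_ℂ‖ ^ 2 * (l j - l i) ^ 2 ≤
        4 * (∑ k, |d k| * ‖y k‖ ^ 2) ^ 2 := by
  obtain ⟨e, l, hl, hU, -⟩ := exists_spec hn U
  set g : Fin n → ℂ := fun j => ((√(l j) : ℝ) : ℂ) with hg
  set S : E →L[ℂ] E := SIM.dg e g with hSdef
  have hgg : ∀ j, g j * g j = ((l j : ℝ) : ℂ) := by
    intro j
    rw [hg]
    simp only
    rw [← Complex.ofReal_mul, Real.mul_self_sqrt (hl j)]
  -- S is symmetric
  have hSsym : ∀ x z : E, ⟪S x, z⟫_ℂ = ⟪x, S z⟫_ℂ := by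
    intro x z
    rw [hSdef, SIM.dg_apply, SIM.dg_apply, sum_inner, inner_sum]
    refine Finset.sum_congr rfl fun k _ => ?_
    rw [inner_smul_left, inner_smul_right, map_mul, inner_conj_symm]
    have : conj (g k) = g k := by rw [hg]; exact Complex.conj_ofReal _
    rw [this]
    ring
  have hSsa : IsSelfAdjoint S := by
    rw [ContinuousLinearMap.isSelfAdjoint_iff_isSymmetric]
    exact hSsym
  have hSe : ∀ j, S (e j) = g j • e j := by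
    intro j
    refine SIM.ext_basis e fun k => ?_
    rw [hSdef, SIM.inner_dg, inner_smul_right]
    by_cases hkj : k = j
    · rw [hkj]
    · rw [e.inner_eq_zero hkj, mul_zero, mul_zero]
  have hSSe : ∀ j, S (S (e j)) = ((l j : ℝ) : ℂ) • e j := by
    intro j
    rw [hSe, map_smul, hSe, smul_smul, hgg]
  have hSSi : ∀ (i : Fin n) (x : E), ⟪e i, S (S x)⟫_ℂ = ((l i : ℝ) : ℂ) * ⟪e i, x⟫_ℂ := by
    intro i x
    rw [← hSsym, ← hSsym, hSSe, inner_smul_left, Complex.conj_ofReal]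
  have hSn : ∀ v, ‖S v‖ ^ 2 = ‖U v‖ ^ 2 := by
    intro v
    rw [hSdef, SIM.norm_dg_sq, hU]
    refine Finset.sum_congr rfl fun k _ => ?_
    rw [hg]
    simp only
    rw [Complex.norm_real, Real.norm_eq_abs, sq_abs, Real.sq_sqrt (hl k)]
  have h' : ∀ v, ‖S v‖ ^ 2 - ‖S (adjoint R v)‖ ^ 2 = ∑ k, d k * ‖⟪y k, v⟫_ℂ‖ ^ 2 := by
    intro v
    rw [hSn, hSn, h]
  -- Q
  obtain ⟨Q, hQsa, hQpos, hQQ⟩ := exists_psqrt (R.comp S)
  have hQsym : ∀ x z : E, ⟪Q x, z⟫_ℂ = ⟪x, Q z⟫_ℂ := by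
    have := (ContinuousLinearMap.isSelfAdjoint_iff_isSymmetric (A := Q)).1 hQsa
    exact this
  have hQip : ∀ v, ⟪Q v, Q v⟫_ℂ = ⟪R (S v), R (S v)⟫_ℂ := by
    intro v
    rw [hQsym, hQQ, ContinuousLinearMap.adjoint_inner_right]
    rfl
  have hQn2 : ∀ v, ‖Q v‖ ^ 2 = ‖R (S v)‖ ^ 2 := by
    intro v
    have h1 := hQip v
    rw [inner_self_eq_norm_sq_to_K, inner_self_eq_norm_sq_to_K] at h1
    exact_mod_cast h1
  have hQn : ∀ v, ‖Q v‖ = ‖(R.comp S) v‖ := by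
    intro v
    exact (pow_left_inj₀ (norm_nonneg _) (norm_nonneg _) two_ne_zero).1 (hQn2 v)
  obtain ⟨W, hW⟩ := SIM.exists_isometry Q (R.comp S) hQn
  have hW' : ∀ x, W (Q x) = R (S x) := hW
  -- Θ = V† V
  set Th : E →L[ℂ] E := S.comp S - Q.comp Q with hTh
  have hThapp : ∀ v, Th v = S (S v) - Q (Q v) := fun v => rfl
  have hThsym : ∀ x z : E, ⟪Th x, z⟫_ℂ = ⟪x, Th z⟫_ℂ := by
    intro x z
    rw [hThapp, hThapp, inner_sub_left, inner_sub_right, hSsym, hSsym, hQsym, hQsym]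
  have hThsa : IsSelfAdjoint Th := by
    rw [ContinuousLinearMap.isSelfAdjoint_iff_isSymmetric]
    exact hThsym
  have hThq : ∀ v, ⟪v, Th v⟫_ℂ = ((‖S v‖ ^ 2 - ‖R (S v)‖ ^ 2 : ℝ) : ℂ) := by
    intro v
    rw [hThapp, inner_sub_right, ← hSsym, ← hQsym, inner_self_eq_norm_sq_to_K,
      inner_self_eq_norm_sq_to_K, ← hQn2]
    push_cast
    rfl
  have hThpos : ∀ v, 0 ≤ (⟪v, Th v⟫_ℂ).re := by
    intro v
    rw [hThq, Complex.ofReal_re, sub_nonneg]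
    refine pow_le_pow_left₀ (norm_nonneg _) ?_ 2
    calc ‖R (S v)‖ ≤ ‖R‖ * ‖S v‖ := R.le_opNorm _
      _ ≤ 1 * ‖S v‖ := mul_le_mul_of_nonneg_right hR (norm_nonneg _)
      _ = ‖S v‖ := one_mul _
  obtain ⟨V, hV⟩ := SIM.exists_sqrt Th hThsa hThpos
  have hVn : ∀ v, ‖V v‖ ^ 2 = ‖S v‖ ^ 2 - ‖R (S v)‖ ^ 2 := by
    intro v
    rw [hV, hThq, Complex.ofReal_re]
  have hThV : ∀ v, Th v = adjoint V (V v) := by
    have h0 : ((Th - (adjoint V).comp V : E →L[ℂ] E) : E →ₗ[ℂ] E) = 0 := by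
      rw [← inner_map_self_eq_zero]
      intro x
      change ⟪Th x - adjoint V (V x), x⟫_ℂ = 0
      rw [inner_sub_left, ContinuousLinearMap.adjoint_inner_left, hThsym, hThq,
        inner_self_eq_norm_sq_to_K, ← hVn]
      push_cast
      exact sub_self _
    intro v
    have h1 : (((Th - (adjoint V).comp V : E →L[ℂ] E) : E →ₗ[ℂ] E)) v = 0 := by
      rw [h0]; rfl
    exact sub_eq_zero.1 h1
  set t : ℝ := ∑ k, |d k| * ‖y k‖ ^ 2 with ht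
  have hVsum : ∑ j, ‖V (e j)‖ ^ 2 ≤ t := by
    have h1 := trace_form e R S hSsa d y h'
    have h2 : ∑ j, ‖V (e j)‖ ^ 2 = ∑ k, d k * ‖y k‖ ^ 2 := by
      rw [← h1]
      exact Finset.sum_congr rfl fun j _ => hVn _
    rw [h2, ht]
    refine Finset.sum_le_sum fun k _ => ?_
    exact mul_le_mul_of_nonneg_right (le_abs_self _) (sq_nonneg _)
  have hThsum : ∑ j, ‖Th (e j)‖ ^ 2 ≤ t ^ 2 := by
    have h1 := hs_comp e V
    have h2 : ∑ j, ‖Th (e j)‖ ^ 2 = ∑ j, ‖adjoint V (V (e j))‖ ^ 2 :=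
      Finset.sum_congr rfl fun j _ => by rw [hThV]
    rw [h2]
    refine h1.trans (pow_le_pow_left₀ ?_ hVsum 2)
    exact Finset.sum_nonneg fun j _ => sq_nonneg _
  refine ⟨e, l, W, Q, hl, hU, ?_, ?_, ?_⟩
  · intro j
    rw [hW', hSe, map_smul]
  · refine le_trans (Finset.sum_le_sum fun j _ => ?_) hThsum
    set a : ℝ := √(l j) with ha
    have ha0 : 0 ≤ a := Real.sqrt_nonneg _
    have haa : a ^ 2 = l j := Real.sq_sqrt (hl j)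
    set z : E := Q (e j) - ((a : ℝ) : ℂ) • e j with hz
    have hQz : Q z + ((a : ℝ) : ℂ) • z = - Th (e j) := by
      have h1 : S (S (e j)) = ((a : ℝ) : ℂ) • ((a : ℝ) : ℂ) • e j := by
        rw [hSSe, smul_smul, ← Complex.ofReal_mul, ← sq, haa]
      rw [hThapp, h1, hz, map_sub, map_smul, smul_sub]
      abel
    have h2 : ‖Th (e j)‖ ^ 2 = ‖Q z‖ ^ 2 + 2 * (⟪Q z, ((a : ℝ) : ℂ) • z⟫_ℂ).re
        + ‖((a : ℝ) : ℂ) • z‖ ^ 2 := by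
      rw [← norm_neg (Th (e j)), ← hQz]
      exact norm_add_sq (𝕜 := ℂ) (Q z) (((a : ℝ) : ℂ) • z)
    have h3 : (⟪Q z, ((a : ℝ) : ℂ) • z⟫_ℂ).re = a * (⟪z, Q z⟫_ℂ).re := by
      rw [inner_smul_right, Complex.re_ofReal_mul, hQsym]
    have h4 : ‖((a : ℝ) : ℂ) • z‖ ^ 2 = l j * ‖z‖ ^ 2 := by
      rw [norm_smul, mul_pow, Complex.norm_real, Real.norm_eq_abs, sq_abs, haa]
    rw [h2, h3, h4]
    have h5 := mul_nonneg ha0 (hQpos z)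
    nlinarith [sq_nonneg ‖Q z‖]
  · have hSRW : ∀ v, S (adjoint R (W v)) = Q v := by
      intro v
      refine ext_inner' fun x => ?_
      rw [← hSsym, ContinuousLinearMap.adjoint_inner_right, ← hW', W.inner_map_map, hQsym]
    have hcomm : ∀ v, W (S (S v)) - S (S (W v)) =
        W (Th v) - ∑ k, ((d k : ℝ) : ℂ) • ⟪y k, W v⟫_ℂ • y k := by
      intro v
      rw [← delta_op R S hSsa d y h' (W v), hSRW, ← hW', hThapp, map_sub]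
      abel
    have hj : ∀ j, ∑ i, ‖⟪e i, W (e j)⟫_ℂ‖ ^ 2 * (l j - l i) ^ 2 ≤
        2 * ‖Th (e j)‖ ^ 2 + 2 * ‖∑ k, ((d k : ℝ) : ℂ) • ⟪y k, W (e j)⟫_ℂ • y k‖ ^ 2 := by
      intro j
      have h1 : ∑ i, ‖⟪e i, W (e j)⟫_ℂ‖ ^ 2 * (l j - l i) ^ 2 =
          ‖W (S (S (e j))) - S (S (W (e j)))‖ ^ 2 := by
        rw [← e.sum_sq_norm_inner_right]
        refine Finset.sum_congr rfl fun i _ => ?_
        rw [inner_sub_right, hSSi, hSSe, map_smul, inner_smul_right, ← sub_mul, norm_mul,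
          mul_pow, mul_comm, ← Complex.ofReal_sub, Complex.norm_real, Real.norm_eq_abs, sq_abs]
      rw [h1, hcomm]
      set A := W (Th (e j))
      set B := ∑ k, ((d k : ℝ) : ℂ) • ⟪y k, W (e j)⟫_ℂ • y k
      have hA : ‖A‖ = ‖Th (e j)‖ := W.norm_map _
      rw [← hA]
      have h2 : ‖A - B‖ ≤ ‖A‖ + ‖B‖ := norm_sub_le _ _
      have h3 : ‖A - B‖ ^ 2 ≤ (‖A‖ + ‖B‖) ^ 2 := pow_le_pow_left₀ (norm_nonneg _) h2 2
      nlinarith [sq_nonneg (‖A‖ - ‖B‖)]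
    refine (Finset.sum_le_sum fun j _ => hj j).trans ?_
    rw [Finset.sum_add_distrib, ← Finset.mul_sum, ← Finset.mul_sum]
    have h6 := delta_hs e W d y
    rw [← ht] at h6
    linarith

end Pool.Agent.Helper69.SQ
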