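import Pool.Agent.Helper69.SQ.Disc

/-!
# SQ-L2: the ratio lemma

Let `τ` be a contraction, `|P| ≤ |Q|` on the unit circle and `Q` without zeros in the closed disc.
Then `‖P(τ) v‖ ≤ ‖Q(τ) v‖`.

Proof. Let `ε > 0` and `G` from `approx_inv Q`. By `SIM.vn` (von Neumann, `PBdd 1 τ`), applied to
the polynomial `G Q - 1`: `‖(G Q - 1)(τ)‖ ≤ ε`. On the circle
`|P G| ≤ |Q G| ≤ 1 + ε`, so by `disc_of_circle` and `SIM.vn`: `‖(P G)(τ)‖ ≤ 1 + ε`. Hence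
`P(τ) v = (P G)(τ) (Q(τ) v) - P(τ) ((G Q - 1)(τ) v)` has norm at most
`(1 + ε) ‖Q(τ) v‖ + ε ‖P(τ)‖ ‖v‖`. Let `ε → 0`.
-/

set_option autoImplicit false

open scoped ComplexConjugate InnerProductSpace
open Polynomial

namespace Pool.Agent.Helper69.SQ

theorem ratio {k : ℕ} (τ : EuclideanSpace ℂ (Fin k) →L[ℂ] EuclideanSpace ℂ (Fin k))
    (hτ : ‖τ‖ ≤ 1) (P Q : ℂ[X]) (hPQ : ∀ z : ℂ, ‖z‖ = 1 → ‖P.eval z‖ ≤ ‖Q.eval z‖)
    (hQ : ∀ z : ℂ, ‖z‖ ≤ 1 → Q.eval z ≠ 0) (v : EuclideanSpace ℂ (Fin k)) :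
    ‖aeval τ P v‖ ≤ ‖aeval τ Q v‖ := by
  have hvn : SIM.PBdd 1 τ := SIM.vn τ hτ
  have key : ∀ ε : ℝ, 0 < ε →
      ‖aeval τ P v‖ ≤ (1 + ε) * ‖aeval τ Q v‖ + ε * (‖aeval τ P‖ * ‖v‖) := by
    intro ε hε
    obtain ⟨G, hG⟩ := approx_inv Q hQ ε hε
    have h1 : ‖aeval τ (G * Q - 1)‖ ≤ 1 * ε := by
      refine hvn (G * Q - 1) ε (fun z hz => ?_)
      rw [eval_sub, eval_one]
      exact hG z hz
    have h2 : ‖aeval τ (P * G)‖ ≤ 1 * (1 + ε) := by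
      refine hvn (P * G) (1 + ε) (fun z hz => ?_)
      refine disc_of_circle (P * G) (1 + ε) (fun w hw => ?_) z hz
      have h3 : ‖(G * Q).eval w‖ ≤ 1 + ε := by
        calc ‖(G * Q).eval w‖ = ‖1 + ((G * Q).eval w - 1)‖ := by rw [add_sub_cancel]
          _ ≤ ‖(1 : ℂ)‖ + ‖(G * Q).eval w - 1‖ := norm_add_le _ _
          _ ≤ 1 + ε := by
            rw [norm_one]
            exact add_le_add le_rfl (hG w hw.le)
      rw [eval_mul, norm_mul]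
      rw [eval_mul, norm_mul] at h3
      calc ‖P.eval w‖ * ‖G.eval w‖ ≤ ‖Q.eval w‖ * ‖G.eval w‖ :=
            mul_le_mul_of_nonneg_right (hPQ w hw) (norm_nonneg _)
        _ = ‖G.eval w‖ * ‖Q.eval w‖ := mul_comm _ _
        _ ≤ 1 + ε := h3
    rw [one_mul] at h1 h2
    have h4 : aeval τ P v = aeval τ (P * G) (aeval τ Q v) - aeval τ P (aeval τ (G * Q - 1) v) := by
      have h5 : aeval τ P = aeval τ (P * G) * aeval τ Q - aeval τ P * aeval τ (G * Q - 1) := by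
        rw [← map_mul, ← map_mul, ← map_sub]
        congr 1
        ring
      calc aeval τ P v = (aeval τ (P * G) * aeval τ Q - aeval τ P * aeval τ (G * Q - 1)) v := by
            rw [← h5]
        _ = _ := rfl
    calc ‖aeval τ P v‖ = ‖aeval τ (P * G) (aeval τ Q v) - aeval τ P (aeval τ (G * Q - 1) v)‖ := by
          rw [← h4]
      _ ≤ ‖aeval τ (P * G) (aeval τ Q v)‖ + ‖aeval τ P (aeval τ (G * Q - 1) v)‖ := norm_sub_le _ _
      _ ≤ (1 + ε) * ‖aeval τ Q v‖ + ‖aeval τ P‖ * (ε * ‖v‖) := by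
          refine add_le_add ?_ ?_
          · exact (ContinuousLinearMap.le_opNorm _ _).trans
              (mul_le_mul_of_nonneg_right h2 (norm_nonneg _))
          · refine (ContinuousLinearMap.le_opNorm _ _).trans
              (mul_le_mul_of_nonneg_left ?_ (norm_nonneg _))
            exact (ContinuousLinearMap.le_opNorm _ _).trans
              (mul_le_mul_of_nonneg_right h1 (norm_nonneg _))
      _ = (1 + ε) * ‖aeval τ Q v‖ + ε * (‖aeval τ P‖ * ‖v‖) := by ring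
  refine le_of_forall_pos_le_add (fun δ hδ => ?_)
  have hb : 0 ≤ ‖aeval τ Q v‖ := norm_nonneg _
  have hc : 0 ≤ ‖aeval τ P‖ * ‖v‖ := mul_nonneg (norm_nonneg _) (norm_nonneg _)
  have hpos : 0 < ‖aeval τ Q v‖ + ‖aeval τ P‖ * ‖v‖ + 1 := by linarith
  have h := key (δ / (‖aeval τ Q v‖ + ‖aeval τ P‖ * ‖v‖ + 1)) (div_pos hδ hpos)
  have h6 : δ / (‖aeval τ Q v‖ + ‖aeval τ P‖ * ‖v‖ + 1) *
      (‖aeval τ Q v‖ + ‖aeval τ P‖ * ‖v‖) ≤ δ := by
    rw [div_mul_eq_mul_div, div_le_iff₀ hpos]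
    exact mul_le_mul_of_nonneg_left (by linarith) hδ.le
  linarith

end Pool.Agent.Helper69.SQ
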