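import Pool.Agent.Helper69.SQ.Key
import Pool.Agent.Helper69.SQ.Grow

/-!
# SQ-U9: the trace inequality for an operator similar to a contraction

Let `R = ξ⁻¹ T ξ` (a contraction), `U' = U (ξ⁻¹)†`, `y_k = ξ⁻¹ η_k`. As
`R† = ξ† T† (ξ⁻¹)†` and `(ξ⁻¹)† ξ† = 1` (adjoint of `ξ ξ⁻¹ = 1`),
`U' R† v = U T† (ξ⁻¹)† v`, hence
`‖U' v‖² - ‖U' (R† v)‖² = ∑ d_k |⟨η_k, (ξ⁻¹)† v⟩|² = ∑ d_k |⟨y_k, v⟩|²`.
Apply `key` to `R, U', A = T ξ, B = ξ`: the hypothesis `hAB` holds with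
`γ = 4 (C² - 1) ‖ξ‖²`, since by `growth` for the vector `ξ w`
`‖T ξ w‖² - ‖ξ w‖² ≤ 4 (C² - 1) ‖ξ w‖ ‖T ξ w - ω ξ w‖` and
`T ξ w - ω ξ w = ξ (R w - ω w)`. Its conclusion is the claim: `U' (A† η_k) = U (T† η_k)`
(`A† = ξ† T†`), `U' (B† η_k) = U η_k`, and
`‖U (T† η_k)‖² - ‖U η_k‖² = -∑_j d_j |⟨η_j, η_k⟩|² = -d_k`; and
`‖y_k‖ ≤ ‖ξ⁻¹‖`.
-/

set_option autoImplicit false

open scoped ComplexConjugate InnerProductSpace
open ContinuousLinearMap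

namespace Pool.Agent.Helper69.SQ

variable {E : Type} [NormedAddCommGroup E] [InnerProductSpace ℂ E] [FiniteDimensional ℂ E]

theorem trace_bound {n : ℕ} (hn : Module.finrank ℂ E = n) (hn1 : 1 ≤ n) {C : ℝ} (hC : 1 ≤ C)
    (T : E →L[ℂ] E)
    (hK : ∀ a : ℂ, ‖a‖ ≤ 1 → ∀ w : E, ‖T w - conj a • w‖ ≤ C * ‖w - a • T w‖) (ξ : E ≃L[ℂ] E)
    (hξ : ‖(ξ.symm : E →L[ℂ] E) ∘L T ∘L (ξ : E →L[ℂ] E)‖ ≤ 1) (U : E →L[ℂ] E)
    (η : OrthonormalBasis (Fin n) ℂ E) (d : Fin n → ℝ)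
    (h : ∀ v, ‖U v‖ ^ 2 - ‖U (adjoint T v)‖ ^ 2 = ∑ k, d k * ‖⟪η k, v⟫_ℂ‖ ^ 2) :
    -∑ k, d k ≤ 4 * (C ^ 2 - 1) * √(21 * n) *
      (‖(ξ : E →L[ℂ] E)‖ * ‖(ξ.symm : E →L[ℂ] E)‖) ^ 2 * ∑ k, |d k| := by
  set X : E →L[ℂ] E := (ξ : E →L[ℂ] E) with hX
  set Y : E →L[ℂ] E := (ξ.symm : E →L[ℂ] E) with hY
  have hXY : ∀ z, X (Y z) = z := fun z => ξ.apply_symm_apply z
  have hXYc : X ∘L Y = ContinuousLinearMap.id ℂ E := by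
    ext z
    exact hXY z
  have hadj : ∀ z, adjoint Y (adjoint X z) = z := by
    intro z
    have e : adjoint Y (adjoint X z) = adjoint (X ∘L Y) z := by
      rw [adjoint_comp]
      rfl
    rw [e, hXYc]
    have e2 : adjoint (ContinuousLinearMap.id ℂ E) = ContinuousLinearMap.id ℂ E := by
      rw [eq_comm, eq_adjoint_iff]
      intro x y
      rfl
    rw [e2]
    rfl
  have hC2 : 0 ≤ C ^ 2 - 1 := by nlinarith
  set R : E →L[ℂ] E := Y ∘L T ∘L X with hRdef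
  have hRadj : ∀ v, adjoint R v = adjoint X (adjoint T (adjoint Y v)) := by
    intro v
    rw [hRdef, adjoint_comp, adjoint_comp]
    rfl
  have hTX : ∀ v, adjoint (T ∘L X) v = adjoint X (adjoint T v) := by
    intro v
    rw [adjoint_comp]
    rfl
  have h' : ∀ v, ‖(U ∘L adjoint Y) v‖ ^ 2 - ‖(U ∘L adjoint Y) (adjoint R v)‖ ^ 2 =
      ∑ k, d k * ‖⟪Y (η k), v⟫_ℂ‖ ^ 2 := by
    intro v
    have e1 : (U ∘L adjoint Y) v = U (adjoint Y v) := rfl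
    have e2 : (U ∘L adjoint Y) (adjoint R v) = U (adjoint T (adjoint Y v)) := by
      rw [hRadj]
      show U (adjoint Y (adjoint X _)) = _
      rw [hadj]
    rw [e1, e2, h]
    refine Finset.sum_congr rfl fun k _ => ?_
    rw [adjoint_inner_right]
  have hAB : ∀ ω : ℂ, ‖ω‖ = 1 → ∀ w, ‖(T ∘L X) w‖ ^ 2 - ‖X w‖ ^ 2 ≤
      (4 * (C ^ 2 - 1) * ‖X‖ ^ 2) * ‖w‖ * ‖R w - ω • w‖ := by
    intro ω hω w
    have g := growth hC T hK ω hω (X w)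
    have e : T (X w) - ω • X w = X (R w - ω • w) := by
      rw [map_sub, map_smul]
      congr 1
      exact (hXY (T (X w))).symm
    have n1 : ‖X w‖ ≤ ‖X‖ * ‖w‖ := X.le_opNorm w
    have n2 : ‖T (X w) - ω • X w‖ ≤ ‖X‖ * ‖R w - ω • w‖ := by
      rw [e]
      exact X.le_opNorm _
    calc ‖(T ∘L X) w‖ ^ 2 - ‖X w‖ ^ 2 ≤ 4 * (C ^ 2 - 1) * ‖X w‖ * ‖T (X w) - ω • X w‖ := g
      _ ≤ 4 * (C ^ 2 - 1) * (‖X‖ * ‖w‖) * (‖X‖ * ‖R w - ω • w‖) := by gcongr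
      _ = (4 * (C ^ 2 - 1) * ‖X‖ ^ 2) * ‖w‖ * ‖R w - ω • w‖ := by ring
  have main := key hn hn1 R (U ∘L adjoint Y) (T ∘L X) X hξ d (fun k => Y (η k)) h'
    (4 * (C ^ 2 - 1) * ‖X‖ ^ 2) (by positivity) hAB η
  have hterm : ∀ k, ‖(U ∘L adjoint Y) (adjoint (T ∘L X) (η k))‖ ^ 2 -
      ‖(U ∘L adjoint Y) (adjoint X (η k))‖ ^ 2 = - d k := by
    intro k
    have e1 : (U ∘L adjoint Y) (adjoint (T ∘L X) (η k)) = U (adjoint T (η k)) := by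
      rw [hTX]
      show U (adjoint Y (adjoint X _)) = _
      rw [hadj]
    have e2 : (U ∘L adjoint Y) (adjoint X (η k)) = U (η k) := by
      show U (adjoint Y (adjoint X _)) = _
      rw [hadj]
    have e3 := h (η k)
    have e4 : ∑ j, d j * ‖⟪η j, η k⟫_ℂ‖ ^ 2 = d k := by
      rw [Finset.sum_eq_single k]
      · rw [inner_self_eq_norm_sq_to_K, η.norm_eq_one]
        simp
      · intro j _ hj
        rw [η.orthonormal.2 hj]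
        simp
      · intro hk
        exact absurd (Finset.mem_univ k) hk
    rw [e1, e2]
    linarith
  rw [Finset.sum_congr rfl fun k _ => hterm k, Finset.sum_neg_distrib] at main
  refine main.trans ?_
  have hsum : ∑ k, |d k| * ‖Y (η k)‖ ^ 2 ≤ ‖Y‖ ^ 2 * ∑ k, |d k| := by
    rw [Finset.mul_sum]
    refine Finset.sum_le_sum fun k _ => ?_
    have n1 : ‖Y (η k)‖ ≤ ‖Y‖ := by
      have := Y.le_opNorm (η k)
      rwa [η.norm_eq_one, mul_one] at this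
    calc |d k| * ‖Y (η k)‖ ^ 2 ≤ |d k| * ‖Y‖ ^ 2 := by gcongr
      _ = ‖Y‖ ^ 2 * |d k| := by ring
  calc 4 * (C ^ 2 - 1) * ‖X‖ ^ 2 * √(21 * n) * ∑ k, |d k| * ‖Y (η k)‖ ^ 2
      ≤ 4 * (C ^ 2 - 1) * ‖X‖ ^ 2 * √(21 * n) * (‖Y‖ ^ 2 * ∑ k, |d k|) := by gcongr
    _ = 4 * (C ^ 2 - 1) * √(21 * n) * (‖X‖ * ‖Y‖) ^ 2 * ∑ k, |d k| := by ring

end Pool.Agent.Helper69.SQ
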