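import Pool.Agent.Helper69.SQ.Trace
import Pool.Agent.Helper69.SQ.Metric
import Pool.Agent.Helper69.SIM.Similar

/-!
# SQ-U11: the upper bound

`SIM.exists_similar` gives `ξ` with `ξ⁻¹ T ξ` a contraction and `cond ≤ C^m`. By `trace_bound`
(`SIM.mobius_of_PBdd`), for `P = ∑ max (d k) 0` and `N = ∑ (max (d k) 0 - d k)`
(so `∑ d k = P - N`, `∑ |d k| = P + N`): `N - P ≤ η (N + P)`, that is `N ≤ κ P` with
`κ = (1 + η) / (1 - η)`. Apply `metric_of_hyp` and build the invertible operator from `R` exactly as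
in the proof of `SIM.exists_similar`.
-/

set_option autoImplicit false

open scoped ComplexConjugate InnerProductSpace
open ContinuousLinearMap

namespace Pool.Agent.Helper69.SQ

variable {E : Type} [NormedAddCommGroup E] [InnerProductSpace ℂ E] [FiniteDimensional ℂ E]

/-- the invertible operator built from the metric -/
theorem equiv_of_metric (T R : E →L[ℂ] E) {c : ℝ} (hc : 0 ≤ c) (h1 : ∀ ξ, ‖ξ‖ ≤ ‖R ξ‖)
    (h2 : ∀ ξ, ‖R ξ‖ ≤ c * ‖ξ‖) (h3 : ∀ ξ, ‖R (T ξ)‖ ≤ ‖R ξ‖) :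
    ∃ ξ : E ≃L[ℂ] E, ‖(ξ.symm : E →L[ℂ] E) ∘L T ∘L (ξ : E →L[ℂ] E)‖ ≤ 1 ∧
      ‖(ξ : E →L[ℂ] E)‖ * ‖(ξ.symm : E →L[ℂ] E)‖ ≤ c := by
  have hinj : Function.Injective (R : E →ₗ[ℂ] E) := by
    rw [injective_iff_map_eq_zero]
    intro x hx
    have h4 := h1 x
    change (R x : E) = 0 at hx
    rw [hx, norm_zero] at h4
    exact norm_eq_zero.1 (le_antisymm h4 (norm_nonneg _))
  obtain ⟨e, he⟩ : ∃ e : E ≃L[ℂ] E, ∀ x, e x = R x :=
    ⟨(LinearEquiv.ofInjectiveEndo (R : E →ₗ[ℂ] E) hinj).toContinuousLinearEquiv, fun x => rfl⟩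
  refine ⟨e.symm, ?_, ?_⟩
  · refine ContinuousLinearMap.opNorm_le_bound _ zero_le_one fun x => ?_
    change ‖e (T (e.symm x))‖ ≤ 1 * ‖x‖
    rw [he, one_mul]
    refine (h3 _).trans ?_
    rw [← he, e.apply_symm_apply]
  · have h5 : ‖(e.symm : E →L[ℂ] E)‖ ≤ 1 := by
      refine ContinuousLinearMap.opNorm_le_bound _ zero_le_one fun x => ?_
      change ‖e.symm x‖ ≤ 1 * ‖x‖
      rw [one_mul]
      refine (h1 _).trans ?_
      rw [← he, e.apply_symm_apply]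
    have h6 : ‖(e.symm.symm : E →L[ℂ] E)‖ ≤ c := by
      refine ContinuousLinearMap.opNorm_le_bound _ hc fun x => ?_
      change ‖e x‖ ≤ c * ‖x‖
      rw [he]
      exact h2 x
    calc ‖(e.symm : E →L[ℂ] E)‖ * ‖(e.symm.symm : E →L[ℂ] E)‖ ≤ 1 * c := by gcongr
      _ = c := one_mul _

theorem up_final {m : ℕ} (hm : Module.finrank ℂ E = m + 1) (T : E →L[ℂ] E) {C : ℝ} (hC : 1 ≤ C)
    (hT : SIM.PBdd C T) (η : ℝ)
    (hη : η = 4 * (C ^ 2 - 1) * √(21 * ((m + 1 : ℕ) : ℝ)) * (C ^ m) ^ 2) (hη1 : η < 1) :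
    ∃ ξ : E ≃L[ℂ] E, ‖(ξ.symm : E →L[ℂ] E) ∘L T ∘L (ξ : E →L[ℂ] E)‖ ≤ 1 ∧
      ‖(ξ : E →L[ℂ] E)‖ * ‖(ξ.symm : E →L[ℂ] E)‖ ≤ √((1 + η) / (1 - η)) := by
  have hC2 : 0 ≤ C ^ 2 - 1 := by nlinarith
  have hη0 : 0 ≤ η := by rw [hη]; positivity
  have hpos : 0 < 1 - η := by linarith
  have hκ : 1 ≤ (1 + η) / (1 - η) := by
    rw [le_div_iff₀ hpos]
    linarith
  obtain ⟨ξ, hξ1, hξ2⟩ := SIM.exists_similar hC hT hm
  obtain ⟨R, h1, h2, h3⟩ := metric_of_hyp hm T ((1 + η) / (1 - η)) hκ (fun U b d h => by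
    have key := trace_bound hm (by omega) hC T (SIM.mobius_of_PBdd hC hT) ξ hξ1 U b d h
    have hcond : (‖(ξ : E →L[ℂ] E)‖ * ‖(ξ.symm : E →L[ℂ] E)‖) ^ 2 ≤ (C ^ m) ^ 2 :=
      pow_le_pow_left₀ (by positivity) hξ2 2
    have habs : 0 ≤ ∑ k, |d k| := Finset.sum_nonneg fun k _ => abs_nonneg _
    have h4 : -∑ k, d k ≤ η * ∑ k, |d k| := by
      refine key.trans ?_
      rw [hη]
      gcongr
    have h5 : ∑ k, |d k| = ∑ k, max (d k) 0 + ∑ k, (max (d k) 0 - d k) := by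
      rw [← Finset.sum_add_distrib]
      refine Finset.sum_congr rfl fun k _ => ?_
      rcases le_total 0 (d k) with h0 | h0
      · rw [max_eq_left h0, abs_of_nonneg h0]; ring
      · rw [max_eq_right h0, abs_of_nonpos h0]; ring
    have h6 : ∑ k, d k = ∑ k, max (d k) 0 - ∑ k, (max (d k) 0 - d k) := by
      rw [← Finset.sum_sub_distrib]
      refine Finset.sum_congr rfl fun k _ => ?_
      ring
    rw [h5, h6] at h4
    rw [div_mul_eq_mul_div, le_div_iff₀ hpos]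
    linarith)
  exact equiv_of_metric T R (Real.sqrt_nonneg _) h1 h2 h3

end Pool.Agent.Helper69.SQ
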